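import Pool.Agent.Lib.MP_16285c_agY.Spec

/-!
# (GrBB) Subvarieties which are generically finite over the base
-/

set_option autoImplicit false

namespace Pool.Agent.Lib.MP_16285c_agY

open Pool.Agent.Lib.MP_16285c_ag Pool.Agent.Lib.MP_16285c_agN Pool.Agent.Lib.MP_16285c_agX
open Pool.Agent.Lib.MP_16285c_agS (toF)

namespace YGrBBM

/-- A finitely generated field is finite over a subfield which contains a transcendence basis. -/
theorem fin_of_mem (K L : Type) [Field K] [Field L] [Algebra K L] [Algebra.EssFiniteType K L]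
    (A : IntermediateField K L) (l : ℕ) (x : Fin l → L) (hx : IsTranscendenceBasis K x)
    (hA : ∀ i, x i ∈ A) : Module.Finite A L := by
  have h0 := hx.isAlgebraic_field
  have hle : (IntermediateField.adjoin K (Set.range x)).toSubalgebra ≤ A.toSubalgebra := by
    intro y hy
    have h1 : IntermediateField.adjoin K (Set.range x) ≤ A := by
      rw [IntermediateField.adjoin_le_iff]
      rintro _ ⟨i, rfl⟩
      exact hA i
    exact h1 hy
  have h5 : Algebra.IsAlgebraic A L :=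
    ⟨fun y => IsAlgebraic.tower_top_of_subalgebra_le hle (h0.isAlgebraic y)⟩
  have h6 : Algebra.EssFiniteType A L := Algebra.EssFiniteType.of_comp K A L
  obtain ⟨t, ht⟩ := IntermediateField.fg_top A L
  have h7 : FiniteDimensional A (IntermediateField.adjoin A (t : Set L)) :=
    IntermediateField.finiteDimensional_adjoin fun x _ => Algebra.IsIntegral.isIntegral x
  rw [ht] at h7
  exact Module.Finite.equiv (IntermediateField.topEquiv (F := A) (E := L)).toLinearEquiv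

theorem toF_ne {K : Type} [Field K] {n : ℕ} (𝔭 : Ideal (Pl n K)) (L : Type) [Field L]
    [Algebra (CR 𝔭) L] [IsFractionRing (CR 𝔭) L] {c : Pl n K} (hc : c ∉ 𝔭) : toF 𝔭 L c ≠ 0 := by
  intro h
  apply hc
  rw [← Ideal.Quotient.eq_zero_iff_mem]
  exact (map_eq_zero_iff _ (IsFractionRing.injective (CR 𝔭) L)).1 h

end YGrBBM

open YGrBBM in
theorem tGrBB (hA : StmtGrBA) (hRkL : StmtRkL) (hRs : StmtRsE) (hRsR : StmtRsR)
    (hResD : StmtResD) (hEqF : StmtEqF) : StmtGrBB := by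
  intro k _ _ _ n l m' hl P f hirr hmon hinv E' E₀ _ _ _ _ ε φ φ₀ hε ξ hgen hfξ g hg hgx htb hlt
  obtain ⟨S, hS⟩ := hA k n l m' hl P f hirr hmon hinv E' E₀ ε φ φ₀ hε ξ hgen hfξ g hg hgx htb hlt
  refine ⟨S, ?_⟩
  intro K _ _ _ PK fK hSK hPK hfK hirrK hmonK hinvK σK hOf M hM E _ _ _ _ _ ρ hρ
  obtain ⟨c, Y, h, ρ₀, hc, hY, hX, hρ₀, halg, hdeg⟩ :=
    hS K PK fK hSK hPK hfK hirrK hmonK hinvK σK hOf M hM E ρ hρ
  refine ⟨c, hc, ?_⟩
  intro 𝔭 _ hP𝔭 hd𝔭 hc𝔭 hInd hrk L _ _ _ _ _ ρb hρb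
  have hprime : (Ideal.span {PK}).IsPrime :=
    (Ideal.span_singleton_prime hirrK.ne_zero).2 hirrK.prime
  have hle : Ideal.span {PK} ≤ 𝔭 := (Ideal.span_singleton_le_iff_mem _).2 hP𝔭
  obtain ⟨huniq, hpoly, -, -, -, -⟩ := hRs K (n + 1) (Ideal.span {PK}) 𝔭 hle E L
  have hc0 : toF 𝔭 L c ≠ 0 := toF_ne 𝔭 L hc𝔭
  have hu : ∀ i, RsE (Ideal.span {PK}) 𝔭 E L (h i) (toF 𝔭 L (Y i) / toF 𝔭 L c) :=
    fun i => ⟨Y i, c, hc𝔭, hY i, div_mul_cancel₀ _ hc0⟩
  obtain ⟨-, hRk⟩ := hRkL K n l hl PK 𝔭 hmonK hP𝔭 hInd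
  obtain ⟨hai, htbL⟩ := hRk L
  have htbL := htbL hrk
  have hux : ∀ i : Fin l, toF 𝔭 L (Y (Fin.castAdd m' i)) / toF 𝔭 L c =
      toF 𝔭 L (MvPolynomial.X (Fin.castLE hl i).succ) := by
    intro i
    refine huniq _ _ _ (hu _) ?_
    rw [hX]
    exact hpoly _
  -- the set of the first `l` indices
  have hα : ∀ a : (Finset.univ.map (Fin.castAddEmb m' : Fin l ↪ Fin (l + m')) :
      Finset (Fin (l + m'))), ∃ i : Fin l, Fin.castAdd m' i = (a : Fin (l + m')) := by
    intro a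
    have h1 := a.2
    rw [Finset.mem_map] at h1
    obtain ⟨i, -, hi⟩ := h1
    exact ⟨i, hi⟩
  choose e he using hα
  have he_inj : Function.Injective e := by
    intro a b hab
    apply Subtype.ext
    rw [← he a, ← he b, hab]
  have hai' : AlgebraicIndependent K (fun a : (Finset.univ.map
      (Fin.castAddEmb m' : Fin l ↪ Fin (l + m')) : Finset (Fin (l + m'))) =>
      toF 𝔭 L (Y (a : Fin (l + m'))) / toF 𝔭 L c) := by
    have h1 := hai.comp e he_inj
    have h2 : (fun a : (Finset.univ.map (Fin.castAddEmb m' : Fin l ↪ Fin (l + m')) :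
        Finset (Fin (l + m'))) => toF 𝔭 L (Y (a : Fin (l + m'))) / toF 𝔭 L c) =
        (fun i : Fin l => toF 𝔭 L (MvPolynomial.X (Fin.castLE hl i).succ)) ∘ e := by
      funext a
      rw [Function.comp_apply, ← hux, he]
    rw [h2]
    exact h1
  have hrange : Set.range (fun a : (Finset.univ.map (Fin.castAddEmb m' : Fin l ↪ Fin (l + m')) :
      Finset (Fin (l + m'))) => h (a : Fin (l + m'))) =
      Set.range (fun a : Fin l => h (Fin.castAdd m' a)) := by
    ext w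
    constructor
    · rintro ⟨a, rfl⟩
      exact ⟨e a, congrArg h (he a)⟩
    · rintro ⟨i, rfl⟩
      exact ⟨⟨Fin.castAdd m' i, Finset.mem_map.2 ⟨i, Finset.mem_univ _, rfl⟩⟩, rfl⟩
  obtain ⟨ι, hι⟩ := hResD K (n + 1) (Ideal.span {PK}) 𝔭 hle E L (l + m') h
    (fun i => toF 𝔭 L (Y i) / toF 𝔭 L c) hu
    (Finset.univ.map (Fin.castAddEmb m' : Fin l ↪ Fin (l + m'))) hai' (by
      intro i
      rw [hrange]
      exact halg i)
  have hιρ : ∀ d, ι (ρ₀ d) = ρb (ι d) := by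
    intro d
    refine huniq _ _ _ (hι (ρ₀ d)) ?_
    rw [hρ₀]
    have h1 := hRsR K (n + 1) (Ideal.span {PK}) 𝔭 hle E L (σK ^ M) ρ ρb hρ hρb 1 _ _ (hι d)
    rw [pow_one, pow_one] at h1
    exact h1
  have hess : Algebra.EssFiniteType K L := by
    have h2 : Algebra.EssFiniteType (CR 𝔭) L :=
      Algebra.EssFiniteType.of_isLocalization L (nonZeroDivisors (CR 𝔭))
    exact Algebra.EssFiniteType.comp K (CR 𝔭) L
  have hfin : Module.Finite ι.fieldRange L := by
    refine fin_of_mem K L ι.fieldRange l _ htbL fun i => ?_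
    refine ⟨⟨h (Fin.castAdd m' i), IntermediateField.subset_adjoin K _ ⟨_, rfl⟩⟩, ?_⟩
    refine (huniq _ _ _ (hι _) ?_).trans (hux i)
    exact hu _
  rw [hEqF K _ L ι ρ₀ ρb hιρ hfin]
  exact hdeg

end Pool.Agent.Lib.MP_16285c_agY
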