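import Pool.Agent.Lib.MP_16285c_agY.Spec
import Pool.Agent.Lib.MP_16285c_agX.G.VarX

/-!
# The theorem for towers
-/

set_option autoImplicit false

namespace Pool.Agent.Lib.MP_16285c_agY

open MvPolynomial
open Pool.Agent.Lib.MP_16285c_ag (RM)
open Pool.Agent.Lib.MP_16285c_agN (Pl)
open Pool.Agent.Lib.MP_16285c_agX
open Pool.Agent.ZDO (Wd Jc dd nn)
open Pool.Agent.Lib.MP_16285c_agS.G (FF cls ValAt)

namespace YVarYM

theorem aeval_self {k : Type} [Field k] {n : ℕ} (w : Fin n → k) (A : MvPolynomial (Fin n) k) :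
    aeval w A = eval w A := by
  rw [← coe_aeval_eq_eval]
  rfl

/-- The next point. -/
theorem fv_next {k : Type} [Field k] {n : ℕ} {f : RM k n} {w w' : Fin n → k} (h : f.Next w w') :
    fvn f w = w' := by
  funext i
  rw [fvn, aeval_self, aeval_self, div_eq_iff (h i).1]
  exact (h i).2.symm

/-- From the model to the variety. -/
theorem pts_fin (hPts : StmtPtsX) (hHc : StmtHcn) {k : Type} [Field k] {m : ℕ}
    (I : Ideal (MvPolynomial (Fin m) k)) [I.IsPrime] (n : ℕ) (P : Pl (n + 1) k)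
    (ξ : Fin (n + 1) → FF I) (f : RM k (n + 1)) (φ : FF I →ₐ[k] FF I) (hP : Irreducible P)
    (hG : GenN P ξ) (hf : InvX f P) (hfv : ∀ i, fvn f ξ i = φ (ξ i))
    (hdense : ∀ b : Pl (n + 1) k, ¬ P ∣ b → ∃ x : ℕ → Fin (n + 1) → k, f.Orb x ∧
      (∀ m, MvPolynomial.eval (x m) P = 0 ∧ MvPolynomial.eval (x m) b ≠ 0) ∧
      ∀ G : Pl (n + 1) k, ¬ P ∣ G → ∃ m, MvPolynomial.eval (x m) G ≠ 0)
    (b : MvPolynomial (Fin m) k) (hb : b ∉ I) :
    ∃ x : ℕ → Fin m → k, (∀ t, (∀ A ∈ I, MvPolynomial.eval (x t) A = 0) ∧ MvPolynomial.eval (x t) b ≠ 0 ∧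
      ∀ i, ValAt I (φ (cls I (MvPolynomial.X i))) (x t) (x (t + 1) i)) ∧
      ∀ A : MvPolynomial (Fin m) k, A ∉ I → ∃ t, MvPolynomial.eval (x t) A ≠ 0 := by
  obtain ⟨c, Y, d, Z, hc0, hd0, hY, hZ, hb'⟩ := hPts k m I n P ξ hP hG
  obtain ⟨hβ, Υ, hΥ, hd⟩ := hb' b hb
  obtain ⟨w, hw1, hw2, hw3⟩ := hdense _ hβ
  have hden : ∀ i, aeval ξ (f.den i) ≠ 0 := fun i h => hf.1 i ((hG.ker _).mp h)
  have hfv' : fvn f ξ = fun i => φ (ξ i) := funext hfv
  have hφ : ∀ A : MvPolynomial (Fin (n + 1)) k, aeval (fvn f ξ) A = φ (aeval ξ A) := by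
    intro A
    have h := congrArg (fun g : MvPolynomial (Fin (n + 1)) k →ₐ[k] FF I => g A) (comp_aeval ξ φ)
    rw [hfv']
    exact h.symm
  refine ⟨fun t => Υ (w t), ?_, ?_⟩
  · intro t
    obtain ⟨h1, h2, h3, h4⟩ := hΥ (w t) (hw2 t).1 (hw2 t).2
    obtain ⟨h1', -, -, -⟩ := hΥ (w (t + 1)) (hw2 (t + 1)).1 (hw2 (t + 1)).2
    refine ⟨h2, h3, ?_⟩
    intro i
    have hden' : ∀ i, aeval (w t) (f.den i) ≠ 0 := by
      intro i
      rw [aeval_self]
      exact (hw1 t i).1
    have hdd : eval (w t) (dd f) ≠ 0 := by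
      rw [dd, map_prod]
      exact Finset.prod_ne_zero_iff.mpr fun l _ => (hw1 t l).1
    have hc' : eval (w (t + 1)) c ≠ 0 := by
      intro h0
      apply (hw2 (t + 1)).2
      rw [map_mul, map_mul, h0, zero_mul, zero_mul]
    have hnx : fvn f (w t) = w (t + 1) := fv_next (hw1 t)
    have e1 : ∀ A : MvPolynomial (Fin (n + 1)) k, A.totalDegree ≤ max (Y i).totalDegree c.totalDegree →
        eval (w t) (hcn f (max (Y i).totalDegree c.totalDegree) A) =
          eval (w t) (dd f) ^ (max (Y i).totalDegree c.totalDegree) * eval (w (t + 1)) A := by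
      intro A hA
      have h := hHc.2.1 k k (n + 1) f _ A (w t) hA hden'
      rw [hnx, aeval_self, aeval_self, aeval_self] at h
      exact h
    have e2 : ∀ A : MvPolynomial (Fin (n + 1)) k, A.totalDegree ≤ max (Y i).totalDegree c.totalDegree →
        aeval ξ (hcn f (max (Y i).totalDegree c.totalDegree) A) =
          aeval ξ (dd f) ^ (max (Y i).totalDegree c.totalDegree) * φ (aeval ξ A) := by
      intro A hA
      have h := hHc.2.1 k (FF I) (n + 1) f _ A ξ hA hden
      rw [hφ] at h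
      exact h
    have hB : eval (w t) (hcn f (max (Y i).totalDegree c.totalDegree) c) ≠ 0 := by
      rw [e1 c (le_max_right _ _)]
      exact mul_ne_zero (pow_ne_zero _ hdd) hc'
    have hval := h4 (φ (cls I (X i))) (hcn f (max (Y i).totalDegree c.totalDegree) (Y i))
      (hcn f (max (Y i).totalDegree c.totalDegree) c) (by
        rw [e2 c (le_max_right _ _), e2 (Y i) (le_max_left _ _), ← hY i, map_mul]
        ring) hB
    have hq : eval (w t) (hcn f (max (Y i).totalDegree c.totalDegree) (Y i)) /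
        eval (w t) (hcn f (max (Y i).totalDegree c.totalDegree) c) = Υ (w (t + 1)) i := by
      rw [div_eq_iff hB, e1 c (le_max_right _ _), e1 (Y i) (le_max_left _ _), ← h1' i]
      ring
    rw [hq] at hval
    exact hval
  · intro A hA
    obtain ⟨A', hA', hA2⟩ := hd A hA
    obtain ⟨t, ht⟩ := hw3 A' hA'
    exact ⟨t, hA2 (w t) (hw2 t).1 (hw2 t).2 ht⟩

/-- The coordinates in the whole field. -/
theorem aeval_coe {k Ω : Type} [Field k] [Field Ω] [Algebra k Ω] (F : IntermediateField k Ω) {n : ℕ}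
    (ξ : Fin n → F) (A : MvPolynomial (Fin n) k) :
    aeval (fun i => (ξ i : Ω)) A = (aeval ξ A : F) := by
  have h := congrArg (fun g : MvPolynomial (Fin n) k →ₐ[k] Ω => g A) (comp_aeval ξ F.val)
  exact h.symm

theorem gen_coe {k Ω : Type} [Field k] [Field Ω] [Algebra k Ω] (F : IntermediateField k Ω)
    (hF : F = ⊤) {n : ℕ} (P : MvPolynomial (Fin n) k) (ξ : Fin n → F) (h : GenN P ξ) :
    GenN P (fun i => (ξ i : Ω)) := by
  refine ⟨fun A => ?_, ?_⟩
  · rw [aeval_coe, ← h.ker]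
    exact ZeroMemClass.coe_eq_zero
  · rw [eq_top_iff]
    intro z _
    have hz : z ∈ F := by rw [hF]; exact IntermediateField.mem_top
    have h1 : (⟨z, hz⟩ : F) ∈ IntermediateField.adjoin k (Set.range ξ) := by
      rw [h.top]
      exact IntermediateField.mem_top
    have h2 : (⊤ : IntermediateField k F) ≤
        (IntermediateField.adjoin k (Set.range fun i => (ξ i : Ω))).comap F.val := by
      rw [← h.top, IntermediateField.adjoin_le_iff]
      rintro _ ⟨i, rfl⟩
      exact IntermediateField.subset_adjoin k _ ⟨i, rfl⟩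
    exact h2 (IntermediateField.mem_top (x := (⟨z, hz⟩ : F)))

theorem fvn_coe {k Ω : Type} [Field k] [Field Ω] [Algebra k Ω] (F : IntermediateField k Ω) {n : ℕ}
    (f : RM k n) (ξ : Fin n → F) (i : Fin n) : fvn f (fun i => (ξ i : Ω)) i = (fvn f ξ i : F) := by
  unfold fvn
  rw [aeval_coe, aeval_coe]
  rfl

theorem trdeg_bot {k Ω : Type} [Field k] [Field Ω] [Algebra k Ω] (F : IntermediateField k Ω)
    (hF : F = ⊥) : Algebra.trdeg k F = 0 := by
  subst hF
  have h : Algebra.IsAlgebraic k (⊥ : IntermediateField k Ω) := by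
    refine ⟨fun z => ?_⟩
    obtain ⟨c, hc⟩ := IntermediateField.mem_bot.1 z.2
    have e : z = algebraMap k (⊥ : IntermediateField k Ω) c := Subtype.ext hc.symm
    rw [e]
    exact isAlgebraic_algebraMap c
  exact trdeg_eq_zero

theorem trdeg_top {k Ω : Type} [Field k] [Field Ω] [Algebra k Ω] (F : IntermediateField k Ω)
    (hF : F = ⊤) : Algebra.trdeg k F = Algebra.trdeg k Ω := by
  subst hF
  exact IntermediateField.topEquiv.trdeg_eq

end YVarYM

open YVarYM in
theorem tVarY (hTop : StmtTopY) (hAdp : StmtAdp) (hLvD : StmtLvD) (hLvG : StmtLvG) (hTrf : StmtTrf)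
    (hPts : StmtPtsX) (hHc : StmtHcn) (hZero : StmtZeroX) : StmtVarY := by
  classical
  intro k _ _ _ m I _ φ s F n μ y ψ hF0 hFs hFm htr hy hψ hlam hT hinv b hb
  have hn0 : n 0 = 0 := by
    have h1 := htr 0 (Nat.zero_le _)
    rw [trdeg_bot (F 0) hF0] at h1
    exact_mod_cast h1.symm
  have htrs : Algebra.trdeg k (FF I) = n s := by
    rw [← trdeg_top (F s) hFs]
    exact htr s le_rfl
  have htrI : Algebra.trdeg k (MvPolynomial (Fin m) k ⧸ I) = n s := by
    have h1 := trdeg_add_eq k (MvPolynomial (Fin m) k ⧸ I) (A := FF I)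
    have h3 : Algebra.IsAlgebraic (MvPolynomial (Fin m) k ⧸ I) (FF I) :=
      IsLocalization.isAlgebraic _ (nonZeroDivisors (MvPolynomial (Fin m) k ⧸ I))
    have h2 : Algebra.trdeg (MvPolynomial (Fin m) k ⧸ I) (FF I) = 0 := trdeg_eq_zero
    rw [h2, add_zero, htrs] at h1
    exact h1
  rcases Nat.eq_zero_or_pos (n s) with hns | hns
  · exact hZero k m I (by rw [htrI, hns]; exact Nat.cast_zero) φ b hb
  obtain ⟨x, hx, hxc⟩ := hAdp k (FF I) s F n hFm htr
  have hinvj : ∀ j ≤ s, ∀ h : F j, ψ j h = h → ∃ c : k, h = algebraMap k (F j) c := by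
    intro j hj h hh
    obtain ⟨c, hc⟩ := hinv h (by rw [← hψ j hj h, hh])
    exact ⟨c, Subtype.ext hc⟩
  -- the models of the levels
  have hD : ∀ j, ∃ (P : Pl (n j + 1) k) (ξ : Fin (n j + 1) → F j) (f : RM k (n j + 1)), j ≤ s →
      (Irreducible P ∧ MonZ P ∧ GenN P ξ ∧ (∀ i : Fin (n j), ξ i.succ = x j i) ∧ InvX f P ∧
        (∀ i, fvn f ξ i = ψ j (ξ i)) ∧ NoIX f P ∧
        ∀ l : ℕ, (∀ r : ℕ, l < r → r + 2 ≤ n j → lamX k (n j) r (y j) (ψ j) <
          (Module.finrank (ψ j).fieldRange (F j) : ENNReal)) →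
          ∃ e : Pl (n j + 1) k, ¬ P ∣ e ∧ GrY l P e f) := by
    intro j
    by_cases hj : j ≤ s
    · obtain ⟨P, ξ, f, h⟩ := hLvD k (F j) (n j) (μ j) (y j) (ψ j) (x j) (hy j hj) (hx j hj)
        (hinvj j hj)
      exact ⟨P, ξ, f, fun _ => h⟩
    · exact ⟨0, 0, ⟨fun _ => 0, fun _ => 0⟩, fun h => absurd h hj⟩
  choose P ξ f hD using hD
  -- the first level of positive dimension
  obtain ⟨j₀, ⟨hj₀s, hj₀n⟩, hj₀m⟩ : ∃ j₀, (j₀ ≤ s ∧ 1 ≤ n j₀) ∧ ∀ j < j₀, ¬ (j ≤ s ∧ 1 ≤ n j) := by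
    have hex : ∃ j, j ≤ s ∧ 1 ≤ n j := ⟨s, le_rfl, hns⟩
    exact ⟨Nat.find hex, Nat.find_spec hex, fun j hj => Nat.find_min hex hj⟩
  have hj₀0 : j₀ ≠ 0 := by
    rintro rfl
    omega
  obtain ⟨i₀, rfl⟩ := Nat.exists_eq_succ_of_ne_zero hj₀0
  have hi₀ : n i₀ = 0 := by
    by_contra h
    exact hj₀m i₀ (Nat.lt_succ_self _) ⟨by omega, by omega⟩
  obtain ⟨s', rfl⟩ := Nat.exists_eq_add_of_le hj₀s
  have hmon : ∀ j < i₀.succ + s', n j ≤ n (j + 1) := fun j hj => (hxc j hj).1
  have hmon' : ∀ d j : ℕ, j + d ≤ i₀.succ + s' → n j ≤ n (j + d) := by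
    intro d
    induction d with
    | zero => intro j _; exact le_rfl
    | succ d ih =>
      intro j hj
      exact (ih j (by omega)).trans (hmon (j + d) (by omega))
  -- compatibility with the top level
  have hcomp : ∀ d j : ℕ, j + d = i₀.succ + s' → F j ≤ F (i₀.succ + s') ∧ n j ≤ n (i₀.succ + s') ∧
      ∀ (i : Fin (n j)) (i' : Fin (n (i₀.succ + s'))), (i : ℕ) = i' →
        (x j i : FF I) = x (i₀.succ + s') i' := by
    intro d
    induction d with
    | zero =>
      intro j hj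
      rw [add_zero] at hj
      subst hj
      refine ⟨le_rfl, le_rfl, fun i i' h => ?_⟩
      rw [Fin.ext h]
    | succ d ih =>
      intro j hj
      obtain ⟨h1, h2, h3⟩ := ih (j + 1) (by omega)
      have h4 := hxc j (by omega)
      refine ⟨(hFm j (by omega)).trans h1, h4.1.trans h2, fun i i' h => ?_⟩
      rw [h4.2 i (Fin.castLE h4.1 i) rfl]
      exact h3 _ _ h
  -- the level condition
  have hGrL : ∀ i < i₀.succ + s', 1 ≤ n (i + 1) → GrL (n i) (P (i + 1)) (f (i + 1)) := by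
    intro i hi hi1
    obtain ⟨hP, hM, hG, hξ, hI, hfv, hN, hgr⟩ := hD (i + 1) (by omega)
    obtain ⟨e, he, hgre⟩ := hgr (n i) (hlam i hi)
    refine hLvG k (n (i + 1)) (n i) (μ i) hi1 (hmon i hi) (P (i + 1)) e (f (i + 1)) hP hM hI hN he
      hgre (F (i + 1)) (F i) (IntermediateField.inclusion (hFm i hi)) (ψ (i + 1)) (ψ i) ?_
      (ξ (i + 1)) hG hfv (x i) (y i) (hy i (by omega)) ?_ (hx i (by omega)) (hT i hi)
    · intro h
      apply Subtype.ext
      rw [IntermediateField.coe_inclusion, hψ i (by omega), hψ (i + 1) (by omega),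
        IntermediateField.coe_inclusion]
    · intro a
      rw [hξ]
      apply Subtype.ext
      rw [IntermediateField.coe_inclusion]
      exact (hxc i hi).2 _ _ rfl
  obtain ⟨hPs, hMs, hGs, hξs, hIs, hfvs, hNs, -⟩ := hD (i₀.succ + s') le_rfl
  refine pts_fin hPts hHc I (n (i₀.succ + s')) (P (i₀.succ + s'))
    (fun i => (ξ (i₀.succ + s') i : FF I)) (f (i₀.succ + s')) φ hPs (gen_coe _ hFs _ _ hGs) hIs ?_ ?_
    b hb
  · intro i
    rw [fvn_coe, hfvs, hψ _ le_rfl]
  · intro b' hb'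
    refine hTop k s' (fun j => n (i₀.succ + j)) (fun j => P (i₀.succ + j))
      (fun j => f (i₀.succ + j)) ?_ ?_ ?_ ?_ ?_ ?_ ?_ ?_ b' hb'
    · intro j hj
      exact hj₀n.trans (hmon' j i₀.succ (by omega))
    · intro j hj
      exact hmon (i₀.succ + j) (by omega)
    · intro j hj
      exact (hD (i₀.succ + j) (by omega)).1
    · intro j hj
      exact (hD (i₀.succ + j) (by omega)).2.1
    · intro j hj
      exact (hD (i₀.succ + j) (by omega)).2.2.2.2.1
    · have h1 := hGrL i₀ (by omega) hj₀n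
      rw [hi₀] at h1
      exact h1
    · intro j hj
      exact hGrL (i₀.succ + j) (by omega)
        (hj₀n.trans (hmon' (j + 1) i₀.succ (by omega)))
    · intro j hj
      obtain ⟨h1, h2, h3⟩ := hcomp (s' - j) (i₀.succ + j) (by omega)
      obtain ⟨hP, hM, hG, hξ, hI, hfv, hN, -⟩ := hD (i₀.succ + j) (by omega)
      refine hTrf k (n (i₀.succ + s')) (n (i₀.succ + j)) (P (i₀.succ + s')) (f (i₀.succ + s'))
        (P (i₀.succ + j)) (f (i₀.succ + j)) h2 hPs hP hIs hI (F (i₀.succ + s')) (F (i₀.succ + j))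
        (IntermediateField.inclusion h1) (ψ (i₀.succ + s')) (ψ (i₀.succ + j)) ?_
        (ξ (i₀.succ + s')) (ξ (i₀.succ + j)) hGs hG hfvs hfv ?_
      · intro h
        apply Subtype.ext
        rw [IntermediateField.coe_inclusion, hψ _ (by omega), hψ _ le_rfl,
          IntermediateField.coe_inclusion]
      · intro i i' hii
        rw [hξ, hξs]
        apply Subtype.ext
        rw [IntermediateField.coe_inclusion]
        exact h3 i i' hii

end Pool.Agent.Lib.MP_16285c_agY
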