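import Pool.Agent.Lib.MP_16285c_agY.Spec

/-!
# `StmtAdp`: adapted transcendence bases
-/

set_option autoImplicit false

open Pool.Agent.Lib.MP_16285c_ag Pool.Agent.Lib.MP_16285c_agN Pool.Agent.Lib.MP_16285c_agX

namespace Pool.Agent.Lib.MP_16285c_agY

namespace YAdpM

/-- An algebraically independent family is extended to a transcendence basis. -/
theorem ext {k A : Type} [Field k] [Field A] [Algebra k A] {a b : ℕ} (hA : Algebra.trdeg k A = b)
    (u : Fin a → A) (hu : AlgebraicIndependent k u) :
    a ≤ b ∧ ∃ x : Fin b → A, IsTranscendenceBasis k x ∧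
      ∀ (i : Fin a) (i' : Fin b), (i : ℕ) = i' → u i = x i' := by
  have hs : AlgebraicIndepOn k id (Set.range u) := hu.to_subtype_range
  obtain ⟨t, hst, ht⟩ := exists_isTranscendenceBasis_superset hs
  have hcard : Cardinal.mk t = (b : Cardinal) := ht.cardinalMk_eq_trdeg.trans hA
  have htfin : t.Finite := by
    rw [← Cardinal.lt_aleph0_iff_set_finite, hcard]
    exact Cardinal.natCast_lt_aleph0
  have hncard : t.ncard = b := by
    rw [Set.ncard_def, Set.encard, ENat.card, hcard]
    simp
  have hran : (Set.range u).ncard = a := by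
    rw [← Set.image_univ, Set.ncard_image_of_injective _ hu.injective, Set.ncard_univ,
      Nat.card_eq_fintype_card, Fintype.card_fin]
  have hle : a ≤ b := by
    rw [← hran, ← hncard]
    exact Set.ncard_le_ncard hst htfin
  refine ⟨hle, ?_⟩
  have hdiff : (t \ Set.range u).ncard = b - a := by
    rw [Set.ncard_sdiff hst (Set.finite_range u), hran, hncard]
  have hfin : Finite ↥(t \ Set.range u) := htfin.subset Set.sdiff_subset
  obtain ⟨e⟩ : Nonempty (↥(t \ Set.range u) ≃ Fin (b - a)) :=
    ⟨Finite.equivFinOfCardEq (by rw [← hdiff, Set.ncard, Set.encard]; rfl)⟩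
  let x : Fin b → A := fun i => if h : (i : ℕ) < a then u ⟨i, h⟩ else
    (e.symm ⟨(i : ℕ) - a, by omega⟩ : A)
  have hx1 : ∀ (i : Fin b) (h : (i : ℕ) < a), x i = u ⟨i, h⟩ := fun i h => dif_pos h
  have hx2 : ∀ (i : Fin b) (h : ¬ (i : ℕ) < a), x i = (e.symm ⟨(i : ℕ) - a, by omega⟩ : A) :=
    fun i h => dif_neg h
  have hinj : Function.Injective x := by
    intro i j hij
    by_cases hi : (i : ℕ) < a
    · by_cases hj : (j : ℕ) < a
      · rw [hx1 i hi, hx1 j hj] at hij
        have h1 := hu.injective hij
        have h2 := congrArg (fun v : Fin a => (v : ℕ)) h1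
        exact Fin.ext h2
      · rw [hx1 i hi, hx2 j hj] at hij
        exact absurd ⟨_, hij⟩ (e.symm ⟨(j : ℕ) - a, by omega⟩).2.2
    · by_cases hj : (j : ℕ) < a
      · rw [hx2 i hi, hx1 j hj] at hij
        exact absurd ⟨_, hij.symm⟩ (e.symm ⟨(i : ℕ) - a, by omega⟩).2.2
      · rw [hx2 i hi, hx2 j hj] at hij
        have h1 := e.symm.injective (Subtype.ext hij)
        have h2 := congrArg (fun v : Fin (b - a) => (v : ℕ)) h1
        have h3 : (i : ℕ) - a = (j : ℕ) - a := h2
        exact Fin.ext (by omega)
  have hrange : Set.range x = t := by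
    apply Set.Subset.antisymm
    · rintro _ ⟨i, rfl⟩
      by_cases hi : (i : ℕ) < a
      · rw [hx1 i hi]
        exact hst ⟨_, rfl⟩
      · rw [hx2 i hi]
        exact (e.symm ⟨(i : ℕ) - a, by omega⟩).2.1
    · intro y hy
      by_cases hyu : y ∈ Set.range u
      · obtain ⟨i, rfl⟩ := hyu
        exact ⟨⟨i, by omega⟩, hx1 _ i.2⟩
      · refine ⟨⟨a + (e ⟨y, hy, hyu⟩ : ℕ), by omega⟩, ?_⟩
        rw [hx2 _ (by simp)]
        have h1 : (⟨a + (e ⟨y, hy, hyu⟩ : ℕ) - a, by omega⟩ : Fin (b - a)) = e ⟨y, hy, hyu⟩ :=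
          Fin.ext (by simp)
        simp only [h1, Equiv.symm_apply_apply]
  refine ⟨x, ?_, ?_⟩
  · refine (isTranscendenceBasis_subtype_range hinj).1 ?_
    rw [hrange]
    exact ht
  · intro i i' h
    have hi' : (i' : ℕ) < a := by omega
    rw [hx1 i' hi']
    exact congrArg u (Fin.ext h)

end YAdpM

open YAdpM in
theorem tAdp : StmtAdp := by
  intro k Ω _ _ _ s F n
  induction s with
  | zero =>
    intro _ hn
    have h0 := hn 0 le_rfl
    have hu : AlgebraicIndependent k (fun i : Fin 0 => (i.elim0 : F 0)) :=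
      algebraicIndependent_empty_type
    obtain ⟨-, x, hx, -⟩ := ext h0 _ hu
    refine ⟨Function.update (fun _ _ => 0) 0 x, ?_, ?_⟩
    · intro j hj
      obtain rfl : j = 0 := by omega
      rw [Function.update_self]
      exact hx
    · intro j hj
      omega
  | succ s ih =>
    intro hF hn
    obtain ⟨x, hx1, hx2⟩ := ih (fun j hj => hF j (by omega)) (fun j hj => hn j (by omega))
    have hFs := hF s (by omega)
    have hu : AlgebraicIndependent k
        (fun i : Fin (n s) => IntermediateField.inclusion hFs (x s i)) :=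
      (hx1 s le_rfl).1.map' (IntermediateField.inclusion_injective hFs)
    obtain ⟨hle, x', hx', hxx⟩ := ext (hn (s + 1) le_rfl) _ hu
    refine ⟨Function.update x (s + 1) x', ?_, ?_⟩
    · intro j hj
      by_cases h : j = s + 1
      · subst h
        rw [Function.update_self]
        exact hx'
      · rw [Function.update_of_ne h]
        exact hx1 j (by omega)
    · intro j hj
      by_cases h : j = s
      · subst h
        refine ⟨hle, fun i i' hii => ?_⟩
        rw [Function.update_of_ne (by omega), Function.update_self, ← hxx i i' hii]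
        rfl
      · obtain ⟨h1, h2⟩ := hx2 j (by omega)
        refine ⟨h1, fun i i' hii => ?_⟩
        rw [Function.update_of_ne (by omega), Function.update_of_ne (by omega)]
        exact h2 i i' hii

end Pool.Agent.Lib.MP_16285c_agY
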