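import Pool.Agent.Lib.MP_16285c_agY.Spec

/-!
# AlgK: a relation with algebraically independent coordinates makes the first one algebraic
-/

set_option autoImplicit false

namespace Pool.Agent.Lib.MP_16285c_agY

open Pool.Agent.Lib.MP_16285c_ag Pool.Agent.Lib.MP_16285c_agN Pool.Agent.Lib.MP_16285c_agX

namespace YAlgKM

open MvPolynomial in
/-- evaluation through `finSuccEquiv` -/
lemma ev {K E : Type} [Field K] [Field E] [Algebra K E] {l : ℕ} (x : Fin l → E) (h : E)
    (ψ : MvPolynomial (Fin l) K →+* E) (hψ : ∀ G, ψ G = aeval x G)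
    (F : MvPolynomial (Fin (l + 1)) K) :
    (finSuccEquiv K l F).eval₂ ψ h = aeval (Fin.cons h x : Fin (l + 1) → E) F := by
  induction F using MvPolynomial.induction_on with
  | C a =>
    rw [finSuccEquiv_apply, eval₂Hom_C, aeval_C]
    simp only [RingHom.comp_apply, Polynomial.eval₂_C, hψ, aeval_C]
  | add f g hf hg => rw [map_add, Polynomial.eval₂_add, hf, hg, map_add]
  | mul_X f i hf =>
    rw [map_mul, Polynomial.eval₂_mul, hf, map_mul, aeval_X]
    congr 1
    refine Fin.cases ?_ (fun j => ?_) i
    · rw [finSuccEquiv_X_zero, Polynomial.eval₂_X, Fin.cons_zero]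
    · rw [finSuccEquiv_X_succ, Polynomial.eval₂_C, hψ, aeval_X, Fin.cons_succ]

end YAlgKM

/-- (AlgK). -/
theorem tAlgK : StmtAlgK := by
  intro K E _ _ _ l x hx h F hF hz
  let x' : Fin l → IntermediateField.adjoin K (Set.range x) :=
    fun i => ⟨x i, IntermediateField.subset_adjoin K _ ⟨i, rfl⟩⟩
  let φ : MvPolynomial (Fin l) K →+* IntermediateField.adjoin K (Set.range x) :=
    (MvPolynomial.aeval x' : MvPolynomial (Fin l) K →ₐ[K] _).toRingHom
  have hφ : ∀ G, (algebraMap (IntermediateField.adjoin K (Set.range x)) E).comp φ G =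
      MvPolynomial.aeval x G := by
    intro G
    have e := MvPolynomial.aeval_algebraMap_apply E x' G
    exact e.symm
  have hinj : Function.Injective φ := by
    intro a b hab
    refine hx ?_
    show MvPolynomial.aeval x a = MvPolynomial.aeval x b
    rw [← hφ, ← hφ, RingHom.comp_apply, RingHom.comp_apply, hab]
  refine ⟨(MvPolynomial.finSuccEquiv K l F).map φ, ?_, ?_⟩
  · rw [Ne, Polynomial.map_eq_zero_iff hinj]
    intro h0
    refine hF ((MvPolynomial.finSuccEquiv K l).injective ?_)
    rw [h0, map_zero]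
  · rw [Polynomial.aeval_def, Polynomial.eval₂_map,
      YAlgKM.ev x h _ hφ F]
    exact hz

end Pool.Agent.Lib.MP_16285c_agY
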