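import Pool.Agent.Lib.MP_16285c_agY.Spec

/-!
# Dense orbits for rational maps which preserve a tower of fibrations: algebraic relations
-/

set_option autoImplicit false

namespace Pool.Agent.Lib.MP_16285c_agY

open Pool.Agent.Lib.MP_16285c_ag Pool.Agent.Lib.MP_16285c_agN Pool.Agent.Lib.MP_16285c_agX

theorem tAlgR : StmtAlgR := by
  intro k E _ _ _ l x hx g hg
  by_contra hcon
  push Not at hcon
  have hind : AlgebraicIndependent k (Fin.cons g x : Fin (l + 1) → E) := by
    rw [algebraicIndependent_iff]
    intro F hF
    by_contra h
    exact hcon F h hF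
  have hinj : Function.Injective (fun o : Option (Fin l) => o.elim (0 : Fin (l + 1)) Fin.succ) := by
    rintro (_ | i) (_ | j) h
    · rfl
    · exact absurd h.symm (Fin.succ_ne_zero j)
    · exact absurd h (Fin.succ_ne_zero i)
    · exact congrArg some (Fin.succ_injective l h)
  have hopt : AlgebraicIndependent k (fun o : Option (Fin l) => o.elim g x) := by
    have h1 := hind.comp _ hinj
    have h2 : (Fin.cons g x : Fin (l + 1) → E) ∘
        (fun o : Option (Fin l) => o.elim (0 : Fin (l + 1)) Fin.succ) =
        fun o : Option (Fin l) => o.elim g x := by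
      funext o
      cases o with
      | none => rfl
      | some i => rfl
    rwa [h2] at h1
  exact (hx.option_iff_transcendental g).1 hopt (IntermediateField.isAlgebraic_adjoin_iff.1 hg)

end Pool.Agent.Lib.MP_16285c_agY
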