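import Pool.Agent.Lib.MP_16285c_agY.Spec

/-!
# A common denominator

Proof of `StmtCmn`.
-/

set_option autoImplicit false

namespace Pool.Agent.Lib.MP_16285c_agY

open Pool.Agent.Lib.MP_16285c_ag Pool.Agent.Lib.MP_16285c_agN Pool.Agent.Lib.MP_16285c_agX

/-- (Cmn) A common denominator. -/
theorem tCmn : StmtCmn := by
  intro k E _ _ _ a b ξ y hgen
  have h1 : ∀ i, ∃ A B : Pl a k, MvPolynomial.aeval ξ B ≠ 0 ∧
      y i * MvPolynomial.aeval ξ B = MvPolynomial.aeval ξ A := by
    intro i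
    have h2 : y i ∈ IntermediateField.adjoin k (Set.range ξ) := by
      rw [hgen]
      trivial
    obtain ⟨A, B, h⟩ := (IntermediateField.mem_adjoin_range_iff k ξ (y i)).1 h2
    by_cases hB : MvPolynomial.aeval ξ B = 0
    · refine ⟨0, 1, ?_, ?_⟩
      · rw [map_one]
        exact one_ne_zero
      · rw [h, hB, div_zero, map_zero, zero_mul]
    · exact ⟨A, B, hB, by rw [h, div_mul_cancel₀ _ hB]⟩
  choose A B hB hA using h1
  refine ⟨∏ i, B i, fun i => A i * ∏ j ∈ Finset.univ.erase i, B j, ?_, fun i => ?_⟩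
  · rw [map_prod]
    exact Finset.prod_ne_zero_iff.2 fun i _ => hB i
  · rw [← Finset.mul_prod_erase Finset.univ B (Finset.mem_univ i), map_mul, ← mul_assoc, hA,
      map_mul]

end Pool.Agent.Lib.MP_16285c_agY
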