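import Pool.Agent.Lib.MP_16285c_agY.Spec

/-!
# Dense orbits for towers: degrees (EqF)
-/

set_option autoImplicit false

namespace Pool.Agent.Lib.MP_16285c_agY

open Pool.Agent.Lib.MP_16285c_ag Pool.Agent.Lib.MP_16285c_agN Pool.Agent.Lib.MP_16285c_agX

theorem tEqF : StmtEqF := by
  intro K D L _ _ _ _ _ ι ρ₀ ρb hcomm hfin
  have hc : ι.comp ρ₀ = ρb.comp ι := AlgHom.ext hcomm
  have hB1 : ρ₀.fieldRange.map ι = ι.fieldRange.map ρb := by
    rw [AlgHom.map_fieldRange, AlgHom.map_fieldRange, hc]
  have hle1 : ρ₀.fieldRange.map ι ≤ ι.fieldRange := by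
    rw [AlgHom.fieldRange_eq_map ι]
    exact IntermediateField.map_mono ι le_top
  have hle2 : ι.fieldRange.map ρb ≤ ρb.fieldRange := by
    rw [AlgHom.fieldRange_eq_map ρb]
    exact IntermediateField.map_mono ρb le_top
  have e1 := IntermediateField.relfinrank_mul_finrank_top hle1
  have e2 := IntermediateField.relfinrank_mul_finrank_top hle2
  have r1 : IntermediateField.relfinrank (ρ₀.fieldRange.map ι) ι.fieldRange =
      Module.finrank ρ₀.fieldRange D := by
    rw [AlgHom.fieldRange_eq_map ι, IntermediateField.relfinrank_map_map,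
      IntermediateField.relfinrank_top_right]
  have r2 : IntermediateField.relfinrank (ι.fieldRange.map ρb) ρb.fieldRange =
      Module.finrank ι.fieldRange L := by
    rw [AlgHom.fieldRange_eq_map ρb, IntermediateField.relfinrank_map_map,
      IntermediateField.relfinrank_top_right]
  rw [r1, hB1] at e1
  rw [r2, ← e1, mul_comm] at e2
  exact Nat.eq_of_mul_eq_mul_right Module.finrank_pos e2

end Pool.Agent.Lib.MP_16285c_agY
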