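import Pool.Agent.Lib.MP_16285c_agY.Spec

/-!
# Module ExtV: irreducibility is preserved by adding variables (helper77)
-/

set_option autoImplicit false

open Pool.Agent.Lib.MP_16285c_ag Pool.Agent.Lib.MP_16285c_agN Pool.Agent.Lib.MP_16285c_agX

namespace Pool.Agent.Lib.MP_16285c_agY

theorem tExtV : StmtExtV := by
  intro K _ a b h H hH hirr
  have h1 : Irreducible H :=
    (Polynomial.Monic.irreducible_iff_irreducible_map_fraction_map (K := RF a K) hH).2 hirr
  have hinj : Function.Injective (Fin.castLE h) := Fin.castLE_injective h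
  have hmon : (H.map ((MvPolynomial.rename (Fin.castLE h) : Pl a K →ₐ[K] Pl b K) :
      Pl a K →+* Pl b K)).Monic := hH.map _
  refine (Polynomial.Monic.irreducible_iff_irreducible_map_fraction_map (K := RF b K) hmon).1 ?_
  refine Polynomial.Monic.irreducible_of_irreducible_map
    ((MvPolynomial.killCompl hinj : Pl b K →ₐ[K] Pl a K) : Pl b K →+* Pl a K) _ hmon ?_
  rw [Polynomial.map_map]
  have h2 : (((MvPolynomial.killCompl hinj : Pl b K →ₐ[K] Pl a K) : Pl b K →+* Pl a K).comp
      ((MvPolynomial.rename (Fin.castLE h) : Pl a K →ₐ[K] Pl b K) : Pl a K →+* Pl b K)) =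
      RingHom.id (Pl a K) := by
    refine RingHom.ext fun g => ?_
    exact MvPolynomial.killCompl_rename_app hinj g
  rw [h2, Polynomial.map_id]
  exact h1

end Pool.Agent.Lib.MP_16285c_agY
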