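import Pool.Agent.Lib.MP_16285c_agY.Spec
import Pool.Agent.Lib.MP_16285c_agN.G1

/-!
# (Fn) Endomorphisms of finitely generated fields are finite
-/

set_option autoImplicit false

namespace Pool.Agent.Lib.MP_16285c_agY

open Pool.Agent.Lib.MP_16285c_ag Pool.Agent.Lib.MP_16285c_agN Pool.Agent.Lib.MP_16285c_agX

theorem tFn : StmtFn := by
  intro k E _ _ _ m y hy φ
  have h1 : (⊤ : IntermediateField k E).FG := by
    refine ⟨(Set.finite_range y).toFinset, ?_⟩
    rw [Set.Finite.coe_toFinset]
    exact hy
  have h2 : Algebra.EssFiniteType k E := IntermediateField.fg_top_iff.1 h1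
  exact G1M.fin_range k E φ

end Pool.Agent.Lib.MP_16285c_agY
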