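import Pool.Agent.Lib.MP_16285c_agY.Spec
import Pool.Agent.Lib.MP_16285c_agX.Gro.GroX
import Pool.Agent.Lib.MP_16285c_agX.Top.InvDX
import Pool.Agent.Lib.MP_16285c_agS.Top.Fin

/-!
# The growth hypothesis of the model from the dynamical degrees
-/

set_option autoImplicit false

namespace Pool.Agent.Lib.MP_16285c_agY

open Pool.Agent.Lib.MP_16285c_ag Pool.Agent.Lib.MP_16285c_agN Pool.Agent.Lib.MP_16285c_agX
open Pool.Agent.Lib.MP_16285c_agS (toF)

open Pool.Agent.Lib.MP_16285c_agX.GroXM in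
theorem tGroY (hRsR : StmtRsR) (hDeg : StmtDegrPX) (hBet : StmtBet) (hCmp : StmtCmpB)
    (hDesc : StmtDescX) (hTp : StmtTpX) (hY : StmtYX) (hHat : StmtHat) (hG1 : StmtG1)
    (hReal : StmtReal2) : StmtGroY := by
  classical
  intro k _ _ n l P E' _ _ ξ φ f m y' c Y d Z hP hmon hgen hinv hfv hc hY' hd hZ hlam
  set S : Finset k := Pool.Agent.Lib.MP_16285c_agS.TopFinM.cf c ∪
    ((Finset.univ.biUnion fun i => Pool.Agent.Lib.MP_16285c_agS.TopFinM.cf (Y i)) ∪
      (Pool.Agent.Lib.MP_16285c_agS.TopFinM.cf d ∪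
        Finset.univ.biUnion fun j => Pool.Agent.Lib.MP_16285c_agS.TopFinM.cf (Z j))) with hSdef
  refine ⟨S, ?_⟩
  intro K _ _ _ PK eK fK _ hS hPK heK hfK hinvK σK hOf M hM E _ _ _ _ _ ρ hRst
  have hSc : Pool.Agent.Lib.MP_16285c_agS.TopFinM.cf c ⊆ S := fun s hs => by
    rw [hSdef, Finset.mem_union]
    exact Or.inl hs
  have hSY : ∀ i, Pool.Agent.Lib.MP_16285c_agS.TopFinM.cf (Y i) ⊆ S := fun i s hs => by
    rw [hSdef, Finset.mem_union, Finset.mem_union]
    exact Or.inr (Or.inl (Finset.mem_biUnion.2 ⟨i, Finset.mem_univ _, hs⟩))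
  have hSd : Pool.Agent.Lib.MP_16285c_agS.TopFinM.cf d ⊆ S := fun s hs => by
    rw [hSdef, Finset.mem_union, Finset.mem_union, Finset.mem_union]
    exact Or.inr (Or.inr (Or.inl hs))
  have hSZ : ∀ j, Pool.Agent.Lib.MP_16285c_agS.TopFinM.cf (Z j) ⊆ S := fun j s hs => by
    rw [hSdef, Finset.mem_union, Finset.mem_union, Finset.mem_union]
    exact Or.inr (Or.inr (Or.inr (Finset.mem_biUnion.2 ⟨j, Finset.mem_univ _, hs⟩)))
  obtain ⟨cK, hcK⟩ := desc S hS c hSc
  choose YK hYK using fun i => desc S hS (Y i) (hSY i)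
  obtain ⟨dK, hdK⟩ := desc S hS d hSd
  choose ZK hZK using fun j => desc S hS (Z j) (hSZ j)
  let _ : Algebra K E' := ((algebraMap k E').comp (algebraMap K k)).toAlgebra
  have hst : IsScalarTower K k E' := IsScalarTower.of_algebraMap_eq fun _ => rfl
  have hmonK : MonZ PK := (tInvDX.2 K k n PK).1 (by rw [hPK]; exact hmon)
  have hgenK : GenN (MvPolynomial.map (algebraMap K k) PK) ξ := by rw [hPK]; exact hgen
  obtain ⟨β, hβ, hdis⟩ := hBet K k n PK hmonK E E' ξ hgenK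
  have hden : ∀ i, MvPolynomial.aeval ξ ((fK.map (algebraMap K k)).den i) ≠ 0 := by
    intro i h0
    rw [hfK] at h0
    exact hinv.1 i ((hgen.ker _).1 h0)
  have hfvK : ∀ i, fvn (fK.map (algebraMap K k)) ξ i = φ (ξ i) := by
    intro i
    rw [hfK]
    exact hfv i
  have hcmp := hCmp K k n PK E E' ξ β hβ fK σK φ M ρ hOf hden hfvK hRst
  have hdeg : dK.totalDegree = d.totalDegree := by
    rw [← hdK]
    unfold MvPolynomial.totalDegree
    rw [MvPolynomial.support_map_of_injective _ (algebraMap K k).injective]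
  have heK' : eK = cK * hatX cK YK dK.totalDegree dK := by
    apply MvPolynomial.map_injective _ (algebraMap K k).injective
    rw [heK, map_mul, hHat.2.1 K k (n + 1) m cK YK dK.totalDegree dK, hcK, hdK, hdeg]
    simp only [hYK]
  obtain ⟨y, hyβ, hytop, hyZ, hyp⟩ := hY K k n PK E E' ξ β hβ m y' cK YK dK ZK
    (by rw [hcK]; exact hc) (fun i => by rw [hcK, hYK]; exact hY' i) (by rw [hdK]; exact hd)
    (fun j => by rw [hdK, hZK]; exact hZ j)
  have hytop' : IntermediateField.adjoin k (Set.range fun i => β (y i)) = ⊤ := by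
    have e : (fun i => β (y i)) = y' := funext hyβ
    rw [e, eq_top_iff, ← hgen.top, IntermediateField.adjoin_le_iff]
    rintro _ ⟨j, rfl⟩
    have h1 : ∀ A : MvPolynomial (Fin m) k, MvPolynomial.aeval y' A ∈
        IntermediateField.adjoin k (Set.range y') := by
      intro A
      have h2 : MvPolynomial.aeval y' A ∈ Algebra.adjoin k (Set.range y') := by
        rw [Algebra.adjoin_range_eq_range_aeval]
        exact ⟨A, rfl⟩
      exact IntermediateField.algebra_adjoin_le_adjoin k _ h2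
    have h3 : ξ j = MvPolynomial.aeval y' (Z j) / MvPolynomial.aeval y' d :=
      eq_div_of_mul_eq hd (hZ j)
    rw [SetLike.mem_coe, h3]
    exact div_mem (h1 _) (h1 _)
  have hfinρ : Module.Finite ρ.fieldRange E := hG1.1 K (n + 1) (Ideal.span {PK}) E ρ
  have hT : Module.finrank φ.fieldRange E' ^ M ≤ Module.finrank ρ.fieldRange E := by
    rw [← hG1.2.1 k E' φ M]
    exact hTp K k E E' β ρ (φ ^ M) hcmp hfinρ m y hytop'
  intro 𝔭 _ hP𝔭 hPz he𝔭 hr1 hr2 L _ _ _ _ _ ρb hRstb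
  by_contra hcon
  push Not at hcon
  rw [heK'] at he𝔭
  obtain ⟨u, hutop, huR, hud⟩ := hyp 𝔭 hP𝔭 he𝔭 L
  obtain ⟨C, hC⟩ := hDeg K n PK 𝔭 hmonK hP𝔭 hPz E L m y u hytop hutop huR dK
    (fun j => ZK j.succ) hud (fun j => hyZ j.succ)
  have hle : Ideal.span {PK} ≤ 𝔭 := by
    rw [Ideal.span_le, Set.singleton_subset_iff]
    exact hP𝔭
  obtain ⟨t, ht⟩ := hReal (fun t => degrX k n (rk 𝔭) y' (fun i => (φ ^ t) (y' i)))
    (Module.finrank φ.fieldRange E') (hlam (rk 𝔭) hr1 hr2) M C hM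
  have h1 := hC (ρ ^ t) (ρb ^ t) (hRsR K (n + 1) (Ideal.span {PK}) 𝔭 hle E L (σK ^ M) ρ ρb hRst
    hRstb t)
  rw [hG1.2.1 K L ρb t] at h1
  have h2 : degrX K n (rk 𝔭) y (fun i => (ρ ^ t) (y i)) ≤
      degrX k n (rk 𝔭) y' (fun i => (φ ^ (M * t)) (y' i)) := by
    have h3 := hDesc K k E E' β hdis m y (fun i => (ρ ^ t) (y i)) hytop hytop' n (rk 𝔭)
    have e1 : (fun i => β (y i)) = y' := funext hyβ
    have e2 : (fun i => β ((ρ ^ t) (y i))) = fun i => (φ ^ (M * t)) (y' i) := by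
      funext i
      rw [pow_mul, pow_it, pow_it, ← hyβ i]
      exact pow_comm β (fun x => ρ x) (fun x => (φ ^ M) x) hcmp t (y i)
    rw [e1, e2] at h3
    exact h3
  have h5 : ((Module.finrank φ.fieldRange E' : ℕ) : ENNReal) ^ (M * t) ≤
      ((Module.finrank ρb.fieldRange L ^ t : ℕ) : ENNReal) := by
    rw [pow_mul]
    exact_mod_cast Nat.pow_le_pow_left (hT.trans hcon) t
  have h6 : (C : ENNReal) * degrX K n (rk 𝔭) y (fun i => (ρ ^ t) (y i)) ≤
      C * degrX k n (rk 𝔭) y' (fun i => (φ ^ (M * t)) (y' i)) := mul_le_mul_right h2 _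
  exact absurd (h5.trans (h1.trans h6)) (not_le.mpr ht)

end Pool.Agent.Lib.MP_16285c_agY
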