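import Pool.Agent.Lib.MP_16285c_agY.Spec

/-!
# Project ZDT: the model of one level (task 26549, helper12)
-/

set_option autoImplicit false

namespace Pool.Agent.Lib.MP_16285c_agY

open Pool.Agent.Lib.MP_16285c_ag Pool.Agent.Lib.MP_16285c_agN Pool.Agent.Lib.MP_16285c_agX

theorem tLvD (hPrim : StmtPrimY) (hAmb : StmtAmbX) (hNoInv : StmtNoInvX) (hCmn : StmtCmn)
    (hGro : StmtGroY) (hHat : StmtHat) : StmtLvD := by
  intro k _ _ _ E _ _ n m y φ x hy hx hφ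
  obtain ⟨P, ξ, hP, hM, hg, hξx⟩ := hPrim k E n m y hy x hx
  obtain ⟨f, hf, hfφ⟩ := hAmb k E n P ξ φ hP hM hg
  have hno : NoIX f P := hNoInv k E n P f ξ φ hg hf hfφ hφ
  refine ⟨P, ξ, f, hP, hM, hg, hξx, hf, hfφ, hno, ?_⟩
  intro l hl
  obtain ⟨c, Y, hc, hY⟩ := hCmn k E (n + 1) m ξ y hg.top
  obtain ⟨d, Z, hd, hZ⟩ := hCmn k E m (n + 1) y ξ hy
  refine ⟨c * hatX c Y d.totalDegree d, ?_,
    hGro k n l P E ξ φ f m y c Y d Z hP hM hg hf hfφ hc hY hd hZ hl⟩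
  have h1 := hHat.1 k (Pl (n + 1) k) E m c Y d.totalDegree d le_rfl (MvPolynomial.aeval ξ) y hY
  intro hdvd
  have h2 := (hg.ker _).2 hdvd
  rw [map_mul, h1] at h2
  exact mul_ne_zero hc (mul_ne_zero (pow_ne_zero _ hc) hd) h2

end Pool.Agent.Lib.MP_16285c_agY
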