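import Pool.Agent.Lib.MP_16285c_agY.Spec

/-!
# The level condition from the level below (LvG, helper40)
-/

set_option autoImplicit false

namespace Pool.Agent.Lib.MP_16285c_agY

open Pool.Agent.Lib.MP_16285c_ag Pool.Agent.Lib.MP_16285c_agN Pool.Agent.Lib.MP_16285c_agX

theorem tLvG (hMod : StmtModY) (hB : StmtGrBB) : StmtLvG := by
  intro k _ _ _ n l m₀ hn hl P e f h1 h2 h3 h4 h5 h6 E' E₀ _ _ _ _ ε φ φ₀ hε ξ hξ hφ x₀ y₀ hy hx
    hx' hT
  refine hMod k n l P e f hn hl h1 h2 h3 h4 h5 h6 fun hl1 hl2 => ?_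
  refine hB k n l m₀ hl P f h1 h2 h3 E' E₀ ε φ φ₀ hε ξ hξ hφ (Fin.append x₀ y₀) ?_ ?_ ?_
    (hT hl1 hl2)
  · rw [eq_top_iff, ← hy]
    refine IntermediateField.adjoin.mono k (Set.range y₀) (Set.range (Fin.append x₀ y₀)) ?_
    rintro _ ⟨i, rfl⟩
    exact ⟨Fin.natAdd l i, Fin.append_right _ _ _⟩
  · intro i
    rw [Fin.append_left]
    exact hx i
  · simpa only [Fin.append_left] using hx'

end Pool.Agent.Lib.MP_16285c_agY
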