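import Pool.Agent.Lib.MP_16285c_agY.Spec
import Pool.Agent.Lib.MP_16285c_agX.Top.FinX

/-!
# Towers: one level over `k` (Lvl)
-/

set_option autoImplicit false

namespace Pool.Agent.Lib.MP_16285c_agY

open Pool.Agent.Lib.MP_16285c_ag Pool.Agent.Lib.MP_16285c_agN Pool.Agent.Lib.MP_16285c_agX
open Pool.Agent.Lib.MP_16285c_agS (toF vanK StmtInvD StmtNoPowE StmtPresK StmtRkK StmtIrrK StmtPrimS StmtLowS StmtConjS StmtDescS StmtDom StmtUni)

namespace YLvlM

open FinXM

theorem desc_K {k : Type} [Field k] {n : ℕ} (K : Subfield k) (G : Pl n k) (h : ∀ s ∈ cf G, s ∈ K) :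
    ∃ G₀ : Pl n K, MvPolynomial.map (algebraMap K k) G₀ = G := by
  classical
  apply desc_poly
  intro m hm
  have h2 : MvPolynomial.coeff m G ∈ K := h _ (by
    unfold cf
    exact Finset.mem_image_of_mem _ hm)
  exact ⟨⟨_, h2⟩, rfl⟩

end YLvlM

open FinXM YLvlM in
theorem tLvl (hDom : StmtDom) (hPresX : StmtPresX) (hRes : StmtResF) (hInvD : StmtInvD)
    (hInvDX : StmtInvDX) (hCore : StmtCoreY) (hConj : StmtConjS) (hDescS : StmtDescS) : StmtLvl := by
  classical
  intro k _ _ _ n l P f hn hP hmon hinv hgr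
  obtain ⟨hden, hjac, E₀, N₀, hE₀, hEN⟩ := id hinv
  obtain ⟨S₁, hS₁⟩ := hgr
  refine ⟨cf P ∪ (cf E₀ ∪ (cf N₀ ∪ ((Finset.univ.biUnion fun i : Fin (n + 1) =>
    cf (f.num i) ∪ cf (f.den i)) ∪ S₁))), ?_⟩
  intro K hSK M hM
  have hSP : ∀ s ∈ cf P, s ∈ K := fun s hs => hSK s (by
    rw [Finset.mem_union]
    exact Or.inl hs)
  have hSE : ∀ s ∈ cf E₀, s ∈ K := fun s hs => hSK s (by
    rw [Finset.mem_union, Finset.mem_union]
    exact Or.inr (Or.inl hs))
  have hSN : ∀ s ∈ cf N₀, s ∈ K := fun s hs => hSK s (by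
    rw [Finset.mem_union, Finset.mem_union, Finset.mem_union]
    exact Or.inr (Or.inr (Or.inl hs)))
  have hSnum : ∀ i, ∀ s ∈ cf (f.num i), s ∈ K := fun i s hs => hSK s (by
    rw [Finset.mem_union, Finset.mem_union, Finset.mem_union, Finset.mem_union]
    refine Or.inr (Or.inr (Or.inr (Or.inl ?_)))
    exact Finset.mem_biUnion.2 ⟨i, Finset.mem_univ _, Finset.mem_union_left _ hs⟩)
  have hSden : ∀ i, ∀ s ∈ cf (f.den i), s ∈ K := fun i s hs => hSK s (by
    rw [Finset.mem_union, Finset.mem_union, Finset.mem_union, Finset.mem_union]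
    refine Or.inr (Or.inr (Or.inr (Or.inl ?_)))
    exact Finset.mem_biUnion.2 ⟨i, Finset.mem_univ _, Finset.mem_union_right _ hs⟩)
  have hSS₁ : ∀ s ∈ S₁, s ∈ K := fun s hs => hSK s (by
    rw [Finset.mem_union, Finset.mem_union, Finset.mem_union, Finset.mem_union]
    exact Or.inr (Or.inr (Or.inr (Or.inr hs))))
  obtain ⟨P₀, hP₀⟩ := desc_K K P hSP
  obtain ⟨E₁, hE₁⟩ := desc_K K E₀ hSE
  obtain ⟨N₁, hN₁⟩ := desc_K K N₀ hSN
  obtain ⟨f₀, hf₀⟩ := desc_rm (K := K) f (fun i => desc_K K _ (hSnum i))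
    (fun i => desc_K K _ (hSden i))
  have hirr₀ : Irreducible P₀ := hInvD.2.1 K k (n + 1) P₀ (by rw [hP₀]; exact hP)
  have hmon₀ : MonZ P₀ := (hInvDX.2 K k n P₀).1 (by rw [hP₀]; exact hmon)
  have hinv₀ : InvX f₀ P₀ := by
    apply hInvDX.1 K k n P₀ E₁ N₁ f₀
    · intro i
      rw [hP₀, hf₀]
      exact hden i
    · rw [hP₀, hf₀]
      exact hjac
    · rw [hP₀, hE₁]
      exact hE₀
    · rw [hP₀, hN₁, hE₁, hf₀]
      exact hEN
  obtain ⟨σ₀, hσ₀⟩ := hDom K (n + 1) f₀ (fun i h0 => hinv₀.1 i (by rw [h0]; exact dvd_zero _))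
    (fun h0 => hinv₀.2.1 (by rw [h0]; exact dvd_zero _))
  have hpr₀ := hPresX K n P₀ f₀ σ₀ hirr₀ hσ₀ hinv₀
  have hprime : (Ideal.span {P₀}).IsPrime := prime_span hirr₀
  have hprM : Pres (σ₀ ^ M) (Ideal.span {P₀}) := pres_pow σ₀ _ hpr₀ _
  obtain ⟨ρ, hρ⟩ := hRes (n + 1) K (σ₀ ^ M) (Ideal.span {P₀}) hprime hprM
    (FractionRing (CR (Ideal.span {P₀})))
  obtain ⟨hid, e', he', hfull⟩ := hS₁ K P₀ f₀
    (fun s hs => ⟨⟨s, hSS₁ s hs⟩, rfl⟩) hP₀ hf₀ hirr₀ hmon₀ hinv₀ σ₀ hσ₀
    M hM (FractionRing (CR (Ideal.span {P₀}))) ρ hρ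
  obtain ⟨H, G, hHm, hHi, hG, hcore⟩ := hCore K n l P₀ f₀ σ₀ M hn hirr₀ hmon₀ hσ₀ hpr₀ hM
    (FractionRing (CR (Ideal.span {P₀}))) ρ hρ hid e' he' hfull
  refine ⟨H, G, hHm, hHi, hG, ?_⟩
  intro t ht1 ht2 x x' N N' p p' hxo hxo' hxt hxt' hxB hxB' hp hp' hne hNN hxCl hxCl' hind
  obtain ⟨hirrt, hcore'⟩ := hcore t ht1 ht2
  set z : k := x 0 0 with hz0
  set z' : k := x' 0 0 with hz0'
  have hx0 : x 0 = Fin.cons z fun i => algebraMap K k (t i) := by
    funext i
    refine Fin.cases rfl (fun i => ?_) i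
    exact hxt i
  have hx0' : x' 0 = Fin.cons z' fun i => algebraMap K k (t i) := by
    funext i
    refine Fin.cases rfl (fun i => ?_) i
    exact hxt' i
  have hz : MvPolynomial.eval (Fin.cons z fun i => algebraMap K k (t i) : Fin (n + 1) → k) P = 0 := by
    rw [← hx0]
    exact (hxB 0).1
  have hz' : MvPolynomial.eval (Fin.cons z' fun i => algebraMap K k (t i) : Fin (n + 1) → k) P = 0 := by
    rw [← hx0']
    exact (hxB' 0).1
  -- the field generated by the root
  set q : Polynomial K := (MvPolynomial.finSuccEquiv K n P₀).map (MvPolynomial.eval t) with hq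
  have : Fact (Irreducible q) := ⟨hirrt⟩
  have : Module.Finite K (AdjoinRoot q) := (AdjoinRoot.powerBasis hirrt.ne_zero).finite
  have hzq : Polynomial.eval₂ ((Algebra.ofId K k : K →ₐ[K] k) : K →+* k) z q = 0 := by
    have e := eval_cons (k := k) P₀ t z
    rw [hP₀] at e
    exact e.symm.trans hz
  have hzq' : Polynomial.eval₂ ((Algebra.ofId K k : K →ₐ[K] k) : K →+* k) z' q = 0 := by
    have e := eval_cons (k := k) P₀ t z'
    rw [hP₀] at e
    exact e.symm.trans hz'
  set ι : AdjoinRoot q →ₐ[K] k := AdjoinRoot.liftAlgHom q (Algebra.ofId K k) z hzq with hι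
  set ι' : AdjoinRoot q →ₐ[K] k := AdjoinRoot.liftAlgHom q (Algebra.ofId K k) z' hzq' with hι'
  have hιr : ι (AdjoinRoot.root q) = z := AdjoinRoot.liftAlgHom_root _ _ _ _
  have hιr' : ι' (AdjoinRoot.root q) = z' := AdjoinRoot.liftAlgHom_root _ _ _ _
  obtain ⟨y, hy0, hyo, hyx⟩ := hConj.1 K (AdjoinRoot q) k ι (n + 1) f₀ x (pt t (AdjoinRoot.root q))
    (by rw [hf₀]; exact hxo) (by
      intro i
      rw [hx0]
      refine Fin.cases ?_ (fun i => ?_) i
      · exact hιr.symm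
      · exact (ι.commutes (t i)).symm)
  obtain ⟨y', hy0', hyo', hyx'⟩ := hConj.1 K (AdjoinRoot q) k ι' (n + 1) f₀ x'
    (pt t (AdjoinRoot.root q)) (by rw [hf₀]; exact hxo') (by
      intro i
      rw [hx0']
      refine Fin.cases ?_ (fun i => ?_) i
      · exact hιr'.symm
      · exact (ι'.commutes (t i)).symm)
  have hyy : y' = y := (f₀.map (algebraMap K (AdjoinRoot q))).orb_unique y' y hyo' hyo
    (hy0'.trans hy0.symm)
  rw [hyy] at hyx'
  have hCl : Pool.Agent.ZDO.ClN N p y := hConj.2 (AdjoinRoot q) k ι.toRingHom (n + 1) x y N p hyx hxCl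
  have hCl' : Pool.Agent.ZDO.ClN N' p' y :=
    hConj.2 (AdjoinRoot q) k ι'.toRingHom (n + 1) x' y N' p' hyx' hxCl'
  have hmm : (MvPolynomial.map (ι : AdjoinRoot q →+* k))
      (MvPolynomial.map (algebraMap K (AdjoinRoot q)) P₀) = P := by
    rw [MvPolynomial.map_map]
    have e : (ι : AdjoinRoot q →+* k).comp (algebraMap K (AdjoinRoot q)) = algebraMap K k :=
      ι.comp_algebraMap
    rw [e, hP₀]
  have hirr' : Irreducible (MvPolynomial.map (algebraMap K (AdjoinRoot q)) P₀) := by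
    let _ : Algebra (AdjoinRoot q) k := (ι : AdjoinRoot q →+* k).toAlgebra
    apply hInvD.2.1 (AdjoinRoot q) k (n + 1)
    have e : algebraMap (AdjoinRoot q) k = (ι : AdjoinRoot q →+* k) := rfl
    rw [e, hmm]
    exact hP
  have hev : ∀ (m : ℕ) (G : Pl (n + 1) K), MvPolynomial.eval (x m) (MvPolynomial.map (algebraMap K k) G) =
      ι (MvPolynomial.aeval (y m) G) := fun m G => eval_pt ι (y m) (x m) (hyx m) G
  have hjm : MvPolynomial.map (algebraMap K k) (jac f₀) = jac f := by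
    rw [← hf₀]
    exact (Pool.Agent.ZDO.map_Jc f₀ (algebraMap K k)).symm
  have hI : IndL l (vanK K y M) := by
    intro G' hVl hmem
    have h1 : ∀ r, MvPolynomial.eval (y (M * r))
        (MvPolynomial.map (algebraMap K (AdjoinRoot q)) (up K n G')) = 0 := fun r => hmem r
    have h2 : MvPolynomial.map (algebraMap K k) G' = 0 := by
      refine hind _ ?_ fun r => ?_
      · intro i hi
        rw [MvPolynomial.vars_map_of_injective _ (algebraMap K k).injective] at hi
        exact hVl i hi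
      · have h3 := hev (M * r) (up K n G')
        have h4 : (MvPolynomial.aeval (y (M * r)) (up K n G') : AdjoinRoot q) = 0 := by
          rw [MvPolynomial.aeval_def, ← MvPolynomial.eval_map]
          exact h1 r
        rw [h4, map_zero] at h3
        unfold MP_16285c_agX.up at h3
        rw [MvPolynomial.map_rename, MvPolynomial.eval_rename] at h3
        exact h3
    exact MvPolynomial.map_injective _ (algebraMap K k).injective (h2.trans (map_zero _).symm)
  have hvan := hcore' (AdjoinRoot q) (AdjoinRoot.root q)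
    (IntermediateField.adjoin_root_eq_top q) hirr' y N N' p p' hy0 hyo (fun m => by
      constructor
      · have e := hev m P₀
        rw [hP₀, (hxB m).1] at e
        exact (map_eq_zero_iff ι ι.injective).1 e.symm
      · intro h0
        have e := hev m (jac f₀)
        rw [h0, map_zero, hjm] at e
        exact (hxB m).2 e) hp hp' hne hNN hCl hCl' hI
  intro G' hG'
  have hfin := hDescS (AdjoinRoot q) k ι.toRingHom (n + 1)
    (MvPolynomial.map (algebraMap K (AdjoinRoot q)) P₀) y M hvan G' (fun s => by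
      have e : (fun i => ι.toRingHom (y (M * s) i)) = x (M * s) :=
        funext fun i => (hyx (M * s) i).symm
      rw [e]
      exact hG' _)
  have e2 : MvPolynomial.map ι.toRingHom (MvPolynomial.map (algebraMap K (AdjoinRoot q)) P₀) = P :=
    hmm
  rw [e2] at hfin
  exact hfin

end Pool.Agent.Lib.MP_16285c_agY
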