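import Pool.Agent.Lib.MP_16285c_agY.Spec
import Pool.Agent.Lib.MP_16285c_agX.Top.ModX

/-!
# Dense orbits for rational maps which preserve a tower of fibrations: the model of one level
-/

set_option autoImplicit false

namespace Pool.Agent.Lib.MP_16285c_agY

open Pool.Agent.Lib.MP_16285c_ag Pool.Agent.Lib.MP_16285c_agN Pool.Agent.Lib.MP_16285c_agX
open Pool.Agent.Lib.MP_16285c_agS (toF vanK StmtInvD StmtNoPowE StmtPresK StmtRkK StmtIrrK StmtPrimS StmtLowS StmtConjS StmtDescS StmtDom StmtUni)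

open Pool.Agent.Lib.MP_16285c_agX.ModXM in
theorem tModY (hCan : StmtCanX) (hDom : StmtDom) (hPresX : StmtPresX) (hRes : StmtResF)
    (h1 : StmtG1) (hNoE : StmtNoEX) (hNoPow : StmtNoPowE) (hNoDesc : StmtNoDescX)
    (hDesc : StmtDesc) (hRkL : StmtRkL) : StmtModY := by
  classical
  intro k _ _ _ n l P e f hn hl hP hmon hinv hno he hgr hB
  obtain ⟨S₀, hS₀⟩ := hgr
  obtain ⟨hden, hjac, E₀, N₀, hE₀, hEN⟩ := id hinv
  obtain ⟨σ, hOf⟩ := hDom k (n + 1) f (fun i h0 => hden i (by rw [h0]; exact dvd_zero _))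
    (fun h0 => hjac (by rw [h0]; exact dvd_zero _))
  have hpr := hPresX k n P f σ hP hOf hinv
  -- the set for the dimension `l`
  have hB' : ∃ S₁ : Finset k, ∀ (K : Type) [Field K] [CharZero K] [Algebra K k]
      (PK : Pl (n + 1) K) (fK : RM K (n + 1)), (∀ s ∈ S₁, s ∈ Set.range (algebraMap K k)) →
      MvPolynomial.map (algebraMap K k) PK = P → fK.map (algebraMap K k) = f →
      Irreducible PK → MonZ PK → InvX fK PK → ∀ σK : RF (n + 1) K →ₐ[K] RF (n + 1) K,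
      Of fK σK → ∀ M : ℕ, 1 ≤ M →
      ∀ (E : Type) [Field E] [Algebra (CR (Ideal.span {PK})) E]
        [IsFractionRing (CR (Ideal.span {PK})) E]
        [Algebra K E] [IsScalarTower K (CR (Ideal.span {PK})) E] (ρ : E →ₐ[K] E),
        Rst (σK ^ M) (Ideal.span {PK}) E ρ →
          ∃ e' : Pl (n + 1) K, ¬ PK ∣ e' ∧ (1 ≤ l → l + 2 ≤ n →
            NoFullB l PK e' (σK ^ M) (Module.finrank ρ.fieldRange E)) := by
    by_cases hc : 1 ≤ l ∧ l + 2 ≤ n
    · obtain ⟨S₁, hS₁⟩ := hB hc.1 hc.2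
      refine ⟨S₁, ?_⟩
      intro K _ _ _ PK fK hS hPK hfK hPKi hPKm hinvK σK hσK M hM E _ _ _ _ _ ρ hρ
      obtain ⟨e', h2, h3⟩ := hS₁ K PK fK hS hPK hfK hPKi hPKm hinvK σK hσK M hM E ρ hρ
      exact ⟨e', h2, fun _ _ => h3⟩
    · refine ⟨∅, ?_⟩
      intro K _ _ _ PK fK hS hPK hfK hPKi hPKm hinvK σK hσK M hM E _ _ _ _ _ ρ hρ
      refine ⟨1, ?_, fun h2 h3 => absurd ⟨h2, h3⟩ hc⟩
      intro h2
      exact hPKi.not_isUnit (isUnit_of_dvd_one h2)
  obtain ⟨S₁, hS₁⟩ := hB'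
  refine ⟨(cf e ∪ S₀) ∪ S₁, ?_⟩
  intro K _ _ _ PK fK hS hPK hfK hPKi hPKm hinvK σK hσK M hM E _ _ _ _ _ ρ hρ
  have hprime : (Ideal.span {PK}).IsPrime := prime_span hPKi
  have hnoM := noR_pow hP hno hOf hpr hRes h1 hNoE hNoPow M hM
  obtain ⟨eK, heK⟩ := desc_poly (K := K) e (fun m hm => hS _ (by
    rw [Finset.mem_union, Finset.mem_union]
    refine Or.inl (Or.inl ?_)
    unfold cf
    exact Finset.mem_image_of_mem _ hm))
  obtain ⟨e₁, he₁, hB₁⟩ := hS₁ K PK fK (fun s hs => hS s (Finset.mem_union_right _ hs)) hPK hfK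
    hPKi hPKm hinvK σK hσK M hM E ρ hρ
  have hcmp : Cmp σK σ := by
    obtain ⟨σ', hσ', hc'⟩ := hDesc.1 K k (n + 1) fK σ (by rw [hfK]; exact hOf)
    intro i
    have h3 : σ' (gen (n + 1) K i) = σK (gen (n + 1) K i) :=
      mul_right_cancel₀ (fr_ne_zero (hσK i).1) ((hσ' i).2.trans (hσK i).2.symm)
    rw [hc' i, h3]
  have hnoK : NoRX (σK ^ M) PK := hNoDesc K k n PK (σK ^ M) (σ ^ M) hPKm (cmp_pow hcmp M)
    (by rw [hPK]; exact hnoM)
  have hconst := (hNoE K n PK (σK ^ M) E ρ hρ).1 hnoK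
  refine ⟨?_, ?_⟩
  · by_contra hcon
    push Not at hcon
    obtain ⟨m, rfl⟩ : ∃ m, n = m + 1 := ⟨n - 1, by omega⟩
    obtain ⟨c, hc⟩ := hconst _ (hcon (algebraMap (CR (Ideal.span {PK})) E
      (cl (Ideal.span {PK}) (MvPolynomial.X (Fin.succ 0)))))
    have h2 : algebraMap (CR (Ideal.span {PK})) E (cl (Ideal.span {PK})
        (up K (m + 1) (MvPolynomial.X 0 - MvPolynomial.C c))) = 0 := by
      have h3 : up K (m + 1) (MvPolynomial.X 0 - MvPolynomial.C c) =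
          MvPolynomial.X (Fin.succ 0) - MvPolynomial.C c := by
        rw [map_sub]
        have h4 : up K (m + 1) (MvPolynomial.C c) = MvPolynomial.C c :=
          MvPolynomial.rename_C _ _
        have h5 : up K (m + 1) (MvPolynomial.X 0) = MvPolynomial.X (Fin.succ 0) :=
          MvPolynomial.rename_X _ _
        rw [h4, h5]
      have h7 : cl (Ideal.span {PK}) (MvPolynomial.X (Fin.succ 0) - MvPolynomial.C c) =
          cl (Ideal.span {PK}) (MvPolynomial.X (Fin.succ 0)) -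
            cl (Ideal.span {PK}) (MvPolynomial.C c) := map_sub (Ideal.Quotient.mk _) _ _
      have h6 : cl (Ideal.span {PK}) (MvPolynomial.C c) = algebraMap K (CR (Ideal.span {PK})) c := rfl
      rw [h3, h7, map_sub, hc, h6, ← IsScalarTower.algebraMap_apply, sub_self]
    have h3 := cl_eq_zero _ E _ h2
    rw [Ideal.mem_span_singleton] at h3
    refine not_dvd_up hPKi hPKm ?_ h3
    intro h4
    have h5 := congrArg (MvPolynomial.eval (fun _ => c + 1)) h4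
    rw [map_sub, MvPolynomial.eval_X, MvPolynomial.eval_C, map_zero] at h5
    have h6 : (1 : K) = 0 := by
      have h7 : c + 1 - c = 1 := by ring
      rw [← h7]
      exact h5
    exact one_ne_zero h6
  · have hΓ : ∃ Γ : Pl n K, Γ ≠ 0 ∧ (2 ≤ n → ∀ (𝔭 : Ideal (Pl (n + 1) K)) [𝔭.IsPrime], PK ∈ 𝔭 →
        MvPolynomial.pderiv 0 PK ∉ 𝔭 → rk 𝔭 + 1 = n →
        ∀ (L : Type) [Field L] [Algebra (CR 𝔭) L] [IsFractionRing (CR 𝔭) L] [Algebra K L]
          [IsScalarTower K (CR 𝔭) L] (ρb : L →ₐ[K] L), Rst (σK ^ M) 𝔭 L ρb →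
          Module.finrank ρ.fieldRange E ≤ Module.finrank ρb.fieldRange L → up K n Γ ∈ 𝔭) := by
      by_cases h2 : 2 ≤ n
      · obtain ⟨Γ, h3, h4⟩ := hCan n h2 K PK hPKm E (σK ^ M) ρ hρ hconst
        exact ⟨Γ, h3, fun _ => h4⟩
      · exact ⟨1, one_ne_zero, fun h3 => absurd h3 h2⟩
    obtain ⟨Γ, hΓ0, hΓ1⟩ := hΓ
    refine ⟨eK * up K n Γ * e₁, ?_, ?_⟩
    · intro hdvd
      have hpp := UniqueFactorizationMonoid.irreducible_iff_prime.1 hPKi
      rcases hpp.dvd_or_dvd hdvd with h2 | h2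
      · rcases hpp.dvd_or_dvd h2 with h2 | h2
        · apply he
          rw [← hPK, ← heK]
          exact map_dvd (MvPolynomial.map (algebraMap K k)) h2
        · exact not_dvd_up hPKi hPKm hΓ0 h2
      · exact he₁ h2
    · intro 𝔭 _ hP𝔭 hpd he' hind hrk1 hrk L _ _ _ _ _ ρb hρb
      have hlr : l ≤ rk 𝔭 := (hRkL K n l hl PK 𝔭 hPKm hP𝔭 hind).1
      have heK' : eK ∉ 𝔭 := fun h3 =>
        he' (Ideal.mul_mem_right _ _ (Ideal.mul_mem_right _ _ h3))
      have heΓ : up K n Γ ∉ 𝔭 := fun h3 =>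
        he' (Ideal.mul_mem_right _ _ (Ideal.mul_mem_left _ _ h3))
      have he₁' : e₁ ∉ 𝔭 := fun h3 => he' (Ideal.mul_mem_left _ _ h3)
      by_cases h2 : rk 𝔭 + 2 ≤ n
      · rcases Nat.lt_or_ge l (rk 𝔭) with h3 | h3
        · exact hS₀ K PK eK fK (fun s hs => hS s (Finset.mem_union_left _
            (Finset.mem_union_right _ hs))) hPK heK hfK hinvK σK hσK M hM E ρ hρ 𝔭 hP𝔭 hpd heK'
            h3 h2 L ρb hρb
        · have h4 : rk 𝔭 = l := by omega
          exact hB₁ (by omega) (by omega) 𝔭 hP𝔭 hpd he₁' hind h4 L ρb hρb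
      · by_contra hcon
        exact heΓ (hΓ1 (by omega) 𝔭 hP𝔭 hpd (by omega) L ρb hρb (not_lt.1 hcon))

end Pool.Agent.Lib.MP_16285c_agY
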