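import Pool.Agent.Lib.MP_16285c_agY.Spec

/-!
# The residue homomorphism of a subfield (`StmtResD`)

`F₀ = K(h a : a ∈ α)` has residues as the `u a`, `a ∈ α`, are algebraically independent, and
`K(h) = F₀[h]` as the `h i` are algebraic over `F₀`.
-/

set_option autoImplicit false

namespace Pool.Agent.Lib.MP_16285c_agY

open Pool.Agent.Lib.MP_16285c_ag Pool.Agent.Lib.MP_16285c_agN Pool.Agent.Lib.MP_16285c_agX

namespace YResDM

theorem rse_aeval {K : Type} [Field K] {n : ℕ} {𝔮 𝔭 : Ideal (Pl n K)} {E L : Type} [Field E]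
    [Algebra (CR 𝔮) E] [Field L] [Algebra (CR 𝔭) L] [Algebra K E] [Algebra K L]
    (hc : ∀ c : K, RsE 𝔮 𝔭 E L (algebraMap K E c) (algebraMap K L c))
    (ha : ∀ h h' u u', RsE 𝔮 𝔭 E L h u → RsE 𝔮 𝔭 E L h' u' → RsE 𝔮 𝔭 E L (h + h') (u + u'))
    (hm : ∀ h h' u u', RsE 𝔮 𝔭 E L h u → RsE 𝔮 𝔭 E L h' u' → RsE 𝔮 𝔭 E L (h * h') (u * u'))
    {ι : Type} {y : ι → E} {z : ι → L} (h : ∀ i, RsE 𝔮 𝔭 E L (y i) (z i)) (P : MvPolynomial ι K) :
    RsE 𝔮 𝔭 E L (MvPolynomial.aeval y P) (MvPolynomial.aeval z P) := by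
  induction P using MvPolynomial.induction_on with
  | C a =>
    rw [MvPolynomial.aeval_C, MvPolynomial.aeval_C]
    exact hc a
  | add p q hp hq =>
    rw [map_add, map_add]
    exact ha _ _ _ _ hp hq
  | mul_X p i hp =>
    rw [map_mul, map_mul, MvPolynomial.aeval_X, MvPolynomial.aeval_X]
    exact hm _ _ _ _ hp (h i)

end YResDM

open YResDM in
theorem tResD (hRs : StmtRsE) : StmtResD := by
  classical
  intro K _ n 𝔮 𝔭 _ _ hqp E _ _ _ _ _ L _ _ _ _ _ m h u hu α hα halg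
  obtain ⟨huq, _, hc, ha, hm, hi⟩ := hRs K n 𝔮 𝔭 hqp E L
  set F₀ : IntermediateField K E :=
    IntermediateField.adjoin K (Set.range fun a : α => h (a : Fin m)) with hF₀
  have h0 : RsE 𝔮 𝔭 E L 0 0 := by
    have := hc 0
    rwa [map_zero, map_zero] at this
  have h1 : ∀ c ∈ F₀, ∃ v, RsE 𝔮 𝔭 E L c v := by
    intro c hcF
    obtain ⟨P, Q, hPQ⟩ := (IntermediateField.mem_adjoin_range_iff K _ c).1 hcF
    by_cases hQ : Q = 0
    · rw [hPQ, hQ, map_zero, div_zero]
      exact ⟨0, h0⟩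
    · have hQ' : MvPolynomial.aeval (fun a : α => u (a : Fin m)) Q ≠ 0 := fun h' =>
        hQ (algebraicIndependent_iff.1 hα Q h')
      have hyz : ∀ a : α, RsE 𝔮 𝔭 E L (h (a : Fin m)) (u (a : Fin m)) := fun a => hu _
      rw [hPQ, div_eq_mul_inv]
      exact ⟨_, hm _ _ _ _ (rse_aeval hc ha hm hyz P)
        (hi _ _ (rse_aeval hc ha hm hyz Q) hQ').2⟩
  have h2 : ∀ c : IntermediateField.adjoin K (Set.range h), ∃ v, RsE 𝔮 𝔭 E L (c : E) v := by
    rintro ⟨c, hcD⟩
    have h3 : c ∈ IntermediateField.adjoin F₀ (Set.range h) := by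
      have h4 : IntermediateField.adjoin K (Set.range h) ≤
          (IntermediateField.adjoin F₀ (Set.range h)).restrictScalars K := by
        rw [IntermediateField.adjoin_le_iff]
        exact IntermediateField.subset_adjoin F₀ _
      exact h4 hcD
    have h4 : c ∈ Algebra.adjoin F₀ (Set.range h) := by
      rw [← IntermediateField.adjoin_toSubalgebra_of_isAlgebraic]
      · exact h3
      · rintro _ ⟨i, rfl⟩
        exact halg i
    change ∃ v, RsE 𝔮 𝔭 E L c v
    clear h3 hcD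
    induction h4 using Algebra.adjoin_induction with
    | mem x hx =>
      obtain ⟨i, rfl⟩ := hx
      exact ⟨u i, hu i⟩
    | algebraMap r => exact h1 _ r.2
    | add x y _ _ hx hy =>
      obtain ⟨v, hv⟩ := hx
      obtain ⟨w, hw⟩ := hy
      exact ⟨_, ha _ _ _ _ hv hw⟩
    | mul x y _ _ hx hy =>
      obtain ⟨v, hv⟩ := hx
      obtain ⟨w, hw⟩ := hy
      exact ⟨_, hm _ _ _ _ hv hw⟩
  choose f hf using h2
  refine ⟨{ toFun := f, map_one' := ?_, map_mul' := ?_, map_zero' := ?_, map_add' := ?_,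
            commutes' := ?_ }, fun c => hf c⟩
  · have h3 := hc 1
    rw [map_one, map_one] at h3
    exact huq _ _ _ (hf 1) h3
  · intro x y
    exact huq _ _ _ (hf (x * y)) (hm _ _ _ _ (hf x) (hf y))
  · exact huq _ _ _ (hf 0) h0
  · intro x y
    exact huq _ _ _ (hf (x + y)) (ha _ _ _ _ (hf x) (hf y))
  · intro r
    exact huq _ _ _ (hf _) (hc r)

end Pool.Agent.Lib.MP_16285c_agY
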