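import Pool.Agent.Lib.MP_16285c_agY.Spec

/-!
# (RkL) The rank of a prime dominating the base
-/

set_option autoImplicit false

namespace Pool.Agent.Lib.MP_16285c_agY

open Pool.Agent.Lib.MP_16285c_ag Pool.Agent.Lib.MP_16285c_agN Pool.Agent.Lib.MP_16285c_agX
open Pool.Agent.Lib.MP_16285c_agS (toF)

namespace YRkLM

theorem ind (K : Type) [Field K] (n l : ℕ) (h : l ≤ n) (𝔭 : Ideal (Pl (n + 1) K)) [𝔭.IsPrime]
    (hI : IndL l 𝔭) (L : Type) [Field L] [Algebra (CR 𝔭) L] [IsFractionRing (CR 𝔭) L]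
    [Algebra K L] [IsScalarTower K (CR 𝔭) L] :
    AlgebraicIndependent K
      (fun i : Fin l => toF 𝔭 L (MvPolynomial.X (Fin.castLE h i).succ)) := by
  have key : ∀ G : MvPolynomial (Fin l) K,
      MvPolynomial.aeval (fun i : Fin l => toF 𝔭 L (MvPolynomial.X (Fin.castLE h i).succ)) G =
        toF 𝔭 L (up K n (MvPolynomial.rename (Fin.castLE h) G)) := by
    intro G
    have h1 : MvPolynomial.aeval
        (fun i : Fin l => toF 𝔭 L (MvPolynomial.X (Fin.castLE h i).succ)) =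
        (((IsScalarTower.toAlgHom K (CR 𝔭) L).comp (Ideal.Quotient.mkₐ K 𝔭)).comp (up K n)).comp
          (MvPolynomial.rename (Fin.castLE h)) := by
      apply MvPolynomial.algHom_ext
      intro i
      have e : up K n (MvPolynomial.X (Fin.castLE h i)) = MvPolynomial.X (Fin.castLE h i).succ :=
        MvPolynomial.rename_X _ _
      rw [MvPolynomial.aeval_X, AlgHom.comp_apply, AlgHom.comp_apply, MvPolynomial.rename_X, e]
      rfl
    rw [h1]
    rfl
  rw [algebraicIndependent_iff]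
  intro G hG
  rw [key] at hG
  have h2 : up K n (MvPolynomial.rename (Fin.castLE h) G) ∈ 𝔭 := by
    rw [← Ideal.Quotient.eq_zero_iff_mem]
    exact (map_eq_zero_iff _ (IsFractionRing.injective (CR 𝔭) L)).1 hG
  have h3 := hI (MvPolynomial.rename (Fin.castLE h) G) (fun i hi => by
    classical
    have h4 := MvPolynomial.vars_rename (Fin.castLE h) G hi
    rw [Finset.mem_image] at h4
    obtain ⟨a, _, rfl⟩ := h4
    exact a.2) h2
  exact MvPolynomial.rename_injective _ (Fin.castLE_injective h) (by rw [h3, map_zero])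

theorem trd (hTB : StmtTB) (K : Type) [Field K] (n : ℕ) (P : Pl (n + 1) K)
    (𝔭 : Ideal (Pl (n + 1) K)) [𝔭.IsPrime] (hM : MonZ P) (hP : P ∈ 𝔭) (L : Type) [Field L]
    [Algebra (CR 𝔭) L] [IsFractionRing (CR 𝔭) L] [Algebra K L] [IsScalarTower K (CR 𝔭) L] :
    Algebra.trdeg K L = (rk 𝔭 : Cardinal) := by
  obtain ⟨h1, h2, h3, -⟩ := hTB
  obtain ⟨α, hα⟩ := h1 K L n (fun j : Fin n => toF 𝔭 L (MvPolynomial.X j.succ))
    (h3 K n P 𝔭 hM hP L)
  have h4 := h2 K (n + 1) 𝔭 L α _ hα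
  rw [← hα.cardinalMk_eq_trdeg, ← h4, Cardinal.mk_fintype]

end YRkLM

open YRkLM in
/-- (RkL) The rank of a prime dominating the base. -/
theorem tRkL (hTB : StmtTB) : StmtRkL := by
  intro K _ n l h P 𝔭 _ hM hP hI
  constructor
  · have h1 := (ind K n l h 𝔭 hI (FractionRing (CR 𝔭))).cardinalMk_le_trdeg
    rw [trd hTB K n P 𝔭 hM hP (FractionRing (CR 𝔭)), Cardinal.mk_fin] at h1
    exact_mod_cast h1
  · intro L _ _ _ _ _
    refine ⟨ind K n l h 𝔭 hI L, fun hrk => ?_⟩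
    refine (ind K n l h 𝔭 hI L).isTranscendenceBasis_of_trdeg_le_of_finite ?_
    rw [trd hTB K n P 𝔭 hM hP L, Cardinal.mk_fin, hrk]

end Pool.Agent.Lib.MP_16285c_agY
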