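import Pool.Agent.Lib.MP_16285c_agY.Spec
import Pool.Agent.Lib.MP_16285c_agX.Top.FinX
import Pool.Agent.Lib.MP_16285c_agX.Top.ModX

/-!
# Dense orbits for towers: several levels (`StmtTopY`)
-/

set_option autoImplicit false

namespace Pool.Agent.Lib.MP_16285c_agY

open Pool.Agent.Lib.MP_16285c_ag Pool.Agent.Lib.MP_16285c_agN Pool.Agent.Lib.MP_16285c_agX
open Pool.Agent.Lib.MP_16285c_agX.FinXM (fg_closure lies_add)
open Pool.Agent.Lib.MP_16285c_agX.ModXM (not_dvd_up)

namespace YTopYM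

/-- A polynomial in the first `a` variables. -/
theorem vl_lift {K : Type} [Field K] {n a : ℕ} (h : a ≤ n) (G : Pl n K) (hG : Vl a G) :
    ∃ G' : Pl a K, MvPolynomial.rename (Fin.castLE h) G' = G := by
  apply MvPolynomial.exists_rename_eq_of_vars_subset_range G (Fin.castLE h)
    (Fin.castLE_injective h)
  intro i hi
  exact ⟨⟨(i : ℕ), hG i hi⟩, Fin.ext rfl⟩

theorem vl_rename {K : Type} [Field K] {n a : ℕ} (h : a ≤ n) (G : Pl a K) :
    Vl a (MvPolynomial.rename (Fin.castLE h) G) := by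
  classical
  intro i hi
  obtain ⟨j, -, rfl⟩ := Finset.mem_image.1 (MvPolynomial.vars_rename (Fin.castLE h) G hi)
  exact j.2

theorem vl_zero {K : Type} [Field K] {n : ℕ} (G : Pl n K) (hG : Vl 0 G) (x : Fin n → K)
    (h0 : MvPolynomial.eval x G = 0) : G = 0 := by
  obtain ⟨G', rfl⟩ := vl_lift (Nat.zero_le n) G hG
  rw [MvPolynomial.eq_C_of_isEmpty G', MvPolynomial.rename_C, MvPolynomial.eval_C] at h0
  rw [MvPolynomial.eq_C_of_isEmpty G', h0, map_zero, map_zero]

theorem eval_upX {K : Type} [Field K] {n : ℕ} (x : Fin (n + 1) → K) (G : Pl n K) :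
    MvPolynomial.eval x (up K n G) = MvPolynomial.eval (fun i : Fin n => x i.succ) G := by
  unfold Pool.Agent.Lib.MP_16285c_agX.up
  rw [MvPolynomial.eval_rename]
  rfl

/-- The dimension of the base. -/
def lv (nn : ℕ → ℕ) : ℕ → ℕ
  | 0 => 0
  | j + 1 => nn j

end YTopYM

open YTopYM in
theorem tTopY (hBox : StmtBoxX) (hLift : StmtLiftC2) (hHit : StmtHitPt) (hLvl : StmtLvl)
    (hHils : StmtHils) (hExtV : StmtExtV) : StmtTopY := by
  classical
  intro k _ _ _ s nn P f hnn hmono hP hmon hinv hgr0 hgr htrf b hb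
  have hPp : Prime (P s) := UniqueFactorizationMonoid.irreducible_iff_prime.1 (hP s le_rfl)
  have hle' : ∀ d j : ℕ, j + d = s → nn j ≤ nn s := by
    intro d
    induction d with
    | zero => intro j hj; rw [← hj]; exact le_rfl
    | succ d ih =>
      intro j hj
      exact (hmono j (by omega)).trans (ih (j + 1) (by omega))
  have hle : ∀ j ≤ s, nn j ≤ nn s := fun j hj => hle' (s - j) j (by omega)
  have hlv : ∀ j ≤ s, lv nn j ≤ nn j := by
    intro j hj
    cases j with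
    | zero => exact Nat.zero_le _
    | succ j => exact hmono j (by omega)
  have hB : ∀ j : ℕ, ∃ B : Pl (nn s + 1) k, ¬ P s ∣ B ∧ (j < s → ∀ w : ℕ → Fin (nn s + 1) → k,
      (f s).Orb w → (∀ t, MvPolynomial.eval (w t) (P s) = 0 ∧ MvPolynomial.eval (w t) B ≠ 0) →
      ∃ x : ℕ → Fin (nn j + 1) → k, (f j).Orb x ∧
        (∀ t, MvPolynomial.eval (x t) (P j) = 0 ∧ MvPolynomial.eval (x t) (jac (f j)) ≠ 0 ∧
          ∀ (i : Fin (nn j)) (i' : Fin (nn s)), (i : ℕ) = i' → x t i.succ = w t i'.succ) ∧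
        ∀ N p : ℕ, Pool.Agent.ZDO.ClN N p w → Pool.Agent.ZDO.ClN N p x) := by
    intro j
    by_cases hj : j < s
    · obtain ⟨B, h1, h2⟩ := htrf j hj
      exact ⟨B, h1, fun _ => h2⟩
    · exact ⟨1, fun h => hPp.not_isUnit (isUnit_of_dvd_one h), fun h => absurd h hj⟩
  choose B hB1 hB2 using hB
  have hjs : ¬ P s ∣ jac (f s) := (hinv s le_rfl).2.1
  have hBt : ¬ P s ∣ b * jac (f s) * ∏ j ∈ Finset.range s, B j := by
    intro h
    rcases hPp.dvd_or_dvd h with h | h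
    · exact (hPp.dvd_or_dvd h).elim hb hjs
    · obtain ⟨j, -, hj⟩ := hPp.exists_mem_finset_dvd h
      exact hB1 j hj
  obtain ⟨V, p, a, N, hp, -, hch, hN, hr, hroot, hbox⟩ :=
    hBox k (nn s) (P s) (f s) (hP s le_rfl) (hmon s le_rfl) (hinv s le_rfl) _ hBt 0
  obtain ⟨V', p', a', N', hp', hpp', hch', hN', hr', hroot', hbox'⟩ :=
    hBox k (nn s) (P s) (f s) (hP s le_rfl) (hmon s le_rfl) (hinv s le_rfl) _ hBt p
  have hne : p ≠ p' := by omega
  have hM : 1 ≤ N * N' := Nat.mul_pos (by omega) (by omega)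
  obtain ⟨c, hcV, hcV'⟩ := hLift k (nn s) V V' p p' hp hp' hne hch hch' (fun i => a i.succ)
    (fun i => a' i.succ) (hr.imp fun r h => ⟨h.1, fun i => h.2 i.succ⟩)
    (hr'.imp fun r h => ⟨h.1, fun i => h.2 i.succ⟩)
  -- the levels
  have hgrj : ∀ j ≤ s, GrL (lv nn j) (P j) (f j) := by
    intro j hj
    cases j with
    | zero => exact hgr0
    | succ j => exact hgr j (by omega)
  have hS : ∀ j : Fin (s + 1), ∃ S : Finset k, ∀ K : Subfield k, (∀ s ∈ S, s ∈ K) → ∀ M : ℕ, 1 ≤ M →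
      ∃ (H : Polynomial (Pl (nn j) K)) (G : Pl (nn j) K), H.Monic ∧
        Irreducible (H.map (algebraMap (Pl (nn j) K) (RF (nn j) K))) ∧ G ≠ 0 ∧
        ∀ t : Fin (nn j) → K, Irreducible (H.map (MvPolynomial.eval t)) → MvPolynomial.eval t G ≠ 0 →
          ∀ (x x' : ℕ → Fin (nn j + 1) → k) (N N' p p' : ℕ), (f j).Orb x → (f j).Orb x' →
            (∀ i : Fin (nn j), x 0 i.succ = (t i : k)) → (∀ i : Fin (nn j), x' 0 i.succ = (t i : k)) →
            (∀ m, MvPolynomial.eval (x m) (P j) = 0 ∧ MvPolynomial.eval (x m) (jac (f j)) ≠ 0) →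
            (∀ m, MvPolynomial.eval (x' m) (P j) = 0 ∧ MvPolynomial.eval (x' m) (jac (f j)) ≠ 0) →
            p.Prime → p'.Prime → p ≠ p' → N * N' = M →
            Pool.Agent.ZDO.ClN N p x → Pool.Agent.ZDO.ClN N' p' x' →
            (∀ G : Pl (nn j) k, Vl (lv nn j) G →
              (∀ r, MvPolynomial.eval (fun i : Fin (nn j) => x (M * r) i.succ) G = 0) → G = 0) →
            ∀ G : Pl (nn j + 1) k, (∀ r, MvPolynomial.eval (x (M * r)) G = 0) → P j ∣ G := by
    intro j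
    have hj : (j : ℕ) ≤ s := by omega
    exact hLvl k (nn j) (lv nn j) (P j) (f j) (hnn j hj) (hP j hj) (hmon j hj) (hinv j hj) (hgrj j hj)
  choose S₁ hS₁ using hS
  -- the field of definition
  set S : Finset k := Finset.univ.image c ∪ Finset.univ.biUnion S₁ with hS
  set K : Subfield k := Subfield.closure (S : Set k) with hK
  have hSc : ∀ i, c i ∈ S := fun i => by
    rw [hS, Finset.mem_union]
    exact Or.inl (Finset.mem_image_of_mem _ (Finset.mem_univ _))
  have hSS : ∀ j, ∀ e ∈ S₁ j, e ∈ K := fun j e he => by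
    apply Subfield.subset_closure
    rw [hS, Finset.mem_coe, Finset.mem_union]
    exact Or.inr (Finset.mem_biUnion.2 ⟨j, Finset.mem_univ _, he⟩)
  set cK : Fin (nn s) → K := fun i => ⟨c i, Subfield.subset_closure (hSc i)⟩ with hcK
  have hcore := fun j => hS₁ j K (hSS j) (N * N') hM
  choose H G hHm hHi hG hcore using hcore
  have hj' : ∀ j : Fin (s + 1), (j : ℕ) ≤ s := fun j => by omega
  obtain ⟨H', G', hH'm, hH'i, hG', hH'⟩ := hHils K (nn s) (s + 1)
    (fun j => (H j).map ((MvPolynomial.rename (Fin.castLE (hle j (hj' j))) :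
      Pl (nn j) K →ₐ[K] Pl (nn s) K) : Pl (nn j) K →+* Pl (nn s) K))
    (fun j => (hHm j).map _) (fun j => hExtV K (nn j) (nn s) (hle j (hj' j)) (H j) (hHm j) (hHi j))
  have hGt : G' * ∏ j : Fin (s + 1), MvPolynomial.rename (Fin.castLE (hle j (hj' j))) (G j) ≠ 0 := by
    refine mul_ne_zero hG' (Finset.prod_ne_zero_iff.2 fun j _ => ?_)
    intro h0
    apply hG j
    apply MvPolynomial.rename_injective _ (Fin.castLE_injective (hle j (hj' j)))
    rw [h0, map_zero]
  obtain ⟨q, hq1, hq2⟩ := hHit K (fg_closure S) (nn s) H' _ hH'm hH'i hGt cK (p * p')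
    (Nat.mul_pos hp.pos hp'.pos)
  set t : Fin (nn s) → K := fun i => cK i + ((p * p' : ℕ) : K) * (q i : K) with ht
  rw [map_mul] at hq2
  have hirr : ∀ j : Fin (s + 1), Irreducible ((H j).map (MvPolynomial.eval
      (fun i => t (Fin.castLE (hle j (hj' j)) i)))) := by
    intro j
    have h1 := hH' t hq1 (left_ne_zero_of_mul hq2) j
    rw [Polynomial.map_map] at h1
    have e : (MvPolynomial.eval t).comp ((MvPolynomial.rename (Fin.castLE (hle j (hj' j))) :
        Pl (nn j) K →ₐ[K] Pl (nn s) K) : Pl (nn j) K →+* Pl (nn s) K) =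
        MvPolynomial.eval (fun i => t (Fin.castLE (hle j (hj' j)) i)) := by
      apply RingHom.ext
      intro A
      exact MvPolynomial.eval_rename _ _ _
    rw [e] at h1
    exact h1
  have hGj : ∀ j : Fin (s + 1), MvPolynomial.eval (fun i => t (Fin.castLE (hle j (hj' j)) i)) (G j) ≠ 0 := by
    intro j
    have h1 := right_ne_zero_of_mul hq2
    rw [map_prod] at h1
    have h2 := Finset.prod_ne_zero_iff.1 h1 j (Finset.mem_univ _)
    rw [MvPolynomial.eval_rename] at h2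
    exact h2
  set tk : Fin (nn s) → k := fun i => algebraMap K k (t i) with htk
  have htki : ∀ i, tk i = c i + ((p * p' : ℕ) : k) * ((q i : ℤ) : k) := by
    intro i
    rw [htk, ht]
    simp only [map_add, map_mul, map_natCast, map_intCast]
    rfl
  have hLV : ∀ i : Fin (nn s), Lies V (tk i) (a i.succ) := fun i => by
    rw [htki]
    exact lies_add V p hch _ _ (hcV i) _ (dvd_mul_right _ _) _
  have hLV' : ∀ i : Fin (nn s), Lies V' (tk i) (a' i.succ) := fun i => by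
    rw [htki]
    exact lies_add V' p' hch' _ _ (hcV' i) _ (dvd_mul_left _ _) _
  obtain ⟨z, hzV, hz⟩ := hroot tk hLV
  obtain ⟨z', hzV', hz'⟩ := hroot' tk hLV'
  obtain ⟨w, hx0, hxo, hxB, hxCl⟩ := hbox (Fin.cons z tk) (fun i => Fin.cases hzV hLV i) hz
  obtain ⟨w', hx0', hxo', hxB', hxCl'⟩ := hbox' (Fin.cons z' tk) (fun i => Fin.cases hzV' hLV' i) hz'
  have hwb : ∀ (v : ℕ → Fin (nn s + 1) → k), (∀ m, MvPolynomial.eval (v m) (P s) = 0 ∧
      MvPolynomial.eval (v m) (b * jac (f s) * ∏ j ∈ Finset.range s, B j) ≠ 0) → ∀ m,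
      MvPolynomial.eval (v m) b ≠ 0 ∧ MvPolynomial.eval (v m) (jac (f s)) ≠ 0 ∧
        ∀ j < s, MvPolynomial.eval (v m) (B j) ≠ 0 := by
    intro v hv m
    have h1 := (hv m).2
    rw [map_mul, map_mul] at h1
    refine ⟨left_ne_zero_of_mul (left_ne_zero_of_mul h1),
      right_ne_zero_of_mul (left_ne_zero_of_mul h1), fun j hj => ?_⟩
    have h2 := right_ne_zero_of_mul h1
    rw [map_prod] at h2
    exact Finset.prod_ne_zero_iff.1 h2 j (Finset.mem_range.2 hj)
  -- the orbits of the levels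
  have hX : ∀ (v : ℕ → Fin (nn s + 1) → k) (N p : ℕ), (f s).Orb v →
      (∀ m, MvPolynomial.eval (v m) (P s) = 0 ∧
        MvPolynomial.eval (v m) (b * jac (f s) * ∏ j ∈ Finset.range s, B j) ≠ 0) →
      Pool.Agent.ZDO.ClN N p v → ∀ j < s, ∃ x : ℕ → Fin (nn j + 1) → k, (f j).Orb x ∧
        (∀ t, MvPolynomial.eval (x t) (P j) = 0 ∧ MvPolynomial.eval (x t) (jac (f j)) ≠ 0 ∧
          ∀ (i : Fin (nn j)) (i' : Fin (nn s)), (i : ℕ) = i' → x t i.succ = v t i'.succ) ∧
        Pool.Agent.ZDO.ClN N p x := by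
    intro v N p hv hvB hvC j hj
    obtain ⟨x, h1, h2, h3⟩ := hB2 j hj v hv (fun m => ⟨(hvB m).1, (hwb v hvB m).2.2 j hj⟩)
    exact ⟨x, h1, h2, h3 N p hvC⟩
  have hw0 : ∀ (j : Fin (s + 1)) (x : ℕ → Fin (nn j + 1) → k) (v : ℕ → Fin (nn s + 1) → k) (ζ : k),
      v 0 = Fin.cons ζ tk →
      (∀ (i : Fin (nn j)) (i' : Fin (nn s)), (i : ℕ) = i' → x 0 i.succ = v 0 i'.succ) →
      ∀ i : Fin (nn j), x 0 i.succ = (t (Fin.castLE (hle j (hj' j)) i) : k) := by
    intro j x v ζ hv h i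
    rw [h i (Fin.castLE (hle j (hj' j)) i) rfl, hv, Fin.cons_succ]
    rfl
  have core : ∀ j : Fin (s + 1), (∀ G : Pl (nn s) k, Vl (lv nn j) G →
      (∀ r, MvPolynomial.eval (fun i : Fin (nn s) => w (N * N' * r) i.succ) G = 0) → G = 0) →
      ∀ (x x' : ℕ → Fin (nn j + 1) → k), (f j).Orb x → (f j).Orb x' →
        (∀ t, MvPolynomial.eval (x t) (P j) = 0 ∧ MvPolynomial.eval (x t) (jac (f j)) ≠ 0 ∧
          ∀ (i : Fin (nn j)) (i' : Fin (nn s)), (i : ℕ) = i' → x t i.succ = w t i'.succ) →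
        (∀ t, MvPolynomial.eval (x' t) (P j) = 0 ∧ MvPolynomial.eval (x' t) (jac (f j)) ≠ 0 ∧
          ∀ (i : Fin (nn j)) (i' : Fin (nn s)), (i : ℕ) = i' → x' t i.succ = w' t i'.succ) →
        Pool.Agent.ZDO.ClN N p x → Pool.Agent.ZDO.ClN N' p' x' →
        ∀ G : Pl (nn j + 1) k, (∀ r, MvPolynomial.eval (x (N * N' * r)) G = 0) → P j ∣ G := by
    intro j hA x x' hxo1 hxo2 hx1 hx2 hc1 hc2
    refine hcore j _ (hirr j) (hGj j) x x' N N' p p' hxo1 hxo2 (hw0 j x w z hx0 (hx1 0).2.2)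
      (hw0 j x' w' z' hx0' (hx2 0).2.2) (fun m => ⟨(hx1 m).1, (hx1 m).2.1⟩)
      (fun m => ⟨(hx2 m).1, (hx2 m).2.1⟩) hp hp' hne rfl hc1 hc2 ?_
    intro G₁ hV hv
    obtain ⟨G₂, rfl⟩ := vl_lift (hlv j (hj' j)) G₁ hV
    have h1 : MvPolynomial.rename (Fin.castLE ((hlv j (hj' j)).trans (hle j (hj' j)))) G₂ = 0 := by
      apply hA _ (vl_rename _ _)
      intro r
      rw [MvPolynomial.eval_rename]
      have h2 := hv r
      rw [MvPolynomial.eval_rename] at h2
      rw [← h2]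
      refine congrArg (fun u => MvPolynomial.eval u G₂) (funext fun i => ?_)
      exact ((hx1 (N * N' * r)).2.2 _ _ rfl).symm
    have h3 : G₂ = 0 := by
      apply MvPolynomial.rename_injective _
        (Fin.castLE_injective ((hlv j (hj' j)).trans (hle j (hj' j))))
      rw [h1, map_zero]
    rw [h3, map_zero]
  have hA : ∀ j ≤ s, ∀ G : Pl (nn s) k, Vl (lv nn j) G →
      (∀ r, MvPolynomial.eval (fun i : Fin (nn s) => w (N * N' * r) i.succ) G = 0) → G = 0 := by
    intro j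
    induction j with
    | zero =>
      intro _ G₁ hV hv
      exact vl_zero G₁ hV _ (hv 0)
    | succ j ih =>
      intro hj G₁ hV hv
      have hjs : j < s := by omega
      obtain ⟨x, hx1, hx2, hx3⟩ := hX w N p hxo hxB hxCl j hjs
      obtain ⟨x', hx1', hx2', hx3'⟩ := hX w' N' p' hxo' hxB' hxCl' j hjs
      have hD := core ⟨j, by omega⟩ (ih hjs.le) x x' hx1 hx1' hx2 hx2' hx3 hx3'
      obtain ⟨G₂, rfl⟩ := vl_lift (hle j hjs.le) G₁ hV
      have h1 : P j ∣ up k (nn j) G₂ := by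
        apply hD
        intro r
        have h2 := hv r
        rw [MvPolynomial.eval_rename] at h2
        rw [eval_upX, ← h2]
        refine congrArg (fun u => MvPolynomial.eval u G₂) (funext fun i => ?_)
        exact (hx2 (N * N' * r)).2.2 _ _ rfl
      have h3 : G₂ = 0 := by
        by_contra h4
        exact not_dvd_up (hP j hjs.le) (hmon j hjs.le) h4 h1
      rw [h3, map_zero]
  refine ⟨w, hxo, fun m => ⟨(hxB m).1, (hwb w hxB m).1⟩, ?_⟩
  intro G₁ hG₁
  by_contra hcon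
  push Not at hcon
  apply hG₁
  exact core (Fin.last s) (hA s le_rfl) w w' hxo hxo'
    (fun m => ⟨(hxB m).1, (hwb w hxB m).2.1, fun i i' h => by rw [Fin.ext h]⟩)
    (fun m => ⟨(hxB' m).1, (hwb w' hxB' m).2.1, fun i i' h => by rw [Fin.ext h]⟩)
    hxCl hxCl' G₁ (fun r => hcon _)

end Pool.Agent.Lib.MP_16285c_agY
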