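import Pool.Agent.Lib.MP_16285c_agY.Spec
import Pool.Agent.Lib.MP_16285c_agX.Gro.DescX

/-! # The topological degrees, the other inequality -/

set_option autoImplicit false

namespace Pool.Agent.Lib.MP_16285c_agY

open Pool.Agent.Lib.MP_16285c_ag Pool.Agent.Lib.MP_16285c_agN Pool.Agent.Lib.MP_16285c_agX

theorem tTpLe : StmtTpLe := by
  intro K k _ _ _ E E' _ _ _ _ _ _ β ρ φ hc _ hdj m y hy'
  have h1 : ρ.fieldRange = IntermediateField.adjoin K (Set.range ρ) := by
    apply le_antisymm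
    · rintro _ ⟨x, rfl⟩
      exact IntermediateField.subset_adjoin K _ ⟨x, rfl⟩
    · rw [IntermediateField.adjoin_le_iff]
      rintro _ ⟨x, rfl⟩
      exact ⟨x, rfl⟩
  have h2 : φ.fieldRange = IntermediateField.adjoin k (β '' Set.range ρ) := by
    apply le_antisymm
    · rw [AlgHom.fieldRange_eq_map, ← hy', IntermediateField.adjoin_map, IntermediateField.adjoin_le_iff]
      rintro _ ⟨_, ⟨i, rfl⟩, rfl⟩
      exact IntermediateField.subset_adjoin k _ ⟨ρ (y i), ⟨y i, rfl⟩, hc (y i)⟩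
    · rw [IntermediateField.adjoin_le_iff]
      rintro _ ⟨_, ⟨x, rfl⟩, rfl⟩
      exact ⟨β x, (hc x).symm⟩
  rw [h1, h2]
  exact GroDescXM.key β hdj y hy' _

end Pool.Agent.Lib.MP_16285c_agY
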