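import Pool.Agent.Lib.MP_16285c_agY.Spec

/-!
# Transfer of orbits to a lower level (Trf)
-/

set_option autoImplicit false

namespace Pool.Agent.Lib.MP_16285c_agY

open Pool.Agent.Lib.MP_16285c_ag Pool.Agent.Lib.MP_16285c_agN Pool.Agent.Lib.MP_16285c_agX
open MvPolynomial
open Pool.Agent.ZDO (Wd Jc dd nn)

namespace YTrfM

theorem aeval_self {k : Type} [Field k] {d : ℕ} (w : Fin d → k) (A : MvPolynomial (Fin d) k) :
    aeval w A = eval w A := by
  rw [← coe_aeval_eq_eval]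
  rfl

end YTrfM

open YTrfM in
/-- (Trf) Transfer of orbits to a lower level. -/
theorem tTrf (hHat : StmtHat) (hHc : StmtHcn) (hCmn : StmtCmn) : StmtTrf := by
  intro k _ _ _ n n' P f P' f' hn hP hP' hf hf' E E' _ _ _ _ ε φ φ' hεφ ξ ξ' hG hG' hfv hfv' hco
  obtain ⟨c, Y₀, hc0, hY₀⟩ := hCmn k E (n + 1) (n' + 1) ξ (fun i => ε (ξ' i)) hG.top
  obtain ⟨Y, hYdef⟩ : ∃ Y : Fin (n' + 1) → Pl (n + 1) k, Y = Fin.cons (Y₀ 0)
    (fun j : Fin n' => X (Fin.castLE hn j).succ * c) := ⟨_, rfl⟩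
  have hY : ∀ i, ε (ξ' i) * aeval ξ c = aeval ξ (Y i) := by
    intro i
    rw [hYdef]
    refine Fin.cases ?_ (fun j => ?_) i
    · rw [Fin.cons_zero]
      exact hY₀ 0
    · rw [Fin.cons_succ, map_mul, aeval_X, hco j (Fin.castLE hn j) rfl]
  have hPp := hP.prime
  have hεa : ∀ A : Pl (n' + 1) k, aeval (fun i => ε (ξ' i)) A = ε (aeval ξ' A) := by
    intro A
    have h := congrArg (fun g : Pl (n' + 1) k →ₐ[k] E => g A) (comp_aeval ξ' ε)
    exact h.symm
  have hatE : ∀ (A : Pl (n' + 1) k) (N : ℕ), A.totalDegree ≤ N →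
      aeval ξ (hatX c Y N A) = aeval ξ c ^ N * ε (aeval ξ' A) := by
    intro A N hN
    have h := hHat.1 k (Pl (n + 1) k) E (n' + 1) c Y N A hN (aeval ξ) (fun i => ε (ξ' i)) hY
    rw [hεa] at h
    exact h
  have hatNe : ∀ A : Pl (n' + 1) k, ¬ P' ∣ A → aeval ξ (hatX c Y A.totalDegree A) ≠ 0 := by
    intro A hA
    rw [hatE A _ le_rfl]
    refine mul_ne_zero (pow_ne_zero _ hc0) ?_
    rw [Ne, map_eq_zero]
    exact fun h => hA ((hG'.ker A).1 h)
  obtain ⟨B, hB⟩ : ∃ B : Pl (n + 1) k, B = c * hatX c Y (jac f').totalDegree (jac f') *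
    ∏ i, hatX c Y (f'.den i).totalDegree (f'.den i) := ⟨_, rfl⟩
  refine ⟨B, ?_, ?_⟩
  · intro hd
    have h1 := (hG.ker B).2 hd
    rw [hB, map_mul, map_mul, map_prod] at h1
    exact mul_ne_zero (mul_ne_zero hc0 (hatNe _ hf'.2.1))
      (Finset.prod_ne_zero_iff.2 fun i _ => hatNe _ (hf'.1 i)) h1
  intro w hw hwP
  have hwc : ∀ t, eval (w t) c ≠ 0 := by
    intro t h0
    apply (hwP t).2
    rw [hB, map_mul, map_mul, h0, zero_mul, zero_mul]
  obtain ⟨x, hx⟩ : ∃ x : ℕ → Fin (n' + 1) → k, x = fun t i => eval (w t) (Y i) / eval (w t) c :=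
    ⟨_, rfl⟩
  have hxY : ∀ t i, x t i * eval (w t) c = eval (w t) (Y i) := by
    intro t i
    rw [hx]
    exact div_mul_cancel₀ _ (hwc t)
  have hatw : ∀ (t : ℕ) (A : Pl (n' + 1) k) (N : ℕ), A.totalDegree ≤ N →
      eval (w t) (hatX c Y N A) = eval (w t) c ^ N * eval (x t) A := by
    intro t A N hN
    have h := hHat.1 k (Pl (n + 1) k) k (n' + 1) c Y N A hN (aeval (w t)) (x t) (fun i => by
      rw [aeval_self, aeval_self]
      exact hxY t i)
    rw [aeval_self, aeval_self, aeval_self] at h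
    exact h
  have hjac : ∀ t, eval (x t) (jac f') ≠ 0 := by
    intro t h0
    apply (hwP t).2
    rw [hB, map_mul, map_mul, hatw t _ _ le_rfl, h0, mul_zero, mul_zero, zero_mul]
  have hden : ∀ t i, eval (x t) (f'.den i) ≠ 0 := by
    intro t i h0
    apply (hwP t).2
    rw [hB, map_mul, map_prod, Finset.prod_eq_zero (Finset.mem_univ i), mul_zero]
    rw [hatw t _ _ le_rfl, h0, mul_zero]
  -- vanishing at `w t` from divisibility by `P`
  have hvan : ∀ (Q : Pl (n + 1) k), aeval ξ Q = 0 → ∀ t, eval (w t) Q = 0 := by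
    intro Q hQ t
    obtain ⟨Q', hQ'⟩ := (hG.ker Q).1 hQ
    rw [hQ', map_mul, (hwP t).1, zero_mul]
  have hdenξ : ∀ i, aeval ξ (f.den i) ≠ 0 := fun i h => hf.1 i ((hG.ker _).1 h)
  have hdenξ' : ∀ i, aeval ξ' (f'.den i) ≠ 0 := fun i h => hf'.1 i ((hG'.ker _).1 h)
  have hfv1 : fvn f ξ = fun i => φ (ξ i) := funext hfv
  have hφ : ∀ A : Pl (n + 1) k, aeval (fvn f ξ) A = φ (aeval ξ A) := by
    intro A
    have h := congrArg (fun g : Pl (n + 1) k →ₐ[k] E => g A) (comp_aeval ξ φ)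
    rw [hfv1]
    exact h.symm
  have hdenw : ∀ t i, aeval (w t) (f.den i) ≠ 0 := by
    intro t i
    rw [aeval_self]
    exact (hw t i).1
  have hdd : ∀ t, eval (w t) (dd f) ≠ 0 := by
    intro t
    rw [dd, map_prod]
    exact Finset.prod_ne_zero_iff.2 fun l _ => (hw t l).1
  have hnx : ∀ t, fvn f (w t) = w (t + 1) := by
    intro t
    funext i
    rw [fvn, aeval_self, aeval_self, div_eq_iff (hw t i).1]
    exact (hw t i).2.symm
  have e1 : ∀ (t : ℕ) (D : ℕ) (A : Pl (n + 1) k), A.totalDegree ≤ D →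
      eval (w t) (hcn f D A) = eval (w t) (dd f) ^ D * eval (w (t + 1)) A := by
    intro t D A hA
    have h := hHc.2.1 k k (n + 1) f D A (w t) hA (hdenw t)
    rw [hnx, aeval_self, aeval_self, aeval_self] at h
    exact h
  have e2 : ∀ (D : ℕ) (A : Pl (n + 1) k), A.totalDegree ≤ D →
      aeval ξ (hcn f D A) = aeval ξ (dd f) ^ D * φ (aeval ξ A) := by
    intro D A hA
    have h := hHc.2.1 k E (n + 1) f D A ξ hA hdenξ
    rw [hφ] at h
    exact h
  refine ⟨x, ?_, ?_, ?_⟩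
  · intro t i
    refine ⟨hden t i, ?_⟩
    obtain ⟨D, hD⟩ : ∃ D : ℕ, D = max (Y i).totalDegree c.totalDegree := ⟨_, rfl⟩
    obtain ⟨N, hN⟩ : ∃ N : ℕ, N = max (f'.num i).totalDegree (f'.den i).totalDegree := ⟨_, rfl⟩
    have hDY : (Y i).totalDegree ≤ D := hD ▸ le_max_left _ _
    have hDc : c.totalDegree ≤ D := hD ▸ le_max_right _ _
    have hNn : (f'.num i).totalDegree ≤ N := hN ▸ le_max_left _ _
    have hNd : (f'.den i).totalDegree ≤ N := hN ▸ le_max_right _ _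
    have hrel : φ (ε (ξ' i)) * ε (aeval ξ' (f'.den i)) = ε (aeval ξ' (f'.num i)) := by
      rw [← hεφ, ← hfv' i, fvn, map_div₀, div_mul_cancel₀]
      rw [Ne, map_eq_zero]
      exact hdenξ' i
    have hQ : aeval ξ (hcn f D (Y i) * hatX c Y N (f'.den i) - hcn f D c * hatX c Y N (f'.num i)) =
        0 := by
      rw [map_sub, map_mul, map_mul, e2 D _ hDY, e2 D _ hDc, hatE _ N hNd, hatE _ N hNn, ← hY i,
        map_mul, ← hrel]
      ring
    have h1 := hvan _ hQ t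
    rw [map_sub, map_mul, map_mul, e1 t D _ hDY, e1 t D _ hDc, hatw t _ N hNd, hatw t _ N hNn,
      ← hxY (t + 1) i] at h1
    have h2 : eval (w t) (dd f) ^ D * eval (w (t + 1)) c * eval (w t) c ^ N ≠ 0 :=
      mul_ne_zero (mul_ne_zero (pow_ne_zero _ (hdd t)) (hwc (t + 1))) (pow_ne_zero _ (hwc t))
    have h3 : (eval (w t) (dd f) ^ D * eval (w (t + 1)) c * eval (w t) c ^ N) *
        (x (t + 1) i * eval (x t) (f'.den i) - eval (x t) (f'.num i)) = 0 := by
      linear_combination h1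
    exact sub_eq_zero.1 ((mul_eq_zero.1 h3).resolve_left h2)
  · intro t
    refine ⟨?_, hjac t, ?_⟩
    · have h1 : aeval ξ (hatX c Y P'.totalDegree P') = 0 := by
        rw [hatE P' _ le_rfl, (hG'.ker P').2 dvd_rfl, map_zero, mul_zero]
      have h2 := hvan _ h1 t
      rw [hatw t _ _ le_rfl] at h2
      exact (mul_eq_zero.1 h2).resolve_left (pow_ne_zero _ (hwc t))
    · intro i i' hi
      have hi' : i' = Fin.castLE hn i := by
        ext
        exact hi.symm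
      rw [hx, hi']
      simp only
      rw [hYdef, Fin.cons_succ, map_mul, eval_X]
      exact mul_div_cancel_right₀ _ (hwc t)
  · intro N p hcl G j hGj
    have h1 : eval (w j) (hatX c Y G.totalDegree G) ≠ 0 := by
      rw [hatw j _ _ le_rfl]
      exact mul_ne_zero (pow_ne_zero _ (hwc j)) hGj
    obtain ⟨J, hJ⟩ := hcl _ j h1
    refine ⟨J, fun s h0 => hJ s ?_⟩
    rw [hatw _ _ _ le_rfl, h0, mul_zero]

end Pool.Agent.Lib.MP_16285c_agY
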