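import Pool.Agent.Lib.MP_16285c_agX.Fin.All
import Pool.Agent.Lib.MP_16285c_agY.Adp
import Pool.Agent.Lib.MP_16285c_agY.AlgK
import Pool.Agent.Lib.MP_16285c_agY.AlgR
import Pool.Agent.Lib.MP_16285c_agY.Cmn
import Pool.Agent.Lib.MP_16285c_agY.CoreY
import Pool.Agent.Lib.MP_16285c_agY.EqF
import Pool.Agent.Lib.MP_16285c_agY.ExtV
import Pool.Agent.Lib.MP_16285c_agY.Fn
import Pool.Agent.Lib.MP_16285c_agY.GrBB
import Pool.Agent.Lib.MP_16285c_agY.GroY
import Pool.Agent.Lib.MP_16285c_agY.Hils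
import Pool.Agent.Lib.MP_16285c_agY.LvD
import Pool.Agent.Lib.MP_16285c_agY.LvG
import Pool.Agent.Lib.MP_16285c_agY.Lvl
import Pool.Agent.Lib.MP_16285c_agY.ModY
import Pool.Agent.Lib.MP_16285c_agY.PrimY
import Pool.Agent.Lib.MP_16285c_agY.ResD
import Pool.Agent.Lib.MP_16285c_agY.RkL
import Pool.Agent.Lib.MP_16285c_agY.TopY
import Pool.Agent.Lib.MP_16285c_agY.TpLe
import Pool.Agent.Lib.MP_16285c_agY.Trf
import Pool.Agent.Lib.MP_16285c_agY.VarY

/-!
# Dense orbits for rational maps which preserve a tower of fibrations: the theorem (note 4979)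
-/

set_option autoImplicit false

namespace Pool.Agent.Lib.MP_16285c_agY

open Pool.Agent.Lib.MP_16285c_ag Pool.Agent.Lib.MP_16285c_agN Pool.Agent.Lib.MP_16285c_agX
open Pool.Agent.Lib.MP_16285c_agS (tUni tPresK tRkK tIrrK tPrimS tLowS tConj tDesc tDom tInvD tNoPow)

theorem cCoreY : StmtCoreY :=
  tCoreY stmtResF tG1 tRk2 (tRk3 tRk2) aTan (tPresK tUni) tRkK (tIrrK aIrr) tPrimS tNrmX
    (tMoveX tUni) cTowX tLowS

theorem cLvl : StmtLvl :=
  tLvl tDom (tPresX stmtJacQ) stmtResF tInvD tInvDX cCoreY tConj tDesc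

theorem aTopY : StmtTopY := tTopY aBoxX iLiftC2 aHitPt cLvl tHils tExtV

theorem aRkL : StmtRkL := tRkL tTB

theorem aModY : StmtModY :=
  tModY cCanX tDom (tPresX stmtJacQ) stmtResF tG1 tNoEX tNoPow tNoDescX iDesc aRkL

theorem aGroY : StmtGroY :=
  tGroY tRsR aDegrPX tBet tCmpB tDescX tTpX (tYX tRsE tHat) tHat tG1 tReal2

theorem aGrBB (hA : StmtGrBA) : StmtGrBB := tGrBB hA aRkL tRsE tRsR (tResD tRsE) tEqF

theorem aLvD : StmtLvD := tLvD tPrimY (tAmbX tJacX tHcn) (tNoInvX tHcn) tCmn aGroY tHat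

theorem aLvG (hA : StmtGrBA) : StmtLvG := tLvG aModY (aGrBB hA)

theorem aTrf : StmtTrf := tTrf tHat tHcn tCmn

theorem towers (hA : StmtGrBA) : StmtVarY :=
  tVarY aTopY tAdp aLvD (aLvG hA) aTrf (tPtsX tHat) tHcn tZeroX

end Pool.Agent.Lib.MP_16285c_agY
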