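import Pool.Agent.Lib.MP_16285c_agX.Top.Spec
import Pool.Agent.Lib.MP_16285c_agX.G.Spec

/-!
# Dense orbits for rational maps which preserve a tower of fibrations: definitions (note 4979)

A level of the tower is a model `P = 0`, `f` of dimension `n` (as in `Lib/MP_16285c_agX/Defs.lean`); the first `l` of the coordinates `X i.succ`, `i : Fin n`, are the coordinates of the base (`l` = dimension of the next lower level).
-/

set_option autoImplicit false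

namespace Pool.Agent.Lib.MP_16285c_agY

open Pool.Agent.Lib.MP_16285c_ag Pool.Agent.Lib.MP_16285c_agN Pool.Agent.Lib.MP_16285c_agX

section

variable {K : Type} [Field K] {n : ℕ}

/-- The polynomial `G` involves only the first `l` variables. -/
def Vl (l : ℕ) (G : Pl n K) : Prop := ∀ i ∈ G.vars, (i : ℕ) < l

/-- The first `l` of the coordinates `X i.succ` are algebraically independent modulo `𝔭`. -/
def IndL (l : ℕ) (𝔭 : Ideal (Pl (n + 1) K)) : Prop := ∀ G : Pl n K, Vl l G → up K n G ∈ 𝔭 → G = 0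

/-- No subvariety `V(𝔭)` of dimension `r`, `l < r ≤ n - 2`, of the hypersurface `P = 0` outside `e * pderiv 0 P = 0`, which is preserved by `σ`, has residue degree `≥ T` (for `l = 0`: `NoFullX`). -/
def NoFullY (l : ℕ) (P e : Pl (n + 1) K) (σ : RF (n + 1) K →ₐ[K] RF (n + 1) K) (T : ℕ) : Prop :=
  ∀ (𝔭 : Ideal (Pl (n + 1) K)) [𝔭.IsPrime], P ∈ 𝔭 → MvPolynomial.pderiv 0 P ∉ 𝔭 → e ∉ 𝔭 →
    l < rk 𝔭 → rk 𝔭 + 2 ≤ n →
    ∀ (L : Type) [Field L] [Algebra (CR 𝔭) L] [IsFractionRing (CR 𝔭) L] [Algebra K L]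
      [IsScalarTower K (CR 𝔭) L] (ρb : L →ₐ[K] L), Rst σ 𝔭 L ρb →
      Module.finrank ρb.fieldRange L < T

/-- No subvariety `V(𝔭)` of dimension `r = l` of the hypersurface `P = 0`, outside `e * pderiv 0 P = 0`, which dominates the base and is preserved by `σ`, has residue degree `≥ T`. -/
def NoFullB (l : ℕ) (P e : Pl (n + 1) K) (σ : RF (n + 1) K →ₐ[K] RF (n + 1) K) (T : ℕ) : Prop :=
  ∀ (𝔭 : Ideal (Pl (n + 1) K)) [𝔭.IsPrime], P ∈ 𝔭 → MvPolynomial.pderiv 0 P ∉ 𝔭 → e ∉ 𝔭 →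
    IndL l 𝔭 → rk 𝔭 = l →
    ∀ (L : Type) [Field L] [Algebra (CR 𝔭) L] [IsFractionRing (CR 𝔭) L] [Algebra K L]
      [IsScalarTower K (CR 𝔭) L] (ρb : L →ₐ[K] L), Rst σ 𝔭 L ρb →
      Module.finrank ρb.fieldRange L < T

/-- No subvariety `V(𝔭)` of dimension `r`, `1 ≤ r ≤ n - 1`, of the hypersurface `P = 0` outside `e * pderiv 0 P = 0`, which dominates the base and is preserved by `σ`, has residue degree `≥ T` (for `l = 0`: `NoFull1`). -/
def NoFullL (l : ℕ) (P e : Pl (n + 1) K) (σ : RF (n + 1) K →ₐ[K] RF (n + 1) K) (T : ℕ) : Prop :=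
  ∀ (𝔭 : Ideal (Pl (n + 1) K)) [𝔭.IsPrime], P ∈ 𝔭 → MvPolynomial.pderiv 0 P ∉ 𝔭 → e ∉ 𝔭 →
    IndL l 𝔭 → 1 ≤ rk 𝔭 → rk 𝔭 + 1 ≤ n →
    ∀ (L : Type) [Field L] [Algebra (CR 𝔭) L] [IsFractionRing (CR 𝔭) L] [Algebra K L]
      [IsScalarTower K (CR 𝔭) L] (ρb : L →ₐ[K] L), Rst σ 𝔭 L ρb →
      Module.finrank ρb.fieldRange L < T

/-- The level condition: `Gr1` with `NoFullL l` in place of `NoFull1`. -/
def GrL {k : Type} [Field k] (l : ℕ) (P : Pl (n + 1) k) (f : RM k (n + 1)) : Prop :=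
  ∃ S : Finset k, ∀ (K : Type) [Field K] [CharZero K] [Algebra K k] (PK : Pl (n + 1) K)
    (fK : RM K (n + 1)), (∀ s ∈ S, s ∈ Set.range (algebraMap K k)) →
    MvPolynomial.map (algebraMap K k) PK = P → fK.map (algebraMap K k) = f → Irreducible PK →
    MonZ PK → InvX fK PK → ∀ σK : RF (n + 1) K →ₐ[K] RF (n + 1) K, Of fK σK → ∀ M : ℕ, 1 ≤ M →
    ∀ (E : Type) [Field E] [Algebra (CR (Ideal.span {PK})) E] [IsFractionRing (CR (Ideal.span {PK})) E]
      [Algebra K E] [IsScalarTower K (CR (Ideal.span {PK})) E] (ρ : E →ₐ[K] E),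
      Rst (σK ^ M) (Ideal.span {PK}) E ρ → (∃ h : E, ρ h ≠ h) ∧
        ∃ e' : Pl (n + 1) K, ¬ PK ∣ e' ∧ NoFullL l PK e' (σK ^ M) (Module.finrank ρ.fieldRange E)

/-- The growth hypothesis for the dimensions `r`, `l < r ≤ n - 2`: `GrX` with `NoFullY l` in place of `NoFullX`. -/
def GrY {k : Type} [Field k] (l : ℕ) (P e : Pl (n + 1) k) (f : RM k (n + 1)) : Prop :=
  ∃ S₀ : Finset k, ∀ (K : Type) [Field K] [CharZero K] [Algebra K k] (PK eK : Pl (n + 1) K)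
    (fK : RM K (n + 1)) [(Ideal.span {PK}).IsPrime], (∀ s ∈ S₀, s ∈ Set.range (algebraMap K k)) →
    MvPolynomial.map (algebraMap K k) PK = P → MvPolynomial.map (algebraMap K k) eK = e →
    fK.map (algebraMap K k) = f → InvX fK PK →
    ∀ σK : RF (n + 1) K →ₐ[K] RF (n + 1) K, Of fK σK → ∀ M : ℕ, 1 ≤ M →
    ∀ (E : Type) [Field E] [Algebra (CR (Ideal.span {PK})) E] [IsFractionRing (CR (Ideal.span {PK})) E]
      [Algebra K E] [IsScalarTower K (CR (Ideal.span {PK})) E] (ρ : E →ₐ[K] E),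
      Rst (σK ^ M) (Ideal.span {PK}) E ρ → NoFullY l PK eK (σK ^ M) (Module.finrank ρ.fieldRange E)

/-- The growth hypothesis for the dimension `r = l` (subvarieties generically finite over the base). -/
def GrB {k : Type} [Field k] (l : ℕ) (P : Pl (n + 1) k) (f : RM k (n + 1)) : Prop :=
  ∃ S : Finset k, ∀ (K : Type) [Field K] [CharZero K] [Algebra K k] (PK : Pl (n + 1) K)
    (fK : RM K (n + 1)), (∀ s ∈ S, s ∈ Set.range (algebraMap K k)) →
    MvPolynomial.map (algebraMap K k) PK = P → fK.map (algebraMap K k) = f → Irreducible PK →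
    MonZ PK → InvX fK PK → ∀ σK : RF (n + 1) K →ₐ[K] RF (n + 1) K, Of fK σK → ∀ M : ℕ, 1 ≤ M →
    ∀ (E : Type) [Field E] [Algebra (CR (Ideal.span {PK})) E] [IsFractionRing (CR (Ideal.span {PK})) E]
      [Algebra K E] [IsScalarTower K (CR (Ideal.span {PK})) E] (ρ : E →ₐ[K] E),
      Rst (σK ^ M) (Ideal.span {PK}) E ρ →
        ∃ e' : Pl (n + 1) K, ¬ PK ∣ e' ∧ NoFullB l PK e' (σK ^ M) (Module.finrank ρ.fieldRange E)

/-- Orbits on the level `P = 0`, `f` (in general position) are mapped to orbits on the level `P' = 0`, `f'` with the same first `n'` coordinates. -/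
def TrfP {n' : ℕ} (P : Pl (n + 1) K) (f : RM K (n + 1)) (P' : Pl (n' + 1) K) (f' : RM K (n' + 1)) : Prop :=
  ∃ B : Pl (n + 1) K, ¬ P ∣ B ∧ ∀ w : ℕ → Fin (n + 1) → K, f.Orb w →
    (∀ t, MvPolynomial.eval (w t) P = 0 ∧ MvPolynomial.eval (w t) B ≠ 0) →
    ∃ x : ℕ → Fin (n' + 1) → K, f'.Orb x ∧
      (∀ t, MvPolynomial.eval (x t) P' = 0 ∧ MvPolynomial.eval (x t) (jac f') ≠ 0 ∧
        ∀ (i : Fin n') (i' : Fin n), (i : ℕ) = i' → x t i.succ = w t i'.succ) ∧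
      ∀ N p : ℕ, Pool.Agent.ZDO.ClN N p w → Pool.Agent.ZDO.ClN N p x

end

end Pool.Agent.Lib.MP_16285c_agY
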