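import Pool.Agent.Lib.MP_16285c_agX.Defs

/-!
# Irreducible specializations of several polynomials at once
-/

set_option autoImplicit false

namespace Pool.Agent.Lib.MP_16285c_agY

namespace HilsM

open Polynomial

section

variable {R F L : Type} [CommRing R] [IsDomain R] [IsIntegrallyClosed R] [Field F] [Algebra R F]
  [IsFractionRing R F] [Field L] [Algebra F L] [Algebra R L] [IsScalarTower R F L]

omit [IsDomain R] [IsIntegrallyClosed R] [IsFractionRing R F] in
/-- Functionals which show that the powers of `h` are independent. -/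
theorem func (h : L) (H : R[X]) (hH : H.Monic) (hirr : Irreducible (H.map (algebraMap R F)))
    (hr : aeval h H = 0) : ∃ S : L →ₗ[F] (Fin H.natDegree → F), ∀ b : Fin H.natDegree,
      S (h ^ (b : ℕ)) = Pi.single b 1 := by
  have h1 : minpoly F h = H.map (algebraMap R F) := by
    refine (minpoly.eq_of_irreducible_of_monic hirr ?_ (hH.map _)).symm
    rw [aeval_map_algebraMap]
    exact hr
  have h2 : (minpoly F h).natDegree = H.natDegree := by
    rw [h1, hH.natDegree_map]
  have h3 : LinearIndependent F (fun b : Fin H.natDegree => h ^ (b : ℕ)) := by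
    have h4 := linearIndependent_pow (K := F) h
    rw [h2] at h4
    exact h4
  have h5 : LinearMap.ker (Fintype.linearCombination F (fun b : Fin H.natDegree => h ^ (b : ℕ))) = ⊥ :=
    LinearMap.ker_eq_bot.2 (linearIndependent_iff_injective_fintypeLinearCombination.1 h3)
  obtain ⟨S, hS⟩ := LinearMap.exists_leftInverse_of_injective _ h5
  refine ⟨S, fun b => ?_⟩
  have h6 := congrArg (fun T => T (Pi.single b 1)) hS
  simp only [LinearMap.comp_apply, LinearMap.id_apply] at h6
  rw [← h6]
  congr 1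
  rw [Fintype.linearCombination_apply_single]
  simp

theorem one (θ h : L) (hθ : IsIntegral R θ) (H : R[X]) (hH : H.Monic)
    (hirr : Irreducible (H.map (algebraMap R F))) (hr : aeval h H = 0)
    (hmem : h ∈ IntermediateField.adjoin F {θ}) :
    ∃ G : R, G ≠ 0 ∧ ∀ (K : Type) [Field K] (ε : R →+* K), ε G ≠ 0 →
      Irreducible ((minpoly R θ).map ε) → Irreducible (H.map ε) := by
  have hinj : Function.Injective (algebraMap R L) := by
    rw [IsScalarTower.algebraMap_eq R F L]
    exact (algebraMap F L).injective.comp (IsFractionRing.injective R F)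
  have : Module.IsTorsionFree R L := Module.isTorsionFree_iff_algebraMap_injective.2 hinj
  obtain ⟨S, hS⟩ := func (F := F) h H hH hirr hr
  have hθF : IsIntegral F θ := hθ.tower_top
  obtain ⟨a, ha⟩ : ∃ a : F[X], aeval θ a = h := by
    rw [← IntermediateField.mem_toSubalgebra,
      IntermediateField.adjoin_simple_toSubalgebra_of_isAlgebraic hθF.isAlgebraic,
      Algebra.adjoin_singleton_eq_range_aeval] at hmem
    exact hmem
  obtain ⟨g, hgm, hg⟩ := IsLocalization.integerNormalization_spec (nonZeroDivisors R) a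
  obtain ⟨a', ha'⟩ : ∃ a' : R[X], a' = IsLocalization.integerNormalization (nonZeroDivisors R) a :=
    ⟨_, rfl⟩
  rw [← ha'] at hg
  have hg0 : g ≠ 0 := nonZeroDivisors.ne_zero hgm
  have hau : aeval θ a' = algebraMap R L g * h := by
    rw [← aeval_map_algebraMap F, hg, ← ha, ← algebraMap_smul F g a, map_smul, Algebra.smul_def,
      ← IsScalarTower.algebraMap_apply]
  obtain ⟨D, hD⟩ : ∃ D : ℕ, D = (minpoly R θ).natDegree := ⟨_, rfl⟩
  have hmon : (minpoly R θ).Monic := minpoly.monic hθ
  obtain ⟨g', hg'⟩ := IsLocalization.exist_integer_multiples_of_finite (nonZeroDivisors R)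
    (fun i : Fin D × Fin H.natDegree => S (θ ^ (i.1 : ℕ)) i.2)
  have hg'0 : (g' : R) ≠ 0 := nonZeroDivisors.ne_zero g'.2
  choose s hs using hg'
  -- the powers of `g h` as polynomials in `θ` of small degree
  obtain ⟨p, hp⟩ : ∃ p : ℕ → R[X], ∀ b, p b = (a' ^ b) %ₘ minpoly R θ := ⟨_, fun _ => rfl⟩
  have hD0 : 0 < D := by
    rw [hD]
    exact minpoly.natDegree_pos hθ
  have hpd : ∀ b, (p b).natDegree < D := by
    intro b
    rw [hp, hD]
    exact natDegree_modByMonic_lt _ hmon (fun h1 => by
      rw [hD, h1, natDegree_one] at hD0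
      exact lt_irrefl _ hD0)
  have hpa : ∀ b, aeval θ (p b) = algebraMap R L (g ^ b) * h ^ b := by
    intro b
    have h1 := modByMonic_add_div (a' ^ b) (minpoly R θ)
    have h2 := congrArg (aeval θ) h1
    rw [map_add, map_mul, minpoly.aeval, zero_mul, add_zero, map_pow, hau, mul_pow, ← map_pow,
      ← hp] at h2
    exact h2
  have hrel : ∀ b c : Fin H.natDegree, ∑ i : Fin D, (p b).coeff i * s (i, c) =
      if b = c then (g' : R) * g ^ (b : ℕ) else 0 := by
    intro b c
    apply IsFractionRing.injective R F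
    rw [map_sum]
    have h1 : S (aeval θ (p b)) c = ∑ i : Fin D, algebraMap R F ((p b).coeff i) * S (θ ^ (i : ℕ)) c := by
      rw [aeval_eq_sum_range' (hpd b), ← Fin.sum_univ_eq_sum_range (fun i => (p b).coeff i • θ ^ i) D,
        map_sum, Finset.sum_apply]
      refine Finset.sum_congr rfl fun i _ => ?_
      rw [← algebraMap_smul F ((p b).coeff i), map_smul, Pi.smul_apply, smul_eq_mul]
    have h2 : S (aeval θ (p b)) c = if b = c then algebraMap R F (g ^ (b : ℕ)) else 0 := by
      rw [hpa, IsScalarTower.algebraMap_apply R F L, ← Algebra.smul_def, map_smul, hS,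
        Pi.smul_apply, Pi.single_apply, smul_eq_mul]
      by_cases hbc : b = c
      · rw [if_pos hbc, if_pos hbc.symm, mul_one]
      · rw [if_neg hbc, if_neg (Ne.symm hbc), mul_zero]
    have h3 : ∀ i : Fin D, algebraMap R F ((p b).coeff i * s (i, c)) =
        algebraMap R F g' * (algebraMap R F ((p b).coeff i) * S (θ ^ (i : ℕ)) c) := by
      intro i
      rw [map_mul, hs (i, c), Algebra.smul_def]
      ring
    rw [Finset.sum_congr rfl fun i _ => h3 i, ← Finset.mul_sum, ← h1, h2]
    by_cases hbc : b = c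
    · rw [if_pos hbc, if_pos hbc, map_mul]
    · rw [if_neg hbc, if_neg hbc, mul_zero, map_zero]
  refine ⟨g' * g, mul_ne_zero hg'0 hg0, fun K _ ε hε hir => ?_⟩
  rw [map_mul] at hε
  have hε1 := left_ne_zero_of_mul hε
  have hε2 := right_ne_zero_of_mul hε
  obtain ⟨Q, hQ⟩ : ∃ Q : K[X], Q = (minpoly R θ).map ε := ⟨_, rfl⟩
  have hQm : Q.Monic := by
    rw [hQ]
    exact hmon.map ε
  have hQd : Q.natDegree = D := by
    rw [hQ, hD, hmon.natDegree_map]
  rw [← hQ] at hir
  have : Fact (Irreducible Q) := ⟨hir⟩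
  have hker : ∀ x : R[X], aeval θ x = 0 → AdjoinRoot.mk Q (x.map ε) = 0 := by
    intro x hx
    rw [AdjoinRoot.mk_eq_zero, hQ]
    exact Polynomial.map_dvd ε (minpoly.isIntegrallyClosed_dvd hθ hx)
  obtain ⟨u, hu⟩ : ∃ u : AdjoinRoot Q, u = AdjoinRoot.mk Q (a'.map ε) := ⟨_, rfl⟩
  obtain ⟨η, hη⟩ : ∃ η : AdjoinRoot Q, η = algebraMap K (AdjoinRoot Q) (ε g)⁻¹ * u := ⟨_, rfl⟩
  -- `η` is a root
  have hroot : aeval η (H.map ε) = 0 := by
    have h1 : aeval (aeval θ a') (scaleRoots H g) = 0 := by
      rw [hau]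
      exact scaleRoots_aeval_eq_zero hr
    rw [← aeval_comp] at h1
    have h2 := hker _ h1
    rw [Polynomial.map_comp, map_scaleRoots H g ε (by rw [hH.leadingCoeff, map_one]; exact one_ne_zero)] at h2
    have h3 : aeval u (scaleRoots (H.map ε) (ε g)) = 0 := by
      have h5 : ∀ U W : K[X], aeval (AdjoinRoot.mk Q W) U = AdjoinRoot.mk Q (U.comp W) := by
        intro U W
        rw [← AdjoinRoot.aeval_eq (U.comp W), aeval_comp, AdjoinRoot.aeval_eq W]
      rw [hu, h5, h2]
    have h4 := scaleRoots_aeval_eq_zero (r := (ε g)⁻¹) h3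
    rw [← scaleRoots_mul, mul_inv_cancel₀ hε2, scaleRoots_one] at h4
    rw [hη]
    exact h4
  have hpow : ∀ b, u ^ b = AdjoinRoot.mk Q ((p b).map ε) := by
    intro b
    rw [hu, ← map_pow, ← Polynomial.map_pow, ← sub_eq_zero, ← map_sub, ← Polynomial.map_sub]
    apply hker
    rw [map_sub, hpa, map_pow, hau, mul_pow, map_pow, sub_self]
  have hKη : IsIntegral K η := ⟨H.map ε, hH.map ε, by rw [← aeval_def]; exact hroot⟩
  have hdeg : H.natDegree ≤ (minpoly K η).natDegree := by
    by_contra hlt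
    rw [not_le] at hlt
    obtain ⟨q, hq⟩ : ∃ q : K[X], q = minpoly K η := ⟨_, rfl⟩
    have hq0 : aeval η q = 0 := by
      rw [hq]
      exact minpoly.aeval _ _
    have hqd : q.natDegree < H.natDegree := by
      rw [hq]
      exact hlt
    have hsum : ∑ b : Fin H.natDegree, (algebraMap K (AdjoinRoot Q) (q.coeff b * (ε g)⁻¹ ^ (b : ℕ))) *
        AdjoinRoot.mk Q ((p b).map ε) = 0 := by
      rw [← hq0, aeval_eq_sum_range' hqd,
        ← Fin.sum_univ_eq_sum_range (fun i => q.coeff i • η ^ i) H.natDegree]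
      refine Finset.sum_congr rfl fun b _ => ?_
      rw [← hpow, hη, mul_pow, Algebra.smul_def, map_mul, map_pow, mul_assoc]
    obtain ⟨W, hW⟩ : ∃ W : K[X], W = ∑ b : Fin H.natDegree,
        C (q.coeff b * (ε g)⁻¹ ^ (b : ℕ)) * (p b).map ε := ⟨_, rfl⟩
    have hW0 : AdjoinRoot.mk Q W = 0 := by
      rw [hW, map_sum, ← hsum]
      refine Finset.sum_congr rfl fun b _ => ?_
      rw [map_mul, AdjoinRoot.mk_C]
      rfl
    have hWd : W.natDegree < D := by
      rw [hW]
      refine lt_of_le_of_lt (natDegree_sum_le_of_forall_le (n := D - 1) _ _ fun b _ => ?_) (by omega)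
      refine (natDegree_C_mul_le _ _).trans ?_
      have h5 := hpd b
      have h6 : ((p b).map ε).natDegree ≤ (p b).natDegree := natDegree_map_le
      omega
    have hWz : W = 0 := by
      rw [AdjoinRoot.mk_eq_zero] at hW0
      by_contra hne
      have h5 := natDegree_le_of_dvd hW0 hne
      rw [hQd] at h5
      omega
    have hco : ∀ i : ℕ, ∑ b : Fin H.natDegree, q.coeff b * (ε g)⁻¹ ^ (b : ℕ) * ε ((p b).coeff i) = 0 := by
      intro i
      have h5 := congrArg (fun w => w.coeff i) hWz
      simp only [hW, finsetSum_coeff, coeff_C_mul, coeff_map, coeff_zero] at h5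
      exact h5
    have hz : q.coeff q.natDegree = 0 := by
      obtain ⟨c, hc⟩ : ∃ c : Fin H.natDegree, (c : ℕ) = q.natDegree := ⟨⟨_, hqd⟩, rfl⟩
      have h5 : ∑ i : Fin D, (∑ b : Fin H.natDegree, q.coeff b * (ε g)⁻¹ ^ (b : ℕ) *
          ε ((p b).coeff i)) * ε (s (i, c)) = 0 :=
        Finset.sum_eq_zero fun i _ => by rw [hco i, zero_mul]
      have h6 : ∀ b : Fin H.natDegree, ∑ i : Fin D, q.coeff b * (ε g)⁻¹ ^ (b : ℕ) *
          ε ((p b).coeff i) * ε (s (i, c)) = if b = c then q.coeff b * ε g' else 0 := by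
        intro b
        have h7 : ∀ i : Fin D, q.coeff b * (ε g)⁻¹ ^ (b : ℕ) * ε ((p b).coeff i) * ε (s (i, c)) =
            q.coeff b * (ε g)⁻¹ ^ (b : ℕ) * ε ((p b).coeff i * s (i, c)) := by
          intro i
          rw [map_mul]
          ring
        rw [Finset.sum_congr rfl fun i _ => h7 i, ← Finset.mul_sum, ← map_sum, hrel b c]
        by_cases hbc : b = c
        · rw [if_pos hbc, if_pos hbc, map_mul, map_pow, inv_pow]
          field_simp
        · rw [if_neg hbc, if_neg hbc, map_zero, mul_zero]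
      simp_rw [Finset.sum_mul] at h5
      rw [Finset.sum_comm, Finset.sum_congr rfl fun b _ => h6 b, Finset.sum_ite_eq' Finset.univ c,
        if_pos (Finset.mem_univ c)] at h5
      rw [← hc]
      exact (mul_eq_zero.1 h5).resolve_right hε1
    have hqm : q.Monic := by
      rw [hq]
      exact minpoly.monic hKη
    rw [coeff_natDegree, hqm.leadingCoeff] at hz
    exact one_ne_zero hz
  have hfin : H.map ε = minpoly K η := by
    refine eq_of_monic_of_dvd_of_natDegree_le (minpoly.monic hKη) (hH.map ε) (minpoly.dvd K η hroot) ?_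
    rw [hH.natDegree_map]
    exact hdeg
  rw [hfin]
  exact minpoly.irreducible hKη

/-- Several monic irreducible polynomials at once. -/
theorem several [CharZero F] (s : ℕ) (H : Fin s → R[X]) (hH : ∀ j, (H j).Monic)
    (hirr : ∀ j, Irreducible ((H j).map (algebraMap R F))) :
    ∃ (H' : R[X]) (G : R), H'.Monic ∧ Irreducible (H'.map (algebraMap R F)) ∧ G ≠ 0 ∧
      ∀ (K : Type) [Field K] (ε : R →+* K), ε G ≠ 0 → Irreducible (H'.map ε) →
        ∀ j, Irreducible ((H j).map ε) := by
  have hroot : ∀ j, ∃ r : AlgebraicClosure F, aeval r ((H j).map (algebraMap R F)) = 0 := by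
    intro j
    refine IsAlgClosed.exists_aeval_eq_zero _ _ ?_
    exact (degree_pos_of_irreducible (hirr j)).ne'
  choose r hr using hroot
  have hri : ∀ j, IsIntegral F (r j) := fun j => ⟨_, (hH j).map _, by rw [← aeval_def]; exact hr j⟩
  obtain ⟨M, hM⟩ : ∃ M : IntermediateField F (AlgebraicClosure F),
    M = IntermediateField.adjoin F (Set.range r) := ⟨_, rfl⟩
  have hfin : FiniteDimensional F M := by
    rw [hM]
    refine IntermediateField.finiteDimensional_adjoin ?_
    rintro x ⟨j, rfl⟩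
    exact hri j
  obtain ⟨θ₀, hθ₀⟩ := Field.exists_primitive_element F M
  have hθa : IsAlgebraic R θ₀ := by
    rw [IsFractionRing.isAlgebraic_iff R F M]
    exact Algebra.IsAlgebraic.isAlgebraic θ₀
  obtain ⟨y, hy, hint⟩ := hθa.exists_integral_multiple
  obtain ⟨θ, hθ⟩ : ∃ θ : M, θ = y • θ₀ := ⟨_, rfl⟩
  rw [← hθ] at hint
  have hθtop : IntermediateField.adjoin F {θ} = ⊤ := by
    rw [eq_top_iff, ← hθ₀, IntermediateField.adjoin_simple_le_iff]
    have h1 : θ ∈ IntermediateField.adjoin F {θ} := IntermediateField.mem_adjoin_simple_self F θ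
    have h2 : θ₀ = (algebraMap R F y)⁻¹ • θ := by
      rw [hθ, ← algebraMap_smul F y θ₀, smul_smul, inv_mul_cancel₀, one_smul]
      exact fun h3 => hy (IsFractionRing.injective R F (by rw [h3, map_zero]))
    rw [h2]
    exact IntermediateField.smul_mem _ h1
  have hG : ∀ j, ∃ G : R, G ≠ 0 ∧ ∀ (K : Type) [Field K] (ε : R →+* K), ε G ≠ 0 →
      Irreducible ((minpoly R θ).map ε) → Irreducible ((H j).map ε) := by
    intro j
    have hj : r j ∈ M := by
      rw [hM]
      exact IntermediateField.subset_adjoin _ _ ⟨j, rfl⟩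
    refine one (F := F) θ ⟨r j, hj⟩ hint (H j) (hH j) (hirr j) ?_ ?_
    · rw [← aeval_map_algebraMap F]
      have h1 := Polynomial.aeval_algHom_apply M.val (⟨r j, hj⟩ : M) ((H j).map (algebraMap R F))
      have h2 : M.val (⟨r j, hj⟩ : M) = r j := rfl
      rw [h2, hr j] at h1
      exact Subtype.ext h1.symm
    · rw [hθtop]
      exact IntermediateField.mem_top
  choose G hG0 hG1 using hG
  refine ⟨minpoly R θ, ∏ j, G j, minpoly.monic hint, ?_, Finset.prod_ne_zero_iff.2 fun j _ => hG0 j,
    fun K _ ε hε hir j => ?_⟩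
  · rw [← minpoly.isIntegrallyClosed_eq_field_fractions F M hint]
    exact minpoly.irreducible hint.tower_top
  · rw [map_prod] at hε
    exact hG1 j K ε (Finset.prod_ne_zero_iff.1 hε j (Finset.mem_univ j)) hir

end

end HilsM

open Pool.Agent.Lib.MP_16285c_agN

/-- (Hils) Several monic irreducible polynomials over `K[x₁, …, x_n]` at once. -/
def StmtHils : Prop :=
  ∀ (K : Type) [Field K] [CharZero K] (n s : ℕ) (H : Fin s → Polynomial (Pl n K)), (∀ j, (H j).Monic) →
    (∀ j, Irreducible ((H j).map (algebraMap (Pl n K) (RF n K)))) →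
    ∃ (H' : Polynomial (Pl n K)) (G : Pl n K), H'.Monic ∧
      Irreducible (H'.map (algebraMap (Pl n K) (RF n K))) ∧ G ≠ 0 ∧
      ∀ t : Fin n → K, Irreducible (H'.map (MvPolynomial.eval t)) → MvPolynomial.eval t G ≠ 0 →
        ∀ j, Irreducible ((H j).map (MvPolynomial.eval t))

theorem tHils : StmtHils := by
  intro K _ _ n s H hH hirr
  obtain ⟨H', G, h1, h2, h3, h4⟩ := HilsM.several (F := RF n K) s H hH hirr
  exact ⟨H', G, h1, h2, h3, fun t ht hG j => h4 K (MvPolynomial.eval t) hG ht j⟩

end Pool.Agent.Lib.MP_16285c_agY
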