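import Pool.Agent.Lib.MP_16285c_agY.Defs
import Pool.Agent.Lib.MP_16285c_agX.Gro.Spec
import Pool.Agent.Lib.MP_16285c_agY.Hils

/-!
# Dense orbits for rational maps which preserve a tower of fibrations: statements (note 4979)

Every lemma is a `Prop` with its proof in the docstring; used statements are hypotheses (file `X.lean`, `theorem tX : StmtX` or `StmtY → StmtX`, namespace `Pool.Agent.Lib.MP_16285c_agY`, auxiliary lemmas in the namespace `Pool.Agent.Lib.MP_16285c_agY.YXM` with `X` the name of the file).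
Several files are edits of landed files of `Lib/MP_16285c_agX`; statements and theorems of `Lib/MP_16285c_agN`, `agS`, `agX` may be used (as hypotheses where they are `Prop`s, or by citing the landed theorem).
-/

set_option autoImplicit false

namespace Pool.Agent.Lib.MP_16285c_agY

open Pool.Agent.Lib.MP_16285c_ag Pool.Agent.Lib.MP_16285c_agN Pool.Agent.Lib.MP_16285c_agX
open Pool.Agent.Lib.MP_16285c_agS (toF vanK StmtInvD StmtNoPowE StmtPresK StmtRkK StmtIrrK StmtPrimS StmtLowS StmtConjS StmtDescS StmtDom StmtUni)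
open Pool.Agent.Lib.MP_16285c_agS.G (FF cls ValAt)

/-! ## Top: one level, several levels -/

/-- (CoreY) Edit `Lib/MP_16285c_agX/Top/CoreX.lean` (same hypotheses). `NoFull1` is replaced by `NoFullL l`, and the conclusion has the additional hypothesis `IndL l (vanK K y M)`, which is what `NoFullL` asks for at the end of the proof (`NoFullL l P e σ T` is applied to `𝔭 = vanK K y (N * N')`). Nothing else changes. -/
def StmtCoreY : Prop :=
  ∀ (K : Type) [Field K] [CharZero K] (n l : ℕ) (P : Pl (n + 1) K) (f : RM K (n + 1))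
    (σ : RF (n + 1) K →ₐ[K] RF (n + 1) K) (M : ℕ), 1 ≤ n →
    Irreducible P → MonZ P → Of f σ → Pres σ (Ideal.span {P}) → 1 ≤ M →
    ∀ (E : Type) [Field E] [Algebra (CR (Ideal.span {P})) E] [IsFractionRing (CR (Ideal.span {P})) E]
      [Algebra K E] [IsScalarTower K (CR (Ideal.span {P})) E] (ρ : E →ₐ[K] E),
      Rst (σ ^ M) (Ideal.span {P}) E ρ → (∃ h : E, ρ h ≠ h) → ∀ e : Pl (n + 1) K, ¬ P ∣ e →
      NoFullL l P e (σ ^ M) (Module.finrank ρ.fieldRange E) →
    ∃ (H : Polynomial (Pl n K)) (G : Pl n K), H.Monic ∧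
      Irreducible (H.map (algebraMap (Pl n K) (RF n K))) ∧ G ≠ 0 ∧
      ∀ t : Fin n → K, Irreducible (H.map (MvPolynomial.eval t)) → MvPolynomial.eval t G ≠ 0 →
        Irreducible ((MvPolynomial.finSuccEquiv K n P).map (MvPolynomial.eval t)) ∧
        ∀ (K' : Type) [Field K'] [Algebra K K'] [Algebra.IsAlgebraic K K'] (z₀ : K'),
          IntermediateField.adjoin K {z₀} = ⊤ →
          Irreducible (MvPolynomial.map (algebraMap K K') P) →
          ∀ (y : ℕ → Fin (n + 1) → K') (N N' p p' : ℕ), y 0 = pt t z₀ →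
          (f.map (algebraMap K K')).Orb y →
          (∀ m, MvPolynomial.aeval (y m) P = 0 ∧ MvPolynomial.aeval (y m) (jac f) ≠ 0) →
          p.Prime → p'.Prime → p ≠ p' → N * N' = M → Pool.Agent.ZDO.ClN N p y →
          Pool.Agent.ZDO.ClN N' p' y → IndL l (vanK K y M) →
          van y M ≤ Ideal.span {MvPolynomial.map (algebraMap K K') P}

/-- (Lvl) One level over `k`. Edit `Lib/MP_16285c_agX/Top/FinX.lean` (uses `StmtCoreY` in place of `StmtCoreX`, `StmtDom`, `StmtPresX`, `StmtResF`, `StmtInvDX`, `StmtInvD` (2), `StmtConjS`, `StmtDescS`). `S` = the set of `GrL`, the coefficients of `P`, `f.num i`, `f.den i`, `E₀`, `N₀` (of `InvX`). For `K : Subfield k` containing `S` (not necessarily the closure of `S`): `P₀, f₀, E₁, N₁` over `K`, `σ₀`, `ρ`, `e'` as in `FinX.lean`;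
`H, G` from `StmtCoreY`. Given `t`, `x`, `x'` as in the statement: `z = x 0 0`, `z' = x' 0 0` are roots of `q = P₀(Z, t)` (`eval_cons`), `ι, ι' : AdjoinRoot q →ₐ[K] k`, and `y` as in `FinX.lean` (there `x 0 = Fin.cons z tk`). `IndL l (vanK K y (N * N'))`: let `G : Pl n K`, `Vl l G`, `up K n G ∈ vanK K y (N * N')`; then for all `r`, with `Ĝ = map (algebraMap K k) G`: `eval (x (M r)) (up k n Ĝ) = ι (aeval (y (M r)) (up K n G)) = 0`,
that is `eval (fun i => x (M r) i.succ) Ĝ = 0` (`MvPolynomial.eval_rename`), `Vl l Ĝ` (`MvPolynomial.vars_map_of_injective`), so `Ĝ = 0` and `G = 0`. The conclusion as at the end of `FinX.lean` (`StmtDescS`). -/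
def StmtLvl : Prop :=
  ∀ (k : Type) [Field k] [IsAlgClosed k] [CharZero k] (n l : ℕ) (P : Pl (n + 1) k)
    (f : RM k (n + 1)), 1 ≤ n → Irreducible P → MonZ P → InvX f P → GrL l P f →
    ∃ S : Finset k, ∀ K : Subfield k, (∀ s ∈ S, s ∈ K) → ∀ M : ℕ, 1 ≤ M →
      ∃ (H : Polynomial (Pl n K)) (G : Pl n K), H.Monic ∧
        Irreducible (H.map (algebraMap (Pl n K) (RF n K))) ∧ G ≠ 0 ∧
        ∀ t : Fin n → K, Irreducible (H.map (MvPolynomial.eval t)) → MvPolynomial.eval t G ≠ 0 →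
          ∀ (x x' : ℕ → Fin (n + 1) → k) (N N' p p' : ℕ), f.Orb x → f.Orb x' →
            (∀ i : Fin n, x 0 i.succ = (t i : k)) → (∀ i : Fin n, x' 0 i.succ = (t i : k)) →
            (∀ m, MvPolynomial.eval (x m) P = 0 ∧ MvPolynomial.eval (x m) (jac f) ≠ 0) →
            (∀ m, MvPolynomial.eval (x' m) P = 0 ∧ MvPolynomial.eval (x' m) (jac f) ≠ 0) →
            p.Prime → p'.Prime → p ≠ p' → N * N' = M →
            Pool.Agent.ZDO.ClN N p x → Pool.Agent.ZDO.ClN N' p' x' →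
            (∀ G : Pl n k, Vl l G → (∀ r, MvPolynomial.eval (fun i : Fin n => x (M * r) i.succ) G = 0) → G = 0) →
            ∀ G : Pl (n + 1) k, (∀ r, MvPolynomial.eval (x (M * r)) G = 0) → P ∣ G

/-- (ExtV) Irreducibility is preserved by adding variables. PROOF. `H` is monic, so it is irreducible in `(Pl a K)[X]` (Gauss: `Polynomial.Monic.irreducible_iff_irreducible_map_fraction_map`, `Pl a K` is integrally closed), and it suffices that `H.map (rename (Fin.castLE h))` is irreducible in `(Pl b K)[X]` (monic; again Gauss). By induction one may add one variable at a time (or all at once): `Pl b K ≅ (Pl a K)[variables]`. Let `H^ = F₁ * F₂`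
with `F₁, F₂` in `(Pl b K)[X]`; both have unit leading coefficients, so they may be taken monic (`Polynomial.Monic` factors, `isUnit_leadingCoeff_of_dvd`). Direct argument: let `u : Pl b K →ₐ[K] Pl a K` be the substitution `X i ↦ X i` for `i < a`, `X i ↦ 0` for `i ≥ a`, a left inverse of `rename (Fin.castLE h)`. Then `H = (F₁.map u) * (F₂.map u)` with `F₁.map u, F₂.map u` monic of the same degrees; `H` is irreducible, so one of
the degrees is `0`, and `F₁ = 1` or `F₂ = 1`. (`Polynomial.Monic.irreducible_iff_natDegree'` or the like.) -/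
def StmtExtV : Prop :=
  ∀ (K : Type) [Field K] (a b : ℕ) (h : a ≤ b) (H : Polynomial (Pl a K)), H.Monic →
    Irreducible (H.map (algebraMap (Pl a K) (RF a K))) →
    Irreducible ((H.map ((MvPolynomial.rename (Fin.castLE h) : Pl a K →ₐ[K] Pl b K) :
      Pl a K →+* Pl b K)).map (algebraMap (Pl b K) (RF b K)))

/-- (TopY) Several levels (helper62). PROOF (uses `StmtBoxX`, `StmtLiftC2`, `StmtHitPt`, `StmtLvl`, `StmtHils` (in `Hils.lean`), `StmtExtV`). Boxes at two primes for the top level and `B = b * jac (f s) * ∏ (the polynomials of TrfP)`; `K` generated by the sets `S` of all levels and the `c i`; `t` from `StmtHils`, `StmtHitPt`; induction on the levels. -/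
def StmtTopY : Prop :=
  ∀ (k : Type) [Field k] [IsAlgClosed k] [CharZero k] (s : ℕ) (nn : ℕ → ℕ)
    (P : ∀ j, Pl (nn j + 1) k) (f : ∀ j, RM k (nn j + 1)),
    (∀ j ≤ s, 1 ≤ nn j) → (∀ j < s, nn j ≤ nn (j + 1)) →
    (∀ j ≤ s, Irreducible (P j)) → (∀ j ≤ s, MonZ (P j)) → (∀ j ≤ s, InvX (f j) (P j)) →
    GrL 0 (P 0) (f 0) → (∀ j < s, GrL (nn j) (P (j + 1)) (f (j + 1))) →
    (∀ j < s, TrfP (P s) (f s) (P j) (f j)) →
    ∀ b : Pl (nn s + 1) k, ¬ P s ∣ b →
    ∃ x : ℕ → Fin (nn s + 1) → k, (f s).Orb x ∧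
      (∀ m, MvPolynomial.eval (x m) (P s) = 0 ∧ MvPolynomial.eval (x m) b ≠ 0) ∧
      ∀ G : Pl (nn s + 1) k, ¬ P s ∣ G → ∃ m, MvPolynomial.eval (x m) G ≠ 0

/-! ## The level condition -/

/-- (RkL) The rank of a prime dominating the base. PROOF (uses `StmtTB` (3), (1), (2)). `x i = toF 𝔭 L (X i.succ)`, `i < l`, are algebraically independent over `K`: if `G : MvPolynomial (Fin l) K` and `aeval (x i) G = 0` then `G' = rename (Fin.castLE h) G` has `toF 𝔭 L (up K n G') = 0`, so `up K n G' ∈ 𝔭` (`IsFractionRing.injective`, `Ideal.Quotient.eq_zero_iff_mem`), `Vl l G'` (`MvPolynomial.vars_rename`), so `G' = 0`, `G = 0` (`MvPolynomial.rename_injective`).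
`rk 𝔭` is the number of elements of a transcendence basis of `L` over `K` (`StmtTB` (3), (1) for `u j = x j`, `j : Fin n`, and (2)), that is `Algebra.trdeg K L = rk 𝔭`; so `l ≤ rk 𝔭` (`AlgebraicIndependent.cardinalMk_le_trdeg` or the like), and if `rk 𝔭 = l` then the family is a transcendence basis (an algebraically independent family with `trdeg` many elements, finite: Mathlib `AlgebraicIndependent.isTranscendenceBasis_of_trdeg_le` or the like). -/
def StmtRkL : Prop :=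
  ∀ (K : Type) [Field K] (n l : ℕ) (h : l ≤ n) (P : Pl (n + 1) K) (𝔭 : Ideal (Pl (n + 1) K)) [𝔭.IsPrime], MonZ P → P ∈ 𝔭 →
    IndL l 𝔭 → l ≤ rk 𝔭 ∧
    ∀ (L : Type) [Field L] [Algebra (CR 𝔭) L] [IsFractionRing (CR 𝔭) L] [Algebra K L] [IsScalarTower K (CR 𝔭) L],
      AlgebraicIndependent K (fun i : Fin l => toF 𝔭 L (MvPolynomial.X (Fin.castLE h i).succ)) ∧
      (rk 𝔭 = l → IsTranscendenceBasis K (fun i : Fin l => toF 𝔭 L (MvPolynomial.X (Fin.castLE h i).succ)))

/-- (ModY) Edit `Lib/MP_16285c_agX/Top/ModX.lean` (uses `StmtCanX`, `StmtDom`, `StmtPresX`, `StmtResF`, `StmtG1`, `StmtNoEX`, `StmtNoPowE`, `StmtNoDescX`, `StmtDesc`, `StmtRkL` (first part)). `S` = the coefficients of `e`, the set of `GrY` and, if `1 ≤ l` and `l + 2 ≤ n`, the set of `GrB`. `e'` = `eK * up K n Γ * e₁` with `e₁` the polynomial of `GrB` (`e₁ = 1` if not `1 ≤ l ∧ l + 2 ≤ n`). At the end: `l ≤ rk 𝔭` by `StmtRkL`. If `rk 𝔭 + 1 = n`: `StmtCanX`.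
If `rk 𝔭 + 2 ≤ n` and `l < rk 𝔭`: `GrY`. If `rk 𝔭 + 2 ≤ n` and `rk 𝔭 = l`: then `1 ≤ l` (as `1 ≤ rk 𝔭`), `l + 2 ≤ n`: `GrB`. -/
def StmtModY : Prop :=
  ∀ (k : Type) [Field k] [IsAlgClosed k] [CharZero k] (n l : ℕ) (P e : Pl (n + 1) k)
    (f : RM k (n + 1)), 1 ≤ n → l ≤ n → Irreducible P → MonZ P → InvX f P → NoIX f P → ¬ P ∣ e →
    GrY l P e f → (1 ≤ l → l + 2 ≤ n → GrB l P f) → GrL l P f

/-- (GroY) Edit `Lib/MP_16285c_agX/Gro/GroX.lean` (same hypotheses; helper62): `1 ≤ r` is replaced by `l < r`. -/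
def StmtGroY : Prop :=
  ∀ (k : Type) [Field k] [CharZero k] (n l : ℕ) (P : Pl (n + 1) k) (E' : Type) [Field E'] [Algebra k E']
    (ξ : Fin (n + 1) → E') (φ : E' →ₐ[k] E') (f : RM k (n + 1)) (m : ℕ) (y' : Fin m → E') (c : Pl (n + 1) k)
    (Y : Fin m → Pl (n + 1) k) (d : MvPolynomial (Fin m) k) (Z : Fin (n + 1) → MvPolynomial (Fin m) k),
    Irreducible P → MonZ P → GenN P ξ → InvX f P → (∀ i, fvn f ξ i = φ (ξ i)) → MvPolynomial.aeval ξ c ≠ 0 →
    (∀ i, y' i * MvPolynomial.aeval ξ c = MvPolynomial.aeval ξ (Y i)) → MvPolynomial.aeval y' d ≠ 0 →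
    (∀ j, ξ j * MvPolynomial.aeval y' d = MvPolynomial.aeval y' (Z j)) →
    (∀ r : ℕ, l < r → r + 2 ≤ n → lamX k n r y' φ < (Module.finrank φ.fieldRange E' : ENNReal)) →
    GrY l P (c * hatX c Y d.totalDegree d) f

/-! ## Subvarieties which are generically finite over the base (`GrB`) -/

/-- (EqF) Degrees. PROOF. Let `A = ι.fieldRange`, `B = (ι.comp ρ₀).fieldRange = (ρb.comp ι).fieldRange`, intermediate fields of `L / K`, `B ≤ A`, `B ≤ ρb.fieldRange`. `Module.finrank_mul_finrank` (towers of fields; restrict scalars with `IntermediateField.extendScalars` or use `IntermediateField.relfinrank`, `IntermediateField.relfinrank_mul_finrank_top`, `relfinrank_map_map`, `AlgHom.fieldRange = map ⊤`): `[A : B] * [L : A] = [L : B] = [ρb L : B] * [L : ρb L]`.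
`[ρb L : B] = [L : A]` (`relfinrank_map_map` for `ρb`: `A = map ι ⊤`, `ρb.fieldRange = map ρb ⊤`, `B = map ρb A`), `[A : B] = [D : ρ₀ D]` (`relfinrank_map_map` for `ι`). `[L : A] > 0` (finite), cancel. -/
def StmtEqF : Prop :=
  ∀ (K D L : Type) [Field K] [Field D] [Field L] [Algebra K D] [Algebra K L] (ι : D →ₐ[K] L) (ρ₀ : D →ₐ[K] D)
    (ρb : L →ₐ[K] L), (∀ h, ι (ρ₀ h) = ρb (ι h)) → Module.Finite ι.fieldRange L →
    Module.finrank ρb.fieldRange L = Module.finrank ρ₀.fieldRange D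

/-- (ResD) The residue homomorphism of a subfield. PROOF (uses `StmtRsE`). `α`-part algebraically independent in `L` implies that no nonzero polynomial in the `h a`, `a ∈ α`, vanishes (residues: `RsE (aeval h G) (aeval u G)` for all `G : MvPolynomial (Fin m) K`, by induction, `StmtRsE`). CLAIM: if `aeval h G ≠ 0` then `aeval u G ≠ 0`. `w = aeval h G` is algebraic over `K(h a : a ∈ α)` and not `0`, so there is a polynomial
`F ∈ (MvPolynomial α K)[W]` with `F(h, w) = 0` and `F.coeff 0 ≠ 0` (take a nonzero relation over the field, clear denominators, divide by the power of `W`; or: `w⁻¹` is algebraic, or use the minimal polynomial of `w`, which has a nonzero constant coefficient: `minpoly.coeff_zero_ne_zero`, `IsLocalization.integerNormalization`). So `c(h) = - w * g(h)` with `c ∈ K[X_a : a ∈ α]`, `c ≠ 0` and a polynomial `g : MvPolynomial (Fin m) K`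
(as `w` is a polynomial in `h`). Residues: `c(u) = - (aeval u G) * g(u)` and `c(u) ≠ 0`. Hence the ring homomorphism `aeval h A ↦ aeval u A` on `Algebra.adjoin K (range h)` is well defined (`aeval h A = aeval h A'` implies `aeval u A = aeval u A'` by uniqueness of residues) and injective, and it extends to `adjoin K (range h)` (`IsFractionRing.lift`, `IntermediateField` adjoin is the field of fractions of the algebra adjoin; or define `ι`
by choice of residues: every element of `adjoin K (range h)` has a residue, by `IntermediateField.adjoin_induction` or `mem_adjoin_range_iff` and the CLAIM, and it is unique, additive, multiplicative: `StmtRsE`). -/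
def StmtResD : Prop :=
  ∀ (K : Type) [Field K] (n : ℕ) (𝔮 𝔭 : Ideal (Pl n K)) [𝔮.IsPrime] [𝔭.IsPrime], 𝔮 ≤ 𝔭 →
    ∀ (E : Type) [Field E] [Algebra (CR 𝔮) E] [IsFractionRing (CR 𝔮) E] [Algebra K E] [IsScalarTower K (CR 𝔮) E]
      (L : Type) [Field L] [Algebra (CR 𝔭) L] [IsFractionRing (CR 𝔭) L] [Algebra K L] [IsScalarTower K (CR 𝔭) L]
      (m : ℕ) (h : Fin m → E) (u : Fin m → L), (∀ i, RsE 𝔮 𝔭 E L (h i) (u i)) → ∀ α : Finset (Fin m),
      AlgebraicIndependent K (fun a : α => u (a : Fin m)) →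
      (∀ i, IsAlgebraic (IntermediateField.adjoin K (Set.range fun a : α => h (a : Fin m))) (h i)) →
      ∃ ι : IntermediateField.adjoin K (Set.range h) →ₐ[K] L,
        ∀ c : IntermediateField.adjoin K (Set.range h), RsE 𝔮 𝔭 E L (c : E) (ι c)

/-- (TpLe) The topological degrees, the other inequality (compare `StmtTpX`, `StmtDescX` (ii)). PROOF. Let `e : Fin d → E` be linearly independent over `ρ.fieldRange`. CLAIM: the `β (e i)` are linearly independent over `φ.fieldRange`. Let `∑ i, φ (c i) * β (e i) = 0`. `E'` is generated by the `β (y i)`, so there are `A i : MvPolynomial (Fin m) k` and `a ∈ E'`, `a ≠ 0`, with `a * c i = aeval (β ∘ y) (A i)` (common denominator); multiply by `φ a`: `∑ i, φ (aeval (β ∘ y) (A i)) * β (e i) = 0`.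
Let `b t` (`t : Fin s`) be a basis of the `K`-span of all the coefficients of the `A i` in `k`; `A i = ∑ t, C (b t) * map (algebraMap K k) (A' i t)`, so `aeval (β ∘ y) (A i) = ∑ t, b t * β (aeval y (A' i t))` and `φ` of it is `∑ t, b t * β (ρ (aeval y (A' i t)))`. So `∑ t, b t * β (∑ i, ρ (aeval y (A' i t)) * e i) = 0`, by the hypothesis `∑ i, ρ (aeval y (A' i t)) * e i = 0` for all `t`, so `ρ (aeval y (A' i t)) = 0`, `aeval y (A' i t) = 0` for all `i, t`,
so `a * c i = 0`. Hence `d ≤ finrank φ.fieldRange E'` (`Module.Finite`); with `d = finrank ρ.fieldRange E` (a basis, or, if it is not finite, the finrank is `0`). -/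
def StmtTpLe : Prop :=
  ∀ (K k : Type) [Field K] [Field k] [Algebra K k] (E E' : Type) [Field E] [Field E'] [Algebra K E] [Algebra k E']
    [Algebra K E'] [IsScalarTower K k E'] (β : E →ₐ[K] E') (ρ : E →ₐ[K] E) (φ : E' →ₐ[k] E'),
    (∀ h, β (ρ h) = φ (β h)) → Module.Finite φ.fieldRange E' →
    (∀ (s : ℕ) (b : Fin s → k), LinearIndependent K b → ∀ h : Fin s → E,
      ∑ t, algebraMap k E' (b t) * β (h t) = 0 → ∀ t, h t = 0) →
    ∀ (m : ℕ) (y : Fin m → E), IntermediateField.adjoin k (Set.range fun i => β (y i)) = ⊤ →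
      Module.finrank ρ.fieldRange E ≤ Module.finrank φ.fieldRange E'

/-- (Fn) A dominant self-map of a finitely generated field is finite. PROOF. `E` is finitely generated over `k`, hence over `φ.fieldRange`; `trdeg k φ.fieldRange = trdeg k E` is finite (`φ.fieldRange ≅ E`), so `E` is algebraic over `φ.fieldRange` (`Algebra.trdeg_add_eq`, `trdeg = 0`), so finite (`Algebra.finite_of_essFiniteType_of_isAlgebraic`; compare `tG1` (1) in `Lib/MP_16285c_agN/G1.lean` and `alg_range` in `Lib/MP_16285c_agX/G/JacX.lean`). -/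
def StmtFn : Prop :=
  ∀ (k E : Type) [Field k] [Field E] [Algebra k E] (m : ℕ) (y : Fin m → E), IntermediateField.adjoin k (Set.range y) = ⊤ →
    ∀ φ : E →ₐ[k] E, Module.Finite φ.fieldRange E

/-- (Cmn) A common denominator. PROOF. As in `Lib/MP_16285c_agX/G/PtsX.lean` (`common`) or `Lib/MP_16285c_agX/G/AmbX.lean`: every element of `adjoin k (range ξ) = ⊤` is `aeval ξ A / aeval ξ B` (`IntermediateField.mem_adjoin_range_iff`), `c` = the product of the denominators. -/
def StmtCmn : Prop :=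
  ∀ (k E : Type) [Field k] [Field E] [Algebra k E] (a b : ℕ) (ξ : Fin a → E) (y : Fin b → E),
    IntermediateField.adjoin k (Set.range ξ) = ⊤ →
    ∃ (c : Pl a k) (Y : Fin b → Pl a k), MvPolynomial.aeval ξ c ≠ 0 ∧
      ∀ i, y i * MvPolynomial.aeval ξ c = MvPolynomial.aeval ξ (Y i)

/-- (AlgR) Algebraic relations with polynomial coefficients. PROOF. `g` is algebraic over `adjoin k (range fun i : Fin l => x i)`, the field of fractions of `k[x i]` (`x i` algebraically independent), so there is a nonzero `Q ∈ (MvPolynomial (Fin l) k)[W]` with `Q(x, g) = 0` (clear denominators; compare `halgR` in `Lib/MP_16285c_agX/G/PrimX.lean`; `IntermediateField.isAlgebraic_adjoin_iff..`, `isAlgebraic_adjoin_range_left_iff` or the like give algebraicity over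
`Algebra.adjoin k (range x)`, which is isomorphic to `MvPolynomial (Fin l) k` by `AlgebraicIndependent.aevalEquiv`). `F = (finSuccEquiv k l).symm Q`. -/
def StmtAlgR : Prop :=
  ∀ (k E : Type) [Field k] [Field E] [Algebra k E] (l : ℕ) (x : Fin l → E), AlgebraicIndependent k x →
    ∀ g : E, IsAlgebraic (IntermediateField.adjoin k (Set.range x)) g →
    ∃ F : Pl (l + 1) k, F ≠ 0 ∧ MvPolynomial.aeval (Fin.cons g x : Fin (l + 1) → E) F = 0

/-- (AlgK) The converse over `K`. PROOF. `F ≠ 0`, `Q = finSuccEquiv K l F ≠ 0` in `(Pl l K)[W]`, `Q.map (aeval x) ≠ 0` since `aeval x` is injective (`x` algebraically independent), its coefficients are in `adjoin K (range x)`, and `h` is a root. -/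
def StmtAlgK : Prop :=
  ∀ (K E : Type) [Field K] [Field E] [Algebra K E] (l : ℕ) (x : Fin l → E), AlgebraicIndependent K x →
    ∀ (h : E) (F : Pl (l + 1) K), F ≠ 0 → MvPolynomial.aeval (Fin.cons h x : Fin (l + 1) → E) F = 0 →
    IsAlgebraic (IntermediateField.adjoin K (Set.range x)) h

/-- (GrBA) The subfield over `K`. `h i ∈ E` are the generators `g i` of the field `E₀` of the base, `β (h i) = ε (g i)`; the first `l` of them are the coordinates (`m = l + m'`; `Fin.castAdd`). PROOF (uses `StmtBet`, `StmtCmpB`, `StmtTpX`, `StmtTpLe`, `StmtFn`, `StmtCmn`, `StmtAlgR`, `StmtAlgK`, `StmtG1`, `StmtDom`, `StmtPresX`, `StmtResF`). (1) Over `k`: `c, Y` from `StmtCmn` for `ξ` and `ε ∘ g`; `q, R` from `StmtCmn` for `g` and `φ₀ ∘ g`: `φ₀ (g i) * q(g) = R_i(g)`; `F i`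
from `StmtAlgR` for `g i` and `x = g ∘ castAdd`, `i : Fin m`. `S` = the coefficients of `c, Y i, q, R i, F i` (`cf`, `desc` of `Lib/MP_16285c_agX/Gro/GroX.lean`). (2) Over `K`: `cK, YK, qK, RK, FK`; `Algebra K E'` by composition, `MonZ PK`, `GenN (map PK) ξ`; `β` from `StmtBet`, with the disjointness. `toF cK ≠ 0` (its image under `β` is `c(ξ) ≠ 0`); `h i = toF (YK i) / toF cK`, so `β (h i) = ε (g i)`.
For `i < l`: `β (toF (X i.succ)) = ξ i.succ = ε (g i) = β (h i)`, so `h (castAdd i) = toF (X i.succ)`. Let `D = adjoin K (range h)`. Every `d ∈ D` has `β d = ε (d')` for a (unique) `d' ∈ E₀` (`adjoin K (range h) ≤ comap`: `{d | β d ∈ ε.fieldRange}` is an intermediate field containing the `h i`; `Algebra K E₀` by composition): `β₀ : D →ₐ[K] E₀`, `ε (β₀ d) = β d`. (3) `σ₁ = σK`: `Pres σK (span {PK})` (`StmtPresX`), `ρ₁ : E →ₐ[K] E` with `Rst σK _ E ρ₁` (`StmtResF`), and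
`β (ρ₁ h) = φ (β h)` (`StmtCmpB` for `M = 1`), `β (ρ h) = (φ ^ M) (β h)` (`StmtCmpB`), so `ρ = ρ₁ ^ M` (`β` is injective). `β (ρ₁ (h i)) = φ (ε (g i)) = ε (φ₀ (g i)) = R_i(ε g) / q(ε g) = β (RK_i(h) / qK(h))`, so `ρ₁ (h i) ∈ D`; so `ρ₁ D ⊆ D`, `ρ D ⊆ D`, `ρ₀ : D →ₐ[K] D` the restriction of `ρ`, and `β₀ (ρ₀ d) = (φ₀ ^ M) (β₀ d)` (apply `ε`). (4) `StmtTpLe` for `β₀, ρ₀, φ₀ ^ M`, `y i = ⟨h i, _⟩`
(the disjointness for `β₀` follows from the one for `β` by applying `ε`; `β₀ (h i) = g i` generate `E₀`; `Module.Finite (φ₀ ^ M).fieldRange E₀` by `StmtFn`): `[D : ρ₀ D] ≤ [E₀ : φ₀ ^ M E₀] = T₀ ^ M` (`StmtG1` (2)). `StmtTpX` for `β, ρ, φ ^ M`, `y i = toF (X i)`: `T ^ M ≤ [E : ρ E]`. `T₀ < T` and `1 ≤ M`: `T₀ ^ M < T ^ M` (`Nat.pow_lt_pow_left`). (5) `FK i` and `StmtAlgK` (`h ∘ castAdd` is algebraically independent over `K`: a relation `G` gives,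
by `β`, the relation `map G` between the `ξ i.succ`, which are algebraically independent over `k`: `Xn.gen_ind`-like part of `StmtFun` (2), or `GenN.ker` and `MonZ`; or `StmtTB`-like): the `h i` are algebraic over `K(h a : a < l)`. -/
def StmtGrBA : Prop :=
  ∀ (k : Type) [Field k] [IsAlgClosed k] [CharZero k] (n l m' : ℕ) (hl : l ≤ n) (P : Pl (n + 1) k) (f : RM k (n + 1)),
    Irreducible P → MonZ P → InvX f P →
    ∀ (E' E₀ : Type) [Field E'] [Algebra k E'] [Field E₀] [Algebra k E₀] (ε : E₀ →ₐ[k] E') (φ : E' →ₐ[k] E')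
      (φ₀ : E₀ →ₐ[k] E₀), (∀ h, ε (φ₀ h) = φ (ε h)) →
      ∀ (ξ : Fin (n + 1) → E'), GenN P ξ → (∀ i, fvn f ξ i = φ (ξ i)) →
      ∀ g : Fin (l + m') → E₀, IntermediateField.adjoin k (Set.range g) = ⊤ →
      (∀ i : Fin l, ε (g (Fin.castAdd m' i)) = ξ (Fin.castLE hl i).succ) →
      IsTranscendenceBasis k (fun i : Fin l => g (Fin.castAdd m' i)) →
      Module.finrank φ₀.fieldRange E₀ < Module.finrank φ.fieldRange E' →
    ∃ S : Finset k, ∀ (K : Type) [Field K] [CharZero K] [Algebra K k] (PK : Pl (n + 1) K)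
      (fK : RM K (n + 1)), (∀ s ∈ S, s ∈ Set.range (algebraMap K k)) →
      MvPolynomial.map (algebraMap K k) PK = P → fK.map (algebraMap K k) = f → Irreducible PK →
      MonZ PK → InvX fK PK → ∀ σK : RF (n + 1) K →ₐ[K] RF (n + 1) K, Of fK σK → ∀ M : ℕ, 1 ≤ M →
      ∀ (E : Type) [Field E] [Algebra (CR (Ideal.span {PK})) E] [IsFractionRing (CR (Ideal.span {PK})) E]
        [Algebra K E] [IsScalarTower K (CR (Ideal.span {PK})) E] (ρ : E →ₐ[K] E),
        Rst (σK ^ M) (Ideal.span {PK}) E ρ →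
        ∃ (c : Pl (n + 1) K) (Y : Fin (l + m') → Pl (n + 1) K) (h : Fin (l + m') → E)
          (ρ₀ : IntermediateField.adjoin K (Set.range h) →ₐ[K] IntermediateField.adjoin K (Set.range h)),
          ¬ PK ∣ c ∧ (∀ i, h i * toF (Ideal.span {PK}) E c = toF (Ideal.span {PK}) E (Y i)) ∧
          (∀ i : Fin l, h (Fin.castAdd m' i) = toF (Ideal.span {PK}) E (MvPolynomial.X (Fin.castLE hl i).succ)) ∧
          (∀ d, (ρ₀ d : E) = ρ (d : E)) ∧
          (∀ i, IsAlgebraic (IntermediateField.adjoin K (Set.range fun a : Fin l => h (Fin.castAdd m' a))) (h i)) ∧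
          Module.finrank ρ₀.fieldRange (IntermediateField.adjoin K (Set.range h)) < Module.finrank ρ.fieldRange E

/-- (GrBB) PROOF (uses `StmtGrBA`, `StmtRkL`, `StmtRsE`, `StmtRsR`, `StmtResD`, `StmtEqF`). `S` from `StmtGrBA`; for `K, …`: `c, Y, h, ρ₀`; `e' = c`. Let `𝔭, L, ρb` be as in `NoFullB`. `u i = toF 𝔭 L (Y i) / toF 𝔭 L c` (`c ∉ 𝔭`), `RsE (h i) (u i)` with `A = Y i`, `B = c`. For `i < l`: `h (castAdd i) = toF (X i.succ)` has the residue `toF 𝔭 L (X i.succ)`, so (uniqueness) `u (castAdd i) = toF 𝔭 L (X i.succ)`, a transcendence basis of `L` over `K` (`StmtRkL`,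
`rk 𝔭 = l`). `ι` from `StmtResD` for `α` = the image of `castAdd` (`Finset.univ.map (Fin.castAddEmb m')`; transport the families over `Fin l` to `α`). `ι (ρ₀ d) = ρb (ι d)`: `RsE (d : E) (ι d)` gives `RsE (ρ d) (ρb (ι d))` (`StmtRsR` for `m = 1`), and `RsE (ρ₀ d) (ι (ρ₀ d))`; uniqueness. `L` is algebraic over `ι.fieldRange` (it contains the `u (castAdd i)` , a transcendence basis) and finitely generated over `K` (by the `toF 𝔭 L (X i)`), so finite over
`ι.fieldRange`. `StmtEqF`: `finrank ρb.fieldRange L = finrank ρ₀.fieldRange D < finrank ρ.fieldRange E`. -/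
def StmtGrBB : Prop :=
  ∀ (k : Type) [Field k] [IsAlgClosed k] [CharZero k] (n l m' : ℕ) (hl : l ≤ n) (P : Pl (n + 1) k) (f : RM k (n + 1)),
    Irreducible P → MonZ P → InvX f P →
    ∀ (E' E₀ : Type) [Field E'] [Algebra k E'] [Field E₀] [Algebra k E₀] (ε : E₀ →ₐ[k] E') (φ : E' →ₐ[k] E')
      (φ₀ : E₀ →ₐ[k] E₀), (∀ h, ε (φ₀ h) = φ (ε h)) →
      ∀ (ξ : Fin (n + 1) → E'), GenN P ξ → (∀ i, fvn f ξ i = φ (ξ i)) →
      ∀ g : Fin (l + m') → E₀, IntermediateField.adjoin k (Set.range g) = ⊤ →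
      (∀ i : Fin l, ε (g (Fin.castAdd m' i)) = ξ (Fin.castLE hl i).succ) →
      IsTranscendenceBasis k (fun i : Fin l => g (Fin.castAdd m' i)) →
      Module.finrank φ₀.fieldRange E₀ < Module.finrank φ.fieldRange E' → GrB l P f

/-! ## The levels -/

/-- (Adp) Adapted transcendence bases. PROOF. Induction on `j`: a transcendence basis `x j` of `F j`; its image in `F (j+1)` is algebraically independent over `k` (`AlgebraicIndependent.map'` for the inclusion), so it extends to a transcendence basis of `F (j+1)` (`exists_isTranscendenceBasis_superset` or the like), which has `n (j+1)` elements (`trdeg`); number it so that the first `n j` elements are the images of the `x j i`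
(as sets: `B ⊆ B'`, `B' = B ∪ (B' \ B)`, `Fin (n (j+1)) ≃ Fin (n j) ⊕ Fin (n (j+1) - n j)`). The family is defined by recursion on `j` (for `j > s` arbitrary: `fun _ => 0`); one may first show by induction on `s` the existence of a function on `{j ≤ s}`, or state the induction for `x : ∀ j, Fin (n j) → F j` with the properties up to `s` and modify `x (s + 1)` by `Function.update`. -/
def StmtAdp : Prop :=
  ∀ (k Ω : Type) [Field k] [Field Ω] [Algebra k Ω] (s : ℕ) (F : ℕ → IntermediateField k Ω) (n : ℕ → ℕ),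
    (∀ j < s, F j ≤ F (j + 1)) → (∀ j ≤ s, Algebra.trdeg k (F j) = n j) →
    ∃ x : ∀ j, Fin (n j) → F j, (∀ j ≤ s, IsTranscendenceBasis k (x j)) ∧
      ∀ j < s, n j ≤ n (j + 1) ∧ ∀ (i : Fin (n j)) (i' : Fin (n (j + 1))), (i : ℕ) = i' → (x j i : Ω) = x (j + 1) i'

/-- (PrimY) A model with a given transcendence basis. PROOF. Edit `Lib/MP_16285c_agX/G/PrimX.lean` (`GPrimXM.core`, where `ξ = Fin.cons z x`; add the last conclusion `Fin.cons_succ`). -/
def StmtPrimY : Prop :=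
  ∀ (k E : Type) [Field k] [CharZero k] [Field E] [Algebra k E] (n m : ℕ) (y : Fin m → E),
    IntermediateField.adjoin k (Set.range y) = ⊤ → ∀ x : Fin n → E, IsTranscendenceBasis k x →
    ∃ (P : Pl (n + 1) k) (ξ : Fin (n + 1) → E), Irreducible P ∧ MonZ P ∧ GenN P ξ ∧ ∀ i : Fin n, ξ i.succ = x i

/-- (Trf) Transfer of orbits to a lower level. PROOF (uses `StmtHat` (1), `StmtHcn`, `StmtCmn`; compare `Lib/MP_16285c_agX/G/VarX.lean`). `c, Y` from `StmtCmn` for `ξ` and `u i = ε (ξ' i)`, `i : Fin (n' + 1)`; we may replace `Y j.succ` by `c * X j'.succ`, `j' = Fin.castLE hn j` (`ε (ξ' j.succ) = ξ j'.succ`). For `A : Pl (n' + 1) k` let `A^ = hatX c Y A.totalDegree A`: `aeval ξ A^ = c(ξ) ^ N * ε (aeval ξ' A)` (`StmtHat` (1) for `θ = aeval ξ`; `aeval u A = ε (aeval ξ' A)`), so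
`P ∣ A^ ↔ P' ∣ A` (`GenN.ker`). `B = c * (jac f')^ * ∏ i, (f'.den i)^` (`¬ P' ∣ f'.den i` by `InvX f' P'`); `¬ P ∣ B` (`P` is prime). Let `w` be an orbit as in `TrfP`, `x t i = (Y i)(w t) / c(w t)`. For every `A` and `N ≥ A.totalDegree`: `(hatX c Y N A)(w t) = c(w t) ^ N * A(x t)` (`StmtHat` (1) for `θ = aeval (w t)`, into `k`). So `P'(x t) = 0` (`P ∣ P'^`), `jac f' (x t) ≠ 0`, `f'.den i (x t) ≠ 0`, `x t i.succ = w t i'.succ`.
ORBIT: `x (t+1) i * f'.den i (x t) = f'.num i (x t)`. As in `VarX.lean`: `D = max (totalDegree c) (totalDegree (Y i))`, `hcn f D A (w t) = (dd f)(w t) ^ D * A(w (t+1))`, and `aeval ξ (hcn f D A) = (dd f)(ξ) ^ D * φ (aeval ξ A)` for `A = c, Y i`. In `E`: `φ (ε (ξ' i)) = ε (φ' (ξ' i)) = ε (fvn f' ξ' i)`, so `φ (u i) * ε (f'.den i (ξ')) = ε (f'.num i (ξ'))`; multiply by `φ (c(ξ)) * (dd f)(ξ) ^ D * c(ξ) ^ N`, `N = max` of the degrees of `f'.num i`, `f'.den i`: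
`aeval ξ (hcn f D (Y i) * hatX c Y N (f'.den i) - hcn f D c * hatX c Y N (f'.num i)) = 0`, so `P` divides this polynomial, so it vanishes at `w t`: `(dd f)(w t) ^ D * Y_i(w (t+1)) * c(w t) ^ N * den(x t) = (dd f)(w t) ^ D * c(w (t+1)) * c(w t) ^ N * num(x t)`; divide. CLOSURE: `ClN N p w`: let `G : Pl (n' + 1) k`, `G(x j) ≠ 0`: `G^(w j) = c(w j) ^ _ * G(x j) ≠ 0`, so there is `J` with `G^(w (j + N * p ^ J * s)) ≠ 0` for all `s`, so `G(x (j + …)) ≠ 0`. -/
def StmtTrf : Prop :=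
  ∀ (k : Type) [Field k] [IsAlgClosed k] [CharZero k] (n n' : ℕ) (P : Pl (n + 1) k) (f : RM k (n + 1))
    (P' : Pl (n' + 1) k) (f' : RM k (n' + 1)), n' ≤ n → Irreducible P → Irreducible P' → InvX f P → InvX f' P' →
    ∀ (E E' : Type) [Field E] [Algebra k E] [Field E'] [Algebra k E'] (ε : E' →ₐ[k] E) (φ : E →ₐ[k] E)
      (φ' : E' →ₐ[k] E'), (∀ h, ε (φ' h) = φ (ε h)) →
      ∀ (ξ : Fin (n + 1) → E) (ξ' : Fin (n' + 1) → E'), GenN P ξ → GenN P' ξ' →
      (∀ i, fvn f ξ i = φ (ξ i)) → (∀ i, fvn f' ξ' i = φ' (ξ' i)) →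
      (∀ (i : Fin n') (i' : Fin n), (i : ℕ) = i' → ε (ξ' i.succ) = ξ i'.succ) → TrfP P f P' f'

/-- (LvD) The model of one level. PROOF (uses `StmtPrimY`, `StmtAmbX`, `StmtNoInvX`, `StmtCmn`, `StmtGroY`, `StmtHat`). `P, ξ` from `StmtPrimY`; `f` from `StmtAmbX`; `NoIX f P` from `StmtNoInvX`. `c, Y` from `StmtCmn` for `ξ` and `y`; `d, Z` from `StmtCmn` for `y` and `ξ`. `e = c * hatX c Y d.totalDegree d`: `aeval ξ e = c(ξ) * c(ξ) ^ _ * aeval y d ≠ 0` (`StmtHat` (1)), so `¬ P ∣ e`; `GrY l P e f` by `StmtGroY`. -/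
def StmtLvD : Prop :=
  ∀ (k : Type) [Field k] [IsAlgClosed k] [CharZero k] (E : Type) [Field E] [Algebra k E] (n m : ℕ) (y : Fin m → E)
    (φ : E →ₐ[k] E) (x : Fin n → E), IntermediateField.adjoin k (Set.range y) = ⊤ → IsTranscendenceBasis k x →
    (∀ h : E, φ h = h → ∃ c : k, h = algebraMap k E c) →
    ∃ (P : Pl (n + 1) k) (ξ : Fin (n + 1) → E) (f : RM k (n + 1)), Irreducible P ∧ MonZ P ∧ GenN P ξ ∧
      (∀ i : Fin n, ξ i.succ = x i) ∧ InvX f P ∧ (∀ i, fvn f ξ i = φ (ξ i)) ∧ NoIX f P ∧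
      ∀ l : ℕ, (∀ r : ℕ, l < r → r + 2 ≤ n → lamX k n r y φ < (Module.finrank φ.fieldRange E : ENNReal)) →
        ∃ e : Pl (n + 1) k, ¬ P ∣ e ∧ GrY l P e f

/-- (LvG) The level condition from the level below. PROOF (uses `StmtModY`, `StmtGrBB`). `GrB l P f` if `1 ≤ l`, `l + 2 ≤ n` (then `T₀ < T`): `StmtGrBB` for `g : Fin (l + m₀) → E₀`, `g (castAdd i) = x₀ i`, `g (natAdd i) = y₀ i` (`Fin.append x₀ y₀` or `Fin.addCases`). -/
def StmtLvG : Prop :=
  ∀ (k : Type) [Field k] [IsAlgClosed k] [CharZero k] (n l m₀ : ℕ) (_ : 1 ≤ n) (hl : l ≤ n) (P e : Pl (n + 1) k)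
    (f : RM k (n + 1)), Irreducible P → MonZ P → InvX f P → NoIX f P → ¬ P ∣ e → GrY l P e f →
    ∀ (E' E₀ : Type) [Field E'] [Algebra k E'] [Field E₀] [Algebra k E₀] (ε : E₀ →ₐ[k] E') (φ : E' →ₐ[k] E')
      (φ₀ : E₀ →ₐ[k] E₀), (∀ h, ε (φ₀ h) = φ (ε h)) →
      ∀ (ξ : Fin (n + 1) → E'), GenN P ξ → (∀ i, fvn f ξ i = φ (ξ i)) →
      ∀ (x₀ : Fin l → E₀) (y₀ : Fin m₀ → E₀), IntermediateField.adjoin k (Set.range y₀) = ⊤ →
      (∀ i : Fin l, ε (x₀ i) = ξ (Fin.castLE hl i).succ) → IsTranscendenceBasis k x₀ →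
      (1 ≤ l → l + 2 ≤ n → Module.finrank φ₀.fieldRange E₀ < Module.finrank φ.fieldRange E') → GrL l P f

/-- (VarY) The theorem (helper62). `F 0 ≤ F 1 ≤ … ≤ F s` is the tower, `n j = trdeg (F j)`, `y j` generators of `F j`, `ψ j` the restriction of `φ` to `F j`. PROOF (uses `StmtTopY`, `StmtAdp`, `StmtLvD`, `StmtLvG`, `StmtTrf`, `StmtPtsX`, `StmtHcn`, `StmtZeroX`). -/
def StmtVarY : Prop :=
  ∀ (k : Type) [Field k] [IsAlgClosed k] [CharZero k] (m : ℕ) (I : Ideal (MvPolynomial (Fin m) k)) [I.IsPrime]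
    (φ : FF I →ₐ[k] FF I) (s : ℕ) (F : ℕ → IntermediateField k (FF I)) (n μ : ℕ → ℕ)
    (y : ∀ j, Fin (μ j) → F j) (ψ : ∀ j, F j →ₐ[k] F j),
    F 0 = ⊥ → F s = ⊤ → (∀ j < s, F j ≤ F (j + 1)) → (∀ j ≤ s, Algebra.trdeg k (F j) = n j) →
    (∀ j ≤ s, IntermediateField.adjoin k (Set.range (y j)) = ⊤) →
    (∀ j ≤ s, ∀ h : F j, (ψ j h : FF I) = φ h) →
    (∀ j < s, ∀ r : ℕ, n j < r → r + 2 ≤ n (j + 1) → lamX k (n (j + 1)) r (y (j + 1)) (ψ (j + 1)) <
      (Module.finrank (ψ (j + 1)).fieldRange (F (j + 1)) : ENNReal)) →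
    (∀ j < s, 1 ≤ n j → n j + 2 ≤ n (j + 1) →
      Module.finrank (ψ j).fieldRange (F j) < Module.finrank (ψ (j + 1)).fieldRange (F (j + 1))) →
    (∀ h : FF I, φ h = h → ∃ c : k, h = algebraMap k (FF I) c) → ∀ b : MvPolynomial (Fin m) k, b ∉ I →
    ∃ x : ℕ → Fin m → k, (∀ t, (∀ A ∈ I, MvPolynomial.eval (x t) A = 0) ∧ MvPolynomial.eval (x t) b ≠ 0 ∧
      ∀ i, ValAt I (φ (cls I (MvPolynomial.X i))) (x t) (x (t + 1) i)) ∧
      ∀ A : MvPolynomial (Fin m) k, A ∉ I → ∃ t, MvPolynomial.eval (x t) A ≠ 0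

end Pool.Agent.Lib.MP_16285c_agY
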